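import Mathlib

set_option autoImplicit false

/-!
# Abstract inequalities for `E' = f - m`, `f ≥ 0`, `m` bounded
-/

open MeasureTheory Set Filter

namespace Pool.Agent.Helper156_EK

/-- the basic inequality -/
theorem basic {E g φ Φ : ℝ → ℝ} {a b : ℝ} (hab : a ≤ b)
    (hE : ∀ t ∈ Icc a b, ∃ e, HasDerivAt E e t ∧ g t ≤ e)
    (hg : ContinuousOn g (Icc a b)) (hφ : Continuous φ) (hφ0 : ∀ x, 0 ≤ φ x)
    (hΦ : ∀ x, HasDerivAt Φ (φ x) x) :
    ∫ t in a..b, φ (E t) * g t ≤ Φ (E b) - Φ (E a) := by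
  choose! e he using hE
  have hEc : ContinuousOn E (Icc a b) := fun t ht => (he t ht).1.continuousAt.continuousWithinAt
  refine intervalIntegral.integral_le_sub_of_hasDeriv_right_of_le hab (g := fun t => Φ (E t))
    (g' := fun t => φ (E t) * e t) ?_ ?_ ?_ ?_
  · intro t ht
    exact ((hΦ (E t)).comp t (he t ht).1).continuousAt.continuousWithinAt
  · intro t ht
    exact ((hΦ (E t)).comp t (he t (Ioo_subset_Icc_self ht)).1).hasDerivWithinAt
  · exact ContinuousOn.integrableOn_Icc ((hφ.comp_continuousOn hEc).mul hg)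
  · intro t ht
    exact mul_le_mul_of_nonneg_left (he t (Ioo_subset_Icc_self ht)).2 (hφ0 _)

/-- the same with a constant: upper bound for the mass -/
theorem mass_le {E f φ Φ : ℝ → ℝ} {a b Λ : ℝ} (hab : a ≤ b)
    (hE : ∀ t ∈ Icc a b, ∃ e, HasDerivAt E e t ∧ f t - Λ ≤ e)
    (hf : Continuous f) (hφ : Continuous φ) (hφ0 : ∀ x, 0 ≤ φ x)
    (hΦ : ∀ x, HasDerivAt Φ (φ x) x) :
    ∫ t in a..b, φ (E t) * f t ≤ Λ * (∫ t in a..b, φ (E t)) + (Φ (E b) - Φ (E a)) := by
  have h := basic (g := fun t => f t - Λ) hab hE (by fun_prop) hφ hφ0 hΦ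
  have hEc : ContinuousOn E (Icc a b) := fun t ht => by
    obtain ⟨e, he, -⟩ := hE t ht
    exact he.continuousAt.continuousWithinAt
  have hc : ContinuousOn (fun t => φ (E t)) (uIcc a b) := by
    rw [uIcc_of_le hab]; exact hφ.comp_continuousOn hEc
  have e1 : ∫ t in a..b, φ (E t) * (f t - Λ) =
      (∫ t in a..b, φ (E t) * f t) - Λ * ∫ t in a..b, φ (E t) := by
    rw [← intervalIntegral.integral_const_mul, ← intervalIntegral.integral_sub]
    · refine intervalIntegral.integral_congr fun t _ => ?_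
      ring
    · exact (hc.mul hf.continuousOn).intervalIntegrable
    · exact (continuousOn_const.mul hc).intervalIntegrable
  rw [e1] at h
  linarith

/-- lower bound for the mass -/
theorem mass_ge {E f φ Φ : ℝ → ℝ} {a b m : ℝ} (hab : a ≤ b)
    (hE : ∀ t ∈ Icc a b, ∃ e, HasDerivAt E e t ∧ e ≤ f t - m)
    (hf : Continuous f) (hφ : Continuous φ) (hφ0 : ∀ x, 0 ≤ φ x)
    (hΦ : ∀ x, HasDerivAt Φ (φ x) x) :
    m * (∫ t in a..b, φ (E t)) + (Φ (E b) - Φ (E a)) ≤ ∫ t in a..b, φ (E t) * f t := by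
  have h := basic (E := fun t => - E t) (g := fun t => m - f t) (φ := fun x => φ (-x))
    (Φ := fun x => - Φ (-x)) hab (fun t ht => by
      obtain ⟨e, h1, h2⟩ := hE t ht
      exact ⟨-e, h1.neg, by linarith⟩) (by fun_prop) (by fun_prop) (fun x => hφ0 _) (fun x => by
      have h2 : HasDerivAt (fun x => -(Φ (-x))) (-(φ (-x) * -1)) x :=
        ((hΦ (-x)).comp x (hasDerivAt_neg x)).neg
      have e : -(φ (-x) * -1) = φ (-x) := by ring
      rwa [e] at h2)
  have hEc : ContinuousOn E (Icc a b) := fun t ht => by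
    obtain ⟨e, he, -⟩ := hE t ht
    exact he.continuousAt.continuousWithinAt
  have hc : ContinuousOn (fun t => φ (E t)) (uIcc a b) := by
    rw [uIcc_of_le hab]; exact hφ.comp_continuousOn hEc
  simp only [neg_neg] at h
  have e1 : ∫ t in a..b, φ (E t) * (m - f t) =
      m * (∫ t in a..b, φ (E t)) - ∫ t in a..b, φ (E t) * f t := by
    rw [← intervalIntegral.integral_const_mul, ← intervalIntegral.integral_sub]
    · refine intervalIntegral.integral_congr fun t _ => ?_
      ring
    · exact (continuousOn_const.mul hc).intervalIntegrable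
    · exact (hc.mul hf.continuousOn).intervalIntegrable
  rw [e1] at h
  linarith

/-! ## The cut-off function -/

/-- `1` on `[-δ, δ]`, `0` outside `[-2δ, 2δ]` -/
noncomputable def chi (δ x : ℝ) : ℝ := max 0 (min 1 (2 - |x| / δ))

theorem chi_cont (δ : ℝ) : Continuous (chi δ) := by unfold chi; fun_prop

theorem chi_nonneg (δ x : ℝ) : 0 ≤ chi δ x := le_max_left _ _

theorem chi_le_one (δ x : ℝ) : chi δ x ≤ 1 := max_le zero_le_one (min_le_left _ _)

theorem chi_eq_one {δ x : ℝ} (hδ : 0 < δ) (hx : |x| ≤ δ) : chi δ x = 1 := by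
  unfold chi
  have h : |x| / δ ≤ 1 := (div_le_one hδ).2 hx
  rw [min_eq_left (by linarith), max_eq_right zero_le_one]

theorem chi_eq_zero {δ x : ℝ} (hδ : 0 < δ) (hx : 2 * δ ≤ |x|) : chi δ x = 0 := by
  unfold chi
  have h : 2 ≤ |x| / δ := (le_div_iff₀ hδ).2 hx
  rw [max_eq_left]
  exact (min_le_right _ _).trans (by linarith)

/-- the primitive of the cut-off function -/
noncomputable def Xi (δ x : ℝ) : ℝ := ∫ u in (0:ℝ)..x, chi δ u

theorem Xi_deriv (δ x : ℝ) : HasDerivAt (Xi δ) (chi δ x) x :=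
  intervalIntegral.integral_hasDerivAt_right ((chi_cont δ).intervalIntegrable _ _)
    ((chi_cont δ).stronglyMeasurableAtFilter _ _) (chi_cont δ).continuousAt

theorem Xi_eq {δ x : ℝ} (hδ : 0 < δ) (hx : |x| ≤ δ) : Xi δ x = x := by
  unfold Xi
  have h : ∫ u in (0:ℝ)..x, chi δ u = ∫ _u in (0:ℝ)..x, (1:ℝ) := by
    refine intervalIntegral.integral_congr fun u hu => ?_
    apply chi_eq_one hδ
    rw [mem_uIcc] at hu
    rw [abs_le] at hx ⊢
    rcases hu with hu | hu
    · exact ⟨by linarith, by linarith⟩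
    · exact ⟨by linarith, by linarith⟩
  rw [h]
  simp

theorem Xi_mono (δ : ℝ) {x y : ℝ} (h : x ≤ y) : Xi δ x ≤ Xi δ y := by
  have h1 : Xi δ y - Xi δ x = ∫ u in x..y, chi δ u := by
    unfold Xi
    rw [intervalIntegral.integral_interval_sub_left ((chi_cont δ).intervalIntegrable _ _)
      ((chi_cont δ).intervalIntegrable _ _)]
  have h2 : 0 ≤ ∫ u in x..y, chi δ u :=
    intervalIntegral.integral_nonneg h fun u _ => chi_nonneg δ u
  linarith

theorem Xi_const {δ : ℝ} (hδ : 0 < δ) {x y : ℝ} (h : x ≤ y)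
    (h0 : ∀ u ∈ Icc x y, 2 * δ ≤ |u|) : Xi δ y = Xi δ x := by
  have h1 : Xi δ y - Xi δ x = ∫ u in x..y, chi δ u := by
    unfold Xi
    rw [intervalIntegral.integral_interval_sub_left ((chi_cont δ).intervalIntegrable _ _)
      ((chi_cont δ).intervalIntegrable _ _)]
  have h2 : ∫ u in x..y, chi δ u = 0 := by
    have : ∫ u in x..y, chi δ u = ∫ _u in x..y, (0:ℝ) := by
      refine intervalIntegral.integral_congr fun u hu => ?_
      rw [uIcc_of_le h] at hu
      exact chi_eq_zero hδ (h0 u hu)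
    rw [this]; simp
  linarith

theorem Xi_lip (δ : ℝ) {x y : ℝ} (h : x ≤ y) : Xi δ y - Xi δ x ≤ y - x := by
  have h1 : Xi δ y - Xi δ x = ∫ u in x..y, chi δ u := by
    unfold Xi
    rw [intervalIntegral.integral_interval_sub_left ((chi_cont δ).intervalIntegrable _ _)
      ((chi_cont δ).intervalIntegrable _ _)]
  have h2 : ∫ u in x..y, chi δ u ≤ ∫ _u in x..y, (1:ℝ) :=
    intervalIntegral.integral_mono_on h ((chi_cont δ).intervalIntegrable _ _)
      (by simp) fun u _ => chi_le_one δ u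
  simp only [intervalIntegral.integral_const, smul_eq_mul, mul_one] at h2
  linarith

theorem Xi_zero (δ : ℝ) : Xi δ 0 = 0 := by unfold Xi; simp

theorem Xi_le {δ : ℝ} (hδ : 0 < δ) (x : ℝ) : Xi δ x ≤ 2 * δ := by
  rcases le_total x (2 * δ) with h | h
  · rcases le_total 0 x with h0 | h0
    · have := Xi_lip δ h0
      rw [Xi_zero] at this
      linarith
    · have := Xi_mono δ h0
      rw [Xi_zero] at this
      linarith
  · have h1 := Xi_const hδ h (fun u hu => hu.1.trans (le_abs_self u))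
    have h2 := Xi_lip δ (by positivity : (0:ℝ) ≤ 2 * δ)
    rw [Xi_zero] at h2
    linarith

theorem Xi_ge {δ : ℝ} (hδ : 0 < δ) (x : ℝ) : -(2 * δ) ≤ Xi δ x := by
  rcases le_total (-(2 * δ)) x with h | h
  · rcases le_total 0 x with h0 | h0
    · have := Xi_mono δ h0
      rw [Xi_zero] at this
      linarith
    · have := Xi_lip δ h0
      rw [Xi_zero] at this
      linarith
  · have h1 := Xi_const hδ h (fun u hu => by
      have : 2 * δ ≤ -u := by linarith [hu.2]
      exact this.trans (neg_le_abs u))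
    have h2 := Xi_lip δ (by linarith : -(2 * δ) ≤ (0:ℝ))
    rw [Xi_zero] at h2
    linarith

theorem Xi_diff {δ : ℝ} (hδ : 0 < δ) (x y : ℝ) : Xi δ y - Xi δ x ≤ 4 * δ := by
  linarith [Xi_le hδ y, Xi_ge hδ x]

/-! ## One cell -/

section cell

variable {E f : ℝ → ℝ} {a Λ δ : ℝ}

/-- the mass near a level in one cell is at most `Λ + 4 δ` -/
theorem cell_near (hδ : 0 < δ) (hΛ : 0 ≤ Λ) (y : ℝ)
    (hE : ∀ t ∈ Icc a (a + 1), ∃ e, HasDerivAt E e t ∧ f t - Λ ≤ e) (hf : Continuous f) :
    ∫ t in a..(a + 1), chi δ (E t - y) * f t ≤ Λ + 4 * δ := by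
  have h := mass_le (E := fun t => E t - y) (by linarith : a ≤ a + 1) (fun t ht => by
    obtain ⟨e, h1, h2⟩ := hE t ht
    exact ⟨e, h1.sub_const y, h2⟩) hf (chi_cont δ) (chi_nonneg δ) (Xi_deriv δ)
  have hEc : ContinuousOn E (Icc a (a + 1)) := fun t ht => by
    obtain ⟨e, he, -⟩ := hE t ht
    exact he.continuousAt.continuousWithinAt
  have hab : a ≤ a + 1 := by linarith
  have h1 : ∫ t in a..(a + 1), chi δ (E t - y) ≤ ∫ _t in a..(a + 1), (1:ℝ) := by
    refine intervalIntegral.integral_mono_on hab ?_ (by simp) fun u _ => chi_le_one δ _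
    apply ContinuousOn.intervalIntegrable
    rw [uIcc_of_le hab]
    exact (chi_cont δ).comp_continuousOn (hEc.sub continuousOn_const)
  simp only [intervalIntegral.integral_const, smul_eq_mul, mul_one, add_sub_cancel_left] at h1
  have h2 := Xi_diff hδ (E a - y) (E (a + 1) - y)
  have h3 : Λ * (∫ t in a..(a + 1), chi δ (E t - y)) ≤ Λ * 1 := mul_le_mul_of_nonneg_left h1 hΛ
  linarith

/-- the mass away from a level in one cell -/
theorem cell_far (hδ : 0 < δ) (hΛ : 0 ≤ Λ) (y : ℝ)
    (hE : ∀ t ∈ Icc a (a + 1), ∃ e, HasDerivAt E e t ∧ f t - Λ ≤ e) (hf : Continuous f) :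
    (∫ t in a..(a + 1), f t) - Λ - 4 * δ ≤ ∫ t in a..(a + 1), (1 - chi δ (E t - y)) * f t := by
  have h := cell_near hδ hΛ y hE hf
  have hEc : ContinuousOn E (Icc a (a + 1)) := fun t ht => by
    obtain ⟨e, he, -⟩ := hE t ht
    exact he.continuousAt.continuousWithinAt
  have hab : a ≤ a + 1 := by linarith
  have e1 : ∫ t in a..(a + 1), (1 - chi δ (E t - y)) * f t =
      (∫ t in a..(a + 1), f t) - ∫ t in a..(a + 1), chi δ (E t - y) * f t := by
    rw [← intervalIntegral.integral_sub (hf.intervalIntegrable _ _)]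
    · refine intervalIntegral.integral_congr fun t _ => ?_
      ring
    · apply ContinuousOn.intervalIntegrable
      rw [uIcc_of_le hab]
      exact ((chi_cont δ).comp_continuousOn (hEc.sub continuousOn_const)).mul hf.continuousOn
  rw [e1]
  linarith

/-- the mass weighted with a power of `|E|` in one cell -/
theorem cell_pow {q : ℝ} (hq : 0 < q) (hΛ : 0 ≤ Λ)
    (hE : ∀ t ∈ Icc a (a + 1), ∃ e, HasDerivAt E e t ∧ f t - Λ ≤ e) (hf : Continuous f)
    (hf0 : ∀ t, 0 ≤ f t) (hJ : 2 * Λ ≤ ∫ t in a..(a + 1), f t) :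
    (1 / 4) * (1 / 16) ^ q * (∫ t in a..(a + 1), f t) ^ (q + 1) ≤
      ∫ t in a..(a + 1), |E t| ^ q * f t := by
  set J := ∫ t in a..(a + 1), f t with hJd
  have hab : a ≤ a + 1 := by linarith
  have hJ0 : 0 ≤ J := intervalIntegral.integral_nonneg hab fun u _ => hf0 u
  have hEc : ContinuousOn E (Icc a (a + 1)) := fun t ht => by
    obtain ⟨e, he, -⟩ := hE t ht
    exact he.continuousAt.continuousWithinAt
  have hpos : 0 ≤ ∫ t in a..(a + 1), |E t| ^ q * f t :=
    intervalIntegral.integral_nonneg hab fun u _ =>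
      mul_nonneg (Real.rpow_nonneg (abs_nonneg _) _) (hf0 u)
  rcases hJ0.eq_or_lt with h0 | h0
  · rw [← h0, Real.zero_rpow (by linarith), mul_zero]
    exact hpos
  · have hδ : 0 < J / 16 := by positivity
    have h1 := cell_far hδ hΛ 0 hE hf
    simp only [sub_zero] at h1
    have h2 : (J / 16) ^ q * (∫ t in a..(a + 1), (1 - chi (J / 16) (E t)) * f t) ≤
        ∫ t in a..(a + 1), |E t| ^ q * f t := by
      rw [← intervalIntegral.integral_const_mul]
      apply intervalIntegral.integral_mono_on hab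
      · apply ContinuousOn.intervalIntegrable
        rw [uIcc_of_le hab]
        exact continuousOn_const.mul ((continuousOn_const.sub
          ((chi_cont _).comp_continuousOn hEc)).mul hf.continuousOn)
      · apply ContinuousOn.intervalIntegrable
        rw [uIcc_of_le hab]
        exact (hEc.abs.rpow_const fun _ _ => Or.inr hq.le).mul hf.continuousOn
      · intro t _
        rw [← mul_assoc]
        apply mul_le_mul_of_nonneg_right _ (hf0 t)
        rcases le_total |E t| (J / 16) with h | h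
        · rw [chi_eq_one hδ h]
          simp only [sub_self, mul_zero]
          exact Real.rpow_nonneg (abs_nonneg _) _
        · calc (J / 16) ^ q * (1 - chi (J / 16) (E t)) ≤ (J / 16) ^ q * 1 := by
                apply mul_le_mul_of_nonneg_left _ (Real.rpow_nonneg hδ.le _)
                linarith [chi_nonneg (J / 16) (E t)]
            _ ≤ |E t| ^ q := by
                rw [mul_one]
                exact Real.rpow_le_rpow hδ.le h hq.le
    have h3 : (J / 16) ^ q * (J / 4) ≤
        (J / 16) ^ q * (∫ t in a..(a + 1), (1 - chi (J / 16) (E t)) * f t) := by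
      apply mul_le_mul_of_nonneg_left _ (Real.rpow_nonneg hδ.le _)
      linarith
    refine le_trans (le_of_eq ?_) (h3.trans h2)
    rw [Real.rpow_add h0, Real.rpow_one, Real.div_rpow h0.le (by norm_num),
      Real.div_rpow (by norm_num) (by norm_num), Real.one_rpow]
    ring

end cell

/-! ## Sums over cells -/

section sums

variable {E f : ℝ → ℝ}

theorem sum_cells (g : ℝ → ℝ) (a0 : ℝ) (N : ℕ) {a b : ℝ} (ha : a ≤ a0) (hb : a0 + N ≤ b)
    (hg : ContinuousOn g (Icc a b)) (hg0 : ∀ t ∈ Icc a b, 0 ≤ g t) :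
    ∑ n ∈ Finset.range N, ∫ t in (a0 + n)..(a0 + n + 1), g t ≤ ∫ t in a..b, g t := by
  have hint : ∀ c d : ℝ, a ≤ c → c ≤ d → d ≤ b → IntervalIntegrable g volume c d := by
    intro c d h1 h2 h3
    apply ContinuousOn.intervalIntegrable
    rw [uIcc_of_le h2]
    exact hg.mono (Icc_subset_Icc h1 h3)
  have h1 : ∑ n ∈ Finset.range N, ∫ t in (a0 + n)..(a0 + n + 1), g t = ∫ t in a0..(a0 + N), g t := by
    have h2 := intervalIntegral.sum_integral_adjacent_intervals (f := g) (μ := volume)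
      (a := fun n : ℕ => a0 + n) (n := N) (fun n hn => hint _ _ (by
        have : (0:ℝ) ≤ n := n.cast_nonneg
        linarith) (by push_cast; linarith) (by
        have : ((n + 1 : ℕ) : ℝ) ≤ N := by exact_mod_cast hn
        linarith))
    simp only [Nat.cast_zero, add_zero] at h2
    rw [← h2]
    refine Finset.sum_congr rfl fun n _ => ?_
    push_cast
    rw [add_assoc]
  have hN : (0:ℝ) ≤ N := N.cast_nonneg
  rw [h1]
  have h3 : ∫ t in a..b, g t = (∫ t in a..a0, g t) + (∫ t in a0..(a0 + N), g t) +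
      ∫ t in (a0 + N)..b, g t := by
    rw [intervalIntegral.integral_add_adjacent_intervals (hint _ _ le_rfl ha (by linarith))
      (hint _ _ ha (by linarith) hb), intervalIntegral.integral_add_adjacent_intervals
      (hint _ _ le_rfl (by linarith) hb) (hint _ _ (by linarith) hb le_rfl)]
  have h4 : 0 ≤ ∫ t in a..a0, g t :=
    intervalIntegral.integral_nonneg ha fun u hu => hg0 u ⟨hu.1, by linarith [hu.2]⟩
  have h5 : 0 ≤ ∫ t in (a0 + N)..b, g t :=
    intervalIntegral.integral_nonneg hb fun u hu => hg0 u ⟨by linarith [hu.1], hu.2⟩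
  linarith

/-- the mass of the large cells is at most `Λ` times the measure of the set where `|E| > δ` -/
theorem far_measure {a b a0 Λ δ : ℝ} {N : ℕ} (hab : a ≤ b) (ha : a ≤ a0) (hb : a0 + N ≤ b) (hδ : 0 < δ)
    (hΛ : 0 ≤ Λ) (hE : ∀ t ∈ Icc a b, ∃ e, HasDerivAt E e t ∧ f t - Λ ≤ e) (hf : Continuous f)
    (hf0 : ∀ t, 0 ≤ f t) (hEa : |E a| ≤ δ) (hEb : |E b| ≤ δ) :
    ∑ n ∈ Finset.range N, max 0 ((∫ t in (a0 + n)..(a0 + n + 1), f t) - Λ - 4 * δ) ≤
      Λ * volume.real {t ∈ Icc a b | δ < |E t|} := by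
  have hEc : ContinuousOn E (Icc a b) := fun t ht => by
    obtain ⟨e, he, -⟩ := hE t ht
    exact he.continuousAt.continuousWithinAt
  have hcc : ContinuousOn (fun t => 1 - chi δ (E t)) (Icc a b) :=
    continuousOn_const.sub ((chi_cont δ).comp_continuousOn hEc)
  -- the sum over the cells
  have h1 : ∑ n ∈ Finset.range N, max 0 ((∫ t in (a0 + n)..(a0 + n + 1), f t) - Λ - 4 * δ) ≤
      ∑ n ∈ Finset.range N, ∫ t in (a0 + n)..(a0 + n + 1), (1 - chi δ (E t)) * f t := by
    refine Finset.sum_le_sum fun n hn => ?_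
    rw [Finset.mem_range] at hn
    have hn1 : ((n + 1 : ℕ) : ℝ) ≤ N := by exact_mod_cast hn
    push_cast at hn1
    have hn0 : (0:ℝ) ≤ n := n.cast_nonneg
    apply max_le
    · exact intervalIntegral.integral_nonneg (by linarith) fun u _ =>
        mul_nonneg (by linarith [chi_le_one δ (E u)]) (hf0 u)
    · have := cell_far (a := a0 + n) hδ hΛ 0 (fun t ht => hE t ⟨by linarith [ht.1], by linarith [ht.2]⟩) hf
      simpa only [sub_zero] using this
  have h2 := sum_cells (fun t => (1 - chi δ (E t)) * f t) a0 N ha hb (hcc.mul hf.continuousOn)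
    (fun t _ => mul_nonneg (by linarith [chi_le_one δ (E t)]) (hf0 t))
  have h3 := mass_le (φ := fun x => 1 - chi δ x) (Φ := fun x => x - Xi δ x) hab hE hf
    (continuous_const.sub (chi_cont δ)) (fun x => by linarith [chi_le_one δ x])
    (fun x => (hasDerivAt_id x).sub (Xi_deriv δ x))
  have h4 : ∫ t in a..b, (1 - chi δ (E t)) ≤ volume.real {t ∈ Icc a b | δ < |E t|} := by
    have hEm : MeasurableSet {t ∈ Icc a b | δ < |E t|} := by
      have : {t ∈ Icc a b | δ < |E t|} = Icc a b \ (Icc a b ∩ (fun t => |E t|) ⁻¹' Iic δ) := by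
        ext t; simp only [mem_ofPred_eq, Set.mem_sdiff, mem_inter_iff, mem_preimage, mem_Iic, not_and, not_le]
        constructor
        · rintro ⟨h, h'⟩; exact ⟨h, fun _ => h'⟩
        · rintro ⟨h, h'⟩; exact ⟨h, h' h⟩
      rw [this]
      exact measurableSet_Icc.diff
        (hEc.abs.preimage_isClosed_of_isClosed isClosed_Icc isClosed_Iic).measurableSet
    rw [intervalIntegral.integral_of_le hab, ← integral_Icc_eq_integral_Ioc]
    have e1 : volume.real {t ∈ Icc a b | δ < |E t|} =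
        ∫ t in Icc a b, indicator {t ∈ Icc a b | δ < |E t|} (fun _ => (1:ℝ)) t := by
      rw [setIntegral_indicator hEm, setIntegral_const, smul_eq_mul, mul_one]
      congr 1
      ext t; simp only [mem_ofPred_eq, mem_inter_iff]; tauto
    rw [e1]
    apply setIntegral_mono_on hcc.integrableOn_Icc
    · apply Integrable.indicator _ hEm
      exact (integrableOn_const (by simp) (by simp))
    · exact measurableSet_Icc
    · intro t ht
      by_cases h : δ < |E t|
      · rw [indicator_of_mem (show t ∈ {t ∈ Icc a b | δ < |E t|} from ⟨ht, h⟩)]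
        linarith [chi_nonneg δ (E t)]
      · rw [indicator_of_notMem (fun h' => h h'.2), chi_eq_one hδ (not_lt.1 h), sub_self]
  simp only [Xi_eq hδ hEa, Xi_eq hδ hEb, sub_self, add_zero] at h3
  calc _ ≤ _ := h1
    _ ≤ _ := h2
    _ ≤ _ := h3
    _ ≤ _ := mul_le_mul_of_nonneg_left h4 hΛ

/-- the primitive of `|x| ^ q` -/
noncomputable def Pq (q x : ℝ) : ℝ := ∫ u in (0:ℝ)..x, |u| ^ q

theorem abs_rpow_cont {q : ℝ} (hq : 0 < q) : Continuous fun u : ℝ => |u| ^ q :=
  continuous_abs.rpow_const fun _ => Or.inr hq.le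

theorem Pq_deriv {q : ℝ} (hq : 0 < q) (x : ℝ) : HasDerivAt (Pq q) (|x| ^ q) x :=
  intervalIntegral.integral_hasDerivAt_right ((abs_rpow_cont hq).intervalIntegrable _ _)
    ((abs_rpow_cont hq).stronglyMeasurableAtFilter _ _) (abs_rpow_cont hq).continuousAt

theorem Pq_abs {q : ℝ} (hq : 0 < q) (x : ℝ) : |Pq q x| ≤ |x| ^ (q + 1) := by
  have h1 : ‖∫ u in (0:ℝ)..x, |u| ^ q‖ ≤ |x| ^ q * |x - 0| := by
    apply intervalIntegral.norm_integral_le_of_norm_le_const
    intro u hu
    rw [Real.norm_of_nonneg (Real.rpow_nonneg (abs_nonneg _) _)]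
    apply Real.rpow_le_rpow (abs_nonneg _) _ hq.le
    rw [mem_uIoc] at hu
    rcases hu with hu | hu
    · rw [abs_of_pos hu.1]; exact hu.2.trans (le_abs_self x)
    · rw [abs_of_nonpos hu.2]
      linarith [neg_le_abs x, hu.1]
  rw [sub_zero, Real.norm_eq_abs] at h1
  refine h1.trans (le_of_eq ?_)
  rcases eq_or_ne |x| 0 with h | h
  · rw [h, Real.zero_rpow (by linarith : q + 1 ≠ 0)]; ring
  · rw [Real.rpow_add (lt_of_le_of_ne (abs_nonneg x) h.symm), Real.rpow_one]

/-- the sum of the powers of the large cell masses -/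
theorem pow_sum {a b a0 Λ q : ℝ} {N : ℕ} (hab : a ≤ b) (ha : a ≤ a0) (hb : a0 + N ≤ b) (hq : 0 < q)
    (hΛ : 0 ≤ Λ) (hE : ∀ t ∈ Icc a b, ∃ e, HasDerivAt E e t ∧ f t - Λ ≤ e) (hf : Continuous f)
    (hf0 : ∀ t, 0 ≤ f t) :
    (1 / 4) * (1 / 16) ^ q * ∑ n ∈ Finset.range N,
        (if 2 * Λ ≤ ∫ t in (a0 + n)..(a0 + n + 1), f t then
          (∫ t in (a0 + n)..(a0 + n + 1), f t) ^ (q + 1) else 0) ≤
      Λ * (∫ t in a..b, |E t| ^ q) + (|E b| ^ (q + 1) + |E a| ^ (q + 1)) := by
  have hEc : ContinuousOn E (Icc a b) := fun t ht => by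
    obtain ⟨e, he, -⟩ := hE t ht
    exact he.continuousAt.continuousWithinAt
  have h1 : (1 / 4) * (1 / 16) ^ q * ∑ n ∈ Finset.range N,
        (if 2 * Λ ≤ ∫ t in (a0 + n)..(a0 + n + 1), f t then
          (∫ t in (a0 + n)..(a0 + n + 1), f t) ^ (q + 1) else 0) ≤
      ∑ n ∈ Finset.range N, ∫ t in (a0 + n)..(a0 + n + 1), |E t| ^ q * f t := by
    rw [Finset.mul_sum]
    refine Finset.sum_le_sum fun n hn => ?_
    rw [Finset.mem_range] at hn
    have hn1 : ((n + 1 : ℕ) : ℝ) ≤ N := by exact_mod_cast hn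
    push_cast at hn1
    have hn0 : (0:ℝ) ≤ n := n.cast_nonneg
    split_ifs with h
    · exact cell_pow (a := a0 + n) hq hΛ (fun t ht => hE t ⟨by linarith [ht.1], by linarith [ht.2]⟩) hf hf0 h
    · rw [mul_zero]
      exact intervalIntegral.integral_nonneg (by linarith) fun u _ =>
        mul_nonneg (Real.rpow_nonneg (abs_nonneg _) _) (hf0 u)
  have h2 := sum_cells (fun t => |E t| ^ q * f t) a0 N ha hb
    ((hEc.abs.rpow_const fun _ _ => Or.inr hq.le).mul hf.continuousOn)
    (fun t _ => mul_nonneg (Real.rpow_nonneg (abs_nonneg _) _) (hf0 t))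
  have h3 := mass_le (φ := fun x => |x| ^ q) (Φ := Pq q) hab hE hf (abs_rpow_cont hq)
    (fun x => Real.rpow_nonneg (abs_nonneg _) _) (Pq_deriv hq)
  have h4 : Pq q (E b) - Pq q (E a) ≤ |E b| ^ (q + 1) + |E a| ^ (q + 1) := by
    have := Pq_abs hq (E b)
    have := Pq_abs hq (E a)
    linarith [le_abs_self (Pq q (E b)), neg_le_abs (Pq q (E a))]
  linarith

end sums

end Pool.Agent.Helper156_EK
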