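import Mathlib

set_option autoImplicit false

/-!
# Discrete convolution inequalities
-/

open MeasureTheory Set Filter

namespace Pool.Agent.Helper156_EK

/-- the weights -/
noncomputable def wt (m n : ℕ) : ℝ := 1 / (1 + ((m : ℝ) - n) ^ 2)

theorem wt_pos (m n : ℕ) : 0 < wt m n := by unfold wt; positivity

theorem wt_symm (m n : ℕ) : wt m n = wt n m := by
  unfold wt
  congr 2
  ring

theorem wt_self (n : ℕ) : wt n n = 1 := by unfold wt; simp

theorem sum_half (N : ℕ) : ∑ j ∈ Finset.range N, 1 / (1 + (j : ℝ) ^ 2) ≤ 4 - 3 / ((N : ℝ) + 1) := by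
  induction N with
  | zero => simp; norm_num
  | succ N ih =>
    rw [Finset.sum_range_succ]
    have hN : (0:ℝ) ≤ N := N.cast_nonneg
    have h1 : 1 / (1 + (N : ℝ) ^ 2) ≤ 3 / ((N : ℝ) + 1) - 3 / ((N : ℝ) + 1 + 1) := by
      rw [div_sub_div _ _ (by positivity) (by positivity), div_le_div_iff₀ (by positivity) (by positivity)]
      have h2 : 0 ≤ (2 * (N:ℝ) - 1) * (N - 1) := by
        rcases Nat.lt_or_ge N 1 with h | h
        · have : N = 0 := by omega
          subst this; norm_num
        · have : (1:ℝ) ≤ N := by exact_mod_cast h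
          exact mul_nonneg (by linarith) (by linarith)
      nlinarith
    push_cast
    linarith

theorem wt_sum (n N : ℕ) : ∑ m ∈ Finset.range N, wt m n ≤ 8 := by
  have h1 : ∑ m ∈ Finset.range N, wt m n ≤ ∑ m ∈ Finset.range (n + N), wt m n :=
    Finset.sum_le_sum_of_subset_of_nonneg (Finset.range_mono (by omega)) fun m _ _ => (wt_pos m n).le
  rw [Finset.sum_range_add] at h1
  have h2 : ∑ m ∈ Finset.range n, wt m n ≤ 4 := by
    rw [← Finset.sum_range_reflect]
    calc ∑ j ∈ Finset.range n, wt (n - 1 - j) n ≤ ∑ j ∈ Finset.range n, 1 / (1 + (j : ℝ) ^ 2) := by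
          refine Finset.sum_le_sum fun j hj => ?_
          rw [Finset.mem_range] at hj
          unfold wt
          have e : ((n - 1 - j : ℕ) : ℝ) = n - 1 - j := by
            rw [Nat.cast_sub (by omega), Nat.cast_sub (by omega)]
            simp
          rw [e]
          apply one_div_le_one_div_of_le (by positivity)
          have : (0:ℝ) ≤ j := j.cast_nonneg
          nlinarith
      _ ≤ 4 - 3 / ((n : ℝ) + 1) := sum_half n
      _ ≤ 4 := by
          have : 0 ≤ 3 / ((n : ℝ) + 1) := by positivity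
          linarith
  have h3 : ∑ m ∈ Finset.range N, wt (n + m) n ≤ 4 := by
    calc ∑ j ∈ Finset.range N, wt (n + j) n = ∑ j ∈ Finset.range N, 1 / (1 + (j : ℝ) ^ 2) := by
          refine Finset.sum_congr rfl fun j _ => ?_
          unfold wt
          push_cast
          congr 2
          ring
      _ ≤ 4 - 3 / ((N : ℝ) + 1) := sum_half N
      _ ≤ 4 := by
          have : 0 ≤ 3 / ((N : ℝ) + 1) := by positivity
          linarith
  linarith

theorem conv_pow {r : ℝ} (hr : 1 ≤ r) (J : ℕ → ℝ) (hJ : ∀ m, 0 ≤ J m) (n N : ℕ) :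
    (∑ m ∈ Finset.range N, wt m n * J m) ^ r ≤ 8 ^ (r - 1) * ∑ m ∈ Finset.range N, wt m n * J m ^ r := by
  have hr0 : 0 < r := by linarith
  have h1 := Real.inner_le_weight_mul_Lp_of_nonneg (Finset.range N) hr (fun m => wt m n) J
    (fun m => (wt_pos m n).le) hJ
  have hS0 : 0 ≤ ∑ m ∈ Finset.range N, wt m n := Finset.sum_nonneg fun m _ => (wt_pos m n).le
  have hT0 : 0 ≤ ∑ m ∈ Finset.range N, wt m n * J m ^ r :=
    Finset.sum_nonneg fun m _ => mul_nonneg (wt_pos m n).le (Real.rpow_nonneg (hJ m) _)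
  have h2 : 0 ≤ ∑ m ∈ Finset.range N, wt m n * J m :=
    Finset.sum_nonneg fun m _ => mul_nonneg (wt_pos m n).le (hJ m)
  have h3 := Real.rpow_le_rpow h2 h1 hr0.le
  rw [Real.mul_rpow (Real.rpow_nonneg hS0 _) (Real.rpow_nonneg hT0 _), ← Real.rpow_mul hS0,
    ← Real.rpow_mul hT0, inv_mul_cancel₀ hr0.ne', Real.rpow_one] at h3
  have e : (1 - r⁻¹) * r = r - 1 := by field_simp
  rw [e] at h3
  refine h3.trans (mul_le_mul_of_nonneg_right ?_ hT0)
  exact Real.rpow_le_rpow hS0 (wt_sum n N) (by linarith)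

theorem young {r : ℝ} (hr : 1 ≤ r) (J : ℕ → ℝ) (hJ : ∀ m, 0 ≤ J m) (N : ℕ) :
    ∑ n ∈ Finset.range N, (∑ m ∈ Finset.range N, wt m n * J m) ^ r ≤
      8 ^ r * ∑ m ∈ Finset.range N, J m ^ r := by
  calc ∑ n ∈ Finset.range N, (∑ m ∈ Finset.range N, wt m n * J m) ^ r
      ≤ ∑ n ∈ Finset.range N, 8 ^ (r - 1) * ∑ m ∈ Finset.range N, wt m n * J m ^ r :=
        Finset.sum_le_sum fun n _ => conv_pow hr J hJ n N
    _ = 8 ^ (r - 1) * ∑ m ∈ Finset.range N, (∑ n ∈ Finset.range N, wt m n) * J m ^ r := by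
        rw [← Finset.mul_sum, Finset.sum_comm]
        simp_rw [Finset.sum_mul]
    _ ≤ 8 ^ (r - 1) * ∑ m ∈ Finset.range N, 8 * J m ^ r := by
        apply mul_le_mul_of_nonneg_left _ (by positivity)
        refine Finset.sum_le_sum fun m _ => mul_le_mul_of_nonneg_right ?_ (Real.rpow_nonneg (hJ m) _)
        simp_rw [wt_symm m]
        exact wt_sum m N
    _ = 8 ^ r * ∑ m ∈ Finset.range N, J m ^ r := by
        rw [← Finset.mul_sum, ← mul_assoc]
        congr 1
        have : (8:ℝ) ^ r = 8 ^ (r - 1 + 1) := by rw [sub_add_cancel]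
        rw [this, Real.rpow_add (by norm_num), Real.rpow_one]

/-- the sum over the cells with a large value is controlled by the large cells -/
theorem peaks {N : ℕ} (S : Finset ℕ) (hS : S ⊆ Finset.range N) (J g : ℕ → ℝ) (hJ : ∀ m, 0 ≤ J m) {K : ℝ}
    (hg : ∀ n ∈ S, g n ≤ J n)
    (hloc : ∀ n ∈ S, 0 < g n → 9 * K ≤ ∑ m ∈ Finset.range N, wt m n * J m) :
    ∑ n ∈ S, g n ≤ 8 * ∑ m ∈ Finset.range N, (if K ≤ J m then J m else 0) := by
  set J' : ℕ → ℝ := fun m => if K ≤ J m then J m else 0 with hJ'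
  have hJ'0 : ∀ m, 0 ≤ J' m := fun m => by
    simp only [hJ']
    split_ifs
    · exact hJ m
    · exact le_rfl
  have hA : ∀ n, 0 ≤ ∑ m ∈ Finset.range N, wt m n * J' m := fun n =>
    Finset.sum_nonneg fun m _ => mul_nonneg (wt_pos m n).le (hJ'0 m)
  have h1 : ∀ n ∈ S, g n ≤ ∑ m ∈ Finset.range N, wt m n * J' m := by
    intro n hn
    rcases le_or_gt (g n) 0 with h0 | h0
    · exact h0.trans (hA n)
    · have hnN := hS hn
      by_cases hK : K ≤ J n
      · calc g n ≤ J n := hg n hn
          _ = wt n n * J' n := by rw [wt_self, one_mul]; simp only [hJ', if_pos hK]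
          _ ≤ ∑ m ∈ Finset.range N, wt m n * J' m :=
              Finset.single_le_sum (f := fun m => wt m n * J' m)
                (fun m _ => mul_nonneg (wt_pos m n).le (hJ'0 m)) hnN
      · have h2 := hloc n hn h0
        have hK0 : 0 ≤ K := (hJ n).trans (le_of_lt (not_le.1 hK))
        have h3 : ∑ m ∈ Finset.range N, wt m n * J m ≤
            ∑ m ∈ Finset.range N, wt m n * J' m + 8 * K := by
          calc ∑ m ∈ Finset.range N, wt m n * J m
              ≤ ∑ m ∈ Finset.range N, (wt m n * J' m + wt m n * K) := by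
                refine Finset.sum_le_sum fun m _ => ?_
                rw [← mul_add]
                apply mul_le_mul_of_nonneg_left _ (wt_pos m n).le
                simp only [hJ']
                split_ifs with h
                · linarith
                · linarith [not_le.1 h]
            _ = ∑ m ∈ Finset.range N, wt m n * J' m + (∑ m ∈ Finset.range N, wt m n) * K := by
                rw [Finset.sum_add_distrib, Finset.sum_mul]
            _ ≤ _ := by
                have := mul_le_mul_of_nonneg_right (wt_sum n N) hK0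
                linarith
        have h4 := hg n hn
        linarith [not_le.1 hK]
  calc ∑ n ∈ S, g n ≤ ∑ n ∈ S, ∑ m ∈ Finset.range N, wt m n * J' m := Finset.sum_le_sum h1
    _ ≤ ∑ n ∈ Finset.range N, ∑ m ∈ Finset.range N, wt m n * J' m :=
        Finset.sum_le_sum_of_subset_of_nonneg hS fun n _ _ => hA n
    _ = ∑ m ∈ Finset.range N, (∑ n ∈ Finset.range N, wt m n) * J' m := by
        rw [Finset.sum_comm]
        simp_rw [Finset.sum_mul]
    _ ≤ ∑ m ∈ Finset.range N, 8 * J' m := by
        refine Finset.sum_le_sum fun m _ => mul_le_mul_of_nonneg_right ?_ (hJ'0 m)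
        simp_rw [wt_symm m]
        exact wt_sum m N
    _ = 8 * ∑ m ∈ Finset.range N, J' m := by rw [Finset.mul_sum]

/-- from the local inequality to the cells -/
theorem loc_cells {f : ℝ → ℝ} (hf : Continuous f) (hf0 : ∀ t, 0 ≤ f t) {L C a0 t : ℝ} {N n : ℕ}
    (hL : 1 ≤ L) (hC : 0 ≤ C) (hn : n < N) (ht : t ∈ Icc (a0 + n) (a0 + n + 1)) (h1 : a0 ≤ t - 2 * L)
    (h2 : t + 2 * L ≤ a0 + N)
    (hloc : f t ≤ C * ((∫ u in (t - 2 * L)..(t + 2 * L), f u * (L / (1 + L * |u - t|) ^ 2)) + 1)) :
    f t ≤ 4 * C * L * ∑ m ∈ Finset.range N, wt m n * ((∫ u in (a0 + m)..(a0 + m + 1), f u) + 1) := by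
  have hL0 : 0 < L := by linarith
  have hkc : Continuous fun u => f u * (L / (1 + L * |u - t|) ^ 2) := by
    apply hf.mul
    apply Continuous.div continuous_const (by fun_prop)
    intro u
    positivity
  have hk0 : ∀ u, 0 ≤ f u * (L / (1 + L * |u - t|) ^ 2) := fun u => mul_nonneg (hf0 u) (by positivity)
  have hN0 : (0:ℝ) ≤ N := N.cast_nonneg
  have h3 : ∫ u in (t - 2 * L)..(t + 2 * L), f u * (L / (1 + L * |u - t|) ^ 2) ≤
      ∫ u in a0..(a0 + N), f u * (L / (1 + L * |u - t|) ^ 2) :=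
    intervalIntegral.integral_mono_interval h1 (by linarith) h2
      (Filter.Eventually.of_forall hk0) (hkc.intervalIntegrable _ _)
  have h4 : ∫ u in a0..(a0 + N), f u * (L / (1 + L * |u - t|) ^ 2) =
      ∑ m ∈ Finset.range N, ∫ u in (a0 + m)..(a0 + m + 1), f u * (L / (1 + L * |u - t|) ^ 2) := by
    have h5 := intervalIntegral.sum_integral_adjacent_intervals
      (f := fun u => f u * (L / (1 + L * |u - t|) ^ 2)) (μ := volume)
      (a := fun n : ℕ => a0 + n) (n := N) (fun n _ => hkc.intervalIntegrable _ _)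
    simp only [Nat.cast_zero, add_zero] at h5
    rw [← h5]
    refine Finset.sum_congr rfl fun n _ => ?_
    push_cast
    rw [add_assoc]
  have h5 : ∀ m : ℕ, ∫ u in (a0 + m)..(a0 + m + 1), f u * (L / (1 + L * |u - t|) ^ 2) ≤
      4 * L * wt m n * ∫ u in (a0 + m)..(a0 + m + 1), f u := by
    intro m
    rw [← intervalIntegral.integral_const_mul]
    apply intervalIntegral.integral_mono_on (by linarith) (hkc.intervalIntegrable _ _)
      ((continuous_const.mul hf).intervalIntegrable _ _)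
    intro u hu
    rw [mul_comm]
    apply mul_le_mul_of_nonneg_right _ (hf0 u)
    have h6 : |(m:ℝ) - n| ≤ |u - t| + 1 := by
      have h7 : |(m:ℝ) - n| ≤ |u - t| + |((m:ℝ) - n) - (u - t)| := by
        have := abs_add_le (u - t) (((m:ℝ) - n) - (u - t))
        rwa [add_sub_cancel] at this
      have h8 : |((m:ℝ) - n) - (u - t)| ≤ 1 := by
        rw [abs_le]
        constructor
        · linarith [hu.1, hu.2, ht.1, ht.2]
        · linarith [hu.1, hu.2, ht.1, ht.2]
      linarith
    have h9 : 1 + ((m:ℝ) - n) ^ 2 ≤ 4 * (1 + L * |u - t|) ^ 2 := by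
      have h10 : ((m:ℝ) - n) ^ 2 ≤ (|u - t| + 1) ^ 2 := by
        rw [← sq_abs]
        exact pow_le_pow_left₀ (abs_nonneg _) h6 2
      have h11 : 0 ≤ |u - t| := abs_nonneg _
      have h12 : |u - t| ≤ L * |u - t| := le_mul_of_one_le_left h11 hL
      nlinarith
    have h13 : L / (1 + L * |u - t|) ^ 2 ≤ 4 * L * wt m n := by
      unfold wt
      rw [mul_one_div, div_le_div_iff₀ (by positivity) (by positivity)]
      have := mul_le_mul_of_nonneg_left h9 hL0.le
      linarith
    exact h13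
  have h6 : (∫ u in (t - 2 * L)..(t + 2 * L), f u * (L / (1 + L * |u - t|) ^ 2)) + 1 ≤
      4 * L * ∑ m ∈ Finset.range N, wt m n * ((∫ u in (a0 + m)..(a0 + m + 1), f u) + 1) := by
    have h7 : (1:ℝ) ≤ ∑ m ∈ Finset.range N, 4 * L * wt m n := by
      calc (1:ℝ) ≤ 4 * L * wt n n := by rw [wt_self]; linarith
        _ ≤ _ := Finset.single_le_sum (f := fun m => 4 * L * wt m n)
            (fun m _ => mul_nonneg (by positivity) (wt_pos m n).le) (Finset.mem_range.2 hn)
    calc _ ≤ (∑ m ∈ Finset.range N, 4 * L * wt m n * ∫ u in (a0 + m)..(a0 + m + 1), f u) +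
          ∑ m ∈ Finset.range N, 4 * L * wt m n := by
          refine add_le_add (h3.trans ?_) h7
          rw [h4]
          exact Finset.sum_le_sum fun m _ => h5 m
      _ = _ := by
          rw [← Finset.sum_add_distrib, Finset.mul_sum]
          refine Finset.sum_congr rfl fun m _ => ?_
          ring
  calc f t ≤ C * ((∫ u in (t - 2 * L)..(t + 2 * L), f u * (L / (1 + L * |u - t|) ^ 2)) + 1) := hloc
    _ ≤ C * (4 * L * ∑ m ∈ Finset.range N, wt m n * ((∫ u in (a0 + m)..(a0 + m + 1), f u) + 1)) :=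
        mul_le_mul_of_nonneg_left h6 hC
    _ = _ := by ring

end Pool.Agent.Helper156_EK
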