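import Pool.Agent.Helper156_EK.Abs
import Pool.Agent.Helper156_EK.Disc

set_option autoImplicit false

/-!
# From a higher moment to the powers of `|E|`
-/

open MeasureTheory Set Filter

namespace Pool.Agent.Helper156_EK

theorem core {E f : ℝ → ℝ} {a b a0 Λ L C q : ℝ} {N N0 : ℕ} (hab : a ≤ b) (ha : a ≤ a0) (hb : a0 + N ≤ b)
    (hq : 0 < q) (hΛ : 1 ≤ Λ) (hE : ∀ t ∈ Icc a b, ∃ e, HasDerivAt E e t ∧ f t - Λ ≤ e) (hf : Continuous f)
    (hf0 : ∀ t, 0 ≤ f t) (hL : 1 ≤ L) (hC : 0 < C) (hN : 2 * N0 ≤ N) (hN0 : 2 * L ≤ N0)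
    (hloc : ∀ t, a0 + N0 ≤ t → t ≤ a0 + N - N0 →
      f t ≤ C * ((∫ u in (t - 2 * L)..(t + 2 * L), f u * (L / (1 + L * |u - t|) ^ 2)) + 1)) :
    ∫ t in (a0 + N0)..(a0 + N - N0), f t ^ (q + 1) ≤
      (4 * C * L) ^ q * (8 ^ (q + 1) * (2 ^ (q + 1) * (4 * 16 ^ q) *
        (Λ * (∫ t in a..b, |E t| ^ q) + (|E b| ^ (q + 1) + |E a| ^ (q + 1))) + N * (3 * Λ) ^ (q + 1))) := by
  set J : ℕ → ℝ := fun m => ∫ u in (a0 + m)..(a0 + m + 1), f u with hJ
  have hJ0 : ∀ m, 0 ≤ J m := fun m => intervalIntegral.integral_nonneg (by linarith) fun u _ => hf0 u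
  set A : ℕ → ℝ := fun n => ∑ m ∈ Finset.range N, wt m n * (J m + 1) with hA
  have hA0 : ∀ n, 0 ≤ A n := fun n => Finset.sum_nonneg fun m _ =>
    mul_nonneg (wt_pos m n).le (by linarith [hJ0 m])
  have hq1 : 0 < q + 1 := by linarith
  have hfr : Continuous fun t => f t ^ (q + 1) := hf.rpow_const fun _ => Or.inr hq1.le
  -- splitting into cells
  have h1 : ∫ t in (a0 + N0)..(a0 + N - N0), f t ^ (q + 1) =
      ∑ i ∈ Finset.range (N - 2 * N0), ∫ t in (a0 + (N0 + i : ℕ))..(a0 + (N0 + i : ℕ) + 1), f t ^ (q + 1) := by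
    have h2 := intervalIntegral.sum_integral_adjacent_intervals (f := fun t => f t ^ (q + 1)) (μ := volume)
      (a := fun i : ℕ => a0 + (N0 + i : ℕ)) (n := N - 2 * N0) (fun n _ => hfr.intervalIntegrable _ _)
    simp only [add_zero] at h2
    have e : a0 + ((N0 + (N - 2 * N0) : ℕ) : ℝ) = a0 + N - N0 := by
      have : N0 + (N - 2 * N0) = N - N0 := by omega
      rw [this, Nat.cast_sub (by omega)]
      ring
    rw [e] at h2
    rw [← h2]
    refine Finset.sum_congr rfl fun i _ => ?_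
    congr 1
    push_cast
    ring
  -- one cell
  have h2 : ∀ i ∈ Finset.range (N - 2 * N0),
      ∫ t in (a0 + (N0 + i : ℕ))..(a0 + (N0 + i : ℕ) + 1), f t ^ (q + 1) ≤
        (4 * C * L) ^ q * A (N0 + i) ^ (q + 1) := by
    intro i hi
    rw [Finset.mem_range] at hi
    set n := N0 + i with hn
    have hnN : n < N := by omega
    have hn1 : ((n : ℕ) : ℝ) + 1 ≤ N - N0 := by
      have : n + 1 ≤ N - N0 := by omega
      have h3 : ((n + 1 : ℕ) : ℝ) ≤ ((N - N0 : ℕ) : ℝ) := by exact_mod_cast this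
      rw [Nat.cast_sub (by omega)] at h3
      push_cast at h3
      exact h3
    have hn0 : (N0 : ℝ) ≤ n := by
      have : N0 ≤ n := by omega
      exact_mod_cast this
    have hpt : ∀ t ∈ Icc (a0 + n) (a0 + n + 1), f t ≤ 4 * C * L * A n := by
      intro t ht
      refine loc_cells hf hf0 hL hC.le hnN ht (by linarith [ht.1]) (by linarith [ht.2]) ?_
      exact hloc t (by linarith [ht.1]) (by linarith [ht.2])
    have hCL : 0 ≤ 4 * C * L := by positivity
    calc ∫ t in (a0 + n)..(a0 + n + 1), f t ^ (q + 1)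
        ≤ ∫ t in (a0 + n)..(a0 + n + 1), (4 * C * L * A n) ^ q * f t := by
          apply intervalIntegral.integral_mono_on (by linarith) (hfr.intervalIntegrable _ _)
            ((continuous_const.mul hf).intervalIntegrable _ _)
          intro t ht
          change f t ^ (q + 1) ≤ (4 * C * L * A n) ^ q * f t
          rcases (hf0 t).eq_or_lt with h0 | h0
          · rw [← h0, Real.zero_rpow hq1.ne', mul_zero]
          · rw [Real.rpow_add h0, Real.rpow_one]
            exact mul_le_mul_of_nonneg_right (Real.rpow_le_rpow (hf0 t) (hpt t ht) hq.le) (hf0 t)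
      _ = (4 * C * L * A n) ^ q * J n := by
          rw [intervalIntegral.integral_const_mul]
      _ ≤ (4 * C * L * A n) ^ q * A n := by
          apply mul_le_mul_of_nonneg_left _ (Real.rpow_nonneg (mul_nonneg hCL (hA0 n)) _)
          calc J n ≤ wt n n * (J n + 1) := by rw [wt_self]; linarith
            _ ≤ A n := Finset.single_le_sum (f := fun m => wt m n * (J m + 1))
              (fun m _ => mul_nonneg (wt_pos m n).le (by linarith [hJ0 m])) (Finset.mem_range.2 hnN)
      _ = (4 * C * L) ^ q * A n ^ (q + 1) := by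
          rw [Real.mul_rpow hCL (hA0 n), mul_assoc]
          congr 1
          rcases (hA0 n).eq_or_lt with h0 | h0
          · rw [← h0, mul_zero, Real.zero_rpow hq1.ne']
          · rw [Real.rpow_add h0, Real.rpow_one]
  have hCLq : 0 ≤ (4 * C * L) ^ q := by positivity
  -- sum over the cells
  have h3 : ∑ i ∈ Finset.range (N - 2 * N0), A (N0 + i) ^ (q + 1) ≤ ∑ n ∈ Finset.range N, A n ^ (q + 1) := by
    have h4 : ∑ i ∈ Finset.range (N - 2 * N0), A (N0 + i) ^ (q + 1) =
        ∑ n ∈ (Finset.range (N - 2 * N0)).map (addLeftEmbedding N0), A n ^ (q + 1) := by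
      rw [Finset.sum_map]
      rfl
    rw [h4]
    apply Finset.sum_le_sum_of_subset_of_nonneg
    · intro n hn
      rw [Finset.mem_map] at hn
      obtain ⟨i, hi, rfl⟩ := hn
      rw [Finset.mem_range] at hi ⊢
      simp only [addLeftEmbedding_apply]
      omega
    · intro n _ _
      exact Real.rpow_nonneg (hA0 n) _
  have h4 : ∑ n ∈ Finset.range N, A n ^ (q + 1) ≤ 8 ^ (q + 1) * ∑ m ∈ Finset.range N, (J m + 1) ^ (q + 1) :=
    young (by linarith) (fun m => J m + 1) (fun m => by linarith [hJ0 m]) N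
  have h5 : ∑ m ∈ Finset.range N, (J m + 1) ^ (q + 1) ≤
      2 ^ (q + 1) * (∑ m ∈ Finset.range N, (if 2 * Λ ≤ J m then J m ^ (q + 1) else 0)) +
        N * (3 * Λ) ^ (q + 1) := by
    have h6 : ∀ m ∈ Finset.range N, (J m + 1) ^ (q + 1) ≤
        2 ^ (q + 1) * (if 2 * Λ ≤ J m then J m ^ (q + 1) else 0) + (3 * Λ) ^ (q + 1) := by
      intro m _
      have hp : 0 ≤ (3 * Λ) ^ (q + 1) := by positivity
      split_ifs with h
      · rw [← Real.mul_rpow (by norm_num) (hJ0 m)]
        have : (J m + 1) ^ (q + 1) ≤ (2 * J m) ^ (q + 1) :=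
          Real.rpow_le_rpow (by linarith [hJ0 m]) (by linarith) hq1.le
        linarith
      · rw [mul_zero, zero_add]
        exact Real.rpow_le_rpow (by linarith [hJ0 m]) (by linarith) hq1.le
    refine (Finset.sum_le_sum h6).trans (le_of_eq ?_)
    rw [Finset.sum_add_distrib, ← Finset.mul_sum, Finset.sum_const, Finset.card_range, nsmul_eq_mul]
  have h6 := pow_sum hab ha hb hq (by linarith) hE hf hf0
  have h7 : ∑ m ∈ Finset.range N, (if 2 * Λ ≤ J m then J m ^ (q + 1) else 0) ≤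
      4 * 16 ^ q * (Λ * (∫ t in a..b, |E t| ^ q) + (|E b| ^ (q + 1) + |E a| ^ (q + 1))) := by
    have e : (4 * 16 ^ q) * (1 / 4 * (1 / 16) ^ q) = (1:ℝ) := by
      rw [Real.div_rpow (by norm_num) (by norm_num), Real.one_rpow]
      field_simp
    have h8 := mul_le_mul_of_nonneg_left h6 (by positivity : (0:ℝ) ≤ 4 * 16 ^ q)
    rw [← mul_assoc, e, one_mul] at h8
    exact h8
  rw [h1]
  calc _ ≤ ∑ i ∈ Finset.range (N - 2 * N0), (4 * C * L) ^ q * A (N0 + i) ^ (q + 1) := Finset.sum_le_sum h2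
    _ = (4 * C * L) ^ q * ∑ i ∈ Finset.range (N - 2 * N0), A (N0 + i) ^ (q + 1) := by rw [Finset.mul_sum]
    _ ≤ (4 * C * L) ^ q * (8 ^ (q + 1) * ∑ m ∈ Finset.range N, (J m + 1) ^ (q + 1)) :=
        mul_le_mul_of_nonneg_left (h3.trans h4) hCLq
    _ ≤ _ := by
        apply mul_le_mul_of_nonneg_left _ hCLq
        apply mul_le_mul_of_nonneg_left _ (by positivity)
        refine h5.trans ?_
        have := mul_le_mul_of_nonneg_left h7 (by positivity : (0:ℝ) ≤ 2 ^ (q + 1))
        rw [mul_assoc]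
        linarith

end Pool.Agent.Helper156_EK
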