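import Pool.Agent.Helper156_EK.Abs
import Pool.Agent.Helper156_EK.Disc

set_option autoImplicit false

/-!
# From the mass of the large values to the measure of the set where `|E|` is large
-/

open MeasureTheory Set Filter

namespace Pool.Agent.Helper156_EK

theorem coreA {E f : ℝ → ℝ} {a b a0 Λ L C K : ℝ} {N N0 : ℕ} {S : Set ℝ} (hS : MeasurableSet S)
    (hab : a ≤ b) (ha : a ≤ a0) (hb : a0 + N ≤ b)
    (hΛ : 0 ≤ Λ) (hE : ∀ t ∈ Icc a b, ∃ e, HasDerivAt E e t ∧ f t - Λ ≤ e) (hf : Continuous f)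
    (hf0 : ∀ t, 0 ≤ f t) (hL : 1 ≤ L) (hC : 0 < C) (hN : 2 * N0 ≤ N) (hN0 : 2 * L ≤ N0)
    (hloc : ∀ t, a0 + N0 ≤ t → t ≤ a0 + N - N0 →
      f t ≤ C * ((∫ u in (t - 2 * L)..(t + 2 * L), f u * (L / (1 + L * |u - t|) ^ 2)) + 1))
    (hV : ∀ t ∈ S, 36 * C * L * K ≤ f t) (hK : 4 * (1 + Λ) ≤ K) (hEa : |E a| ≤ K / 16)
    (hEb : |E b| ≤ K / 16) :
    ∫ t in (a0 + N0)..(a0 + N - N0), S.indicator f t ≤
      16 * Λ * volume.real {t ∈ Icc a b | K / 16 < |E t|} := by
  have hKpos : 0 < K := by linarith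
  set J : ℕ → ℝ := fun m => ∫ u in (a0 + m)..(a0 + m + 1), f u with hJ
  have hJ0 : ∀ m, 0 ≤ J m := fun m => intervalIntegral.integral_nonneg (by linarith) fun u _ => hf0 u
  have hFi : ∀ x y : ℝ, IntervalIntegrable (S.indicator f) volume x y := by
    intro x y
    rw [intervalIntegrable_iff]
    exact ((hf.intervalIntegrable x y).def').indicator hS
  have hF0 : ∀ t, 0 ≤ S.indicator f t := fun t => indicator_nonneg (fun t _ => hf0 t) t
  have hFf : ∀ t, S.indicator f t ≤ f t := fun t => indicator_le_self' (fun t _ => hf0 t) t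
  -- splitting into cells
  have h1 : ∫ t in (a0 + N0)..(a0 + N - N0), S.indicator f t =
      ∑ n ∈ Finset.Ico N0 (N - N0), ∫ t in (a0 + n)..(a0 + n + 1), S.indicator f t := by
    have h2 := intervalIntegral.sum_integral_adjacent_intervals_Ico (f := S.indicator f) (μ := volume)
      (a := fun i : ℕ => a0 + (i : ℝ)) (m := N0) (n := N - N0) (by omega) (fun n _ => hFi _ _)
    rw [Nat.cast_sub (by omega), ← add_sub_assoc] at h2
    rw [← h2]
    refine Finset.sum_congr rfl fun i _ => ?_
    congr 1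
    push_cast
    ring
  have h2 := peaks (N := N) (Finset.Ico N0 (N - N0)) (fun n hn => by
      rw [Finset.mem_Ico] at hn
      rw [Finset.mem_range]
      omega) (fun m => J m + 1) (fun n => ∫ t in (a0 + n)..(a0 + n + 1), S.indicator f t)
    (fun m => by linarith [hJ0 m]) (K := K) (fun n _ => by
      have : ∫ t in (a0 + n)..(a0 + n + 1), S.indicator f t ≤ J n :=
        intervalIntegral.integral_mono_on (by linarith) (hFi _ _) (hf.intervalIntegrable _ _) fun t _ => hFf t
      linarith) (fun n hn hpos => by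
      rw [Finset.mem_Ico] at hn
      have hn1 : ((n : ℕ) : ℝ) + 1 ≤ N - N0 := by
        have : n + 1 ≤ N - N0 := by omega
        have h3 : ((n + 1 : ℕ) : ℝ) ≤ ((N - N0 : ℕ) : ℝ) := by exact_mod_cast this
        rw [Nat.cast_sub (by omega)] at h3
        push_cast at h3
        exact h3
      have hn0 : (N0 : ℝ) ≤ n := by exact_mod_cast hn.1
      -- there is a point of `S` in the cell
      obtain ⟨t, ht, htS⟩ : ∃ t ∈ Icc (a0 + (n:ℝ)) (a0 + n + 1), t ∈ S := by
        by_contra hcon
        push Not at hcon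
        have h4 : ∫ t in (a0 + (n:ℝ))..(a0 + n + 1), S.indicator f t = ∫ _t in (a0 + (n:ℝ))..(a0 + n + 1), (0:ℝ) := by
          refine intervalIntegral.integral_congr fun t ht => ?_
          rw [uIcc_of_le (by linarith)] at ht
          exact indicator_of_notMem (hcon t ht) f
        rw [h4] at hpos
        simp at hpos
      have h5 := loc_cells hf hf0 hL hC.le (by omega : n < N) ht (by linarith [ht.1]) (by linarith [ht.2])
        (hloc t (by linarith [ht.1]) (by linarith [ht.2]))
      have h6 := (hV t htS).trans h5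
      have h7 : 0 < 4 * C * L := by positivity
      have h8 : 4 * C * L * (9 * K) ≤ 4 * C * L * ∑ m ∈ Finset.range N, wt m n * (J m + 1) := by
        have e : 36 * C * L * K = 4 * C * L * (9 * K) := by ring
        rw [← e]
        exact h6
      exact le_of_mul_le_mul_left h8 h7)
  have hδ : 0 < K / 16 := by positivity
  have h3 := far_measure hab ha hb hδ hΛ hE hf hf0 hEa hEb
  have h4 : ∑ m ∈ Finset.range N, (if K ≤ J m + 1 then J m + 1 else 0) ≤
      2 * ∑ n ∈ Finset.range N, max 0 ((∫ t in (a0 + n)..(a0 + n + 1), f t) - Λ - 4 * (K / 16)) := by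
    rw [Finset.mul_sum]
    refine Finset.sum_le_sum fun m _ => ?_
    split_ifs with h
    · have h5 : J m - Λ - 4 * (K / 16) ≤ max 0 (J m - Λ - 4 * (K / 16)) := le_max_right _ _
      change J m + 1 ≤ 2 * max 0 (J m - Λ - 4 * (K / 16))
      linarith
    · exact mul_nonneg (by norm_num) (le_max_left _ _)
  rw [h1]
  linarith

end Pool.Agent.Helper156_EK
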