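import Pool.Agent.Helper156_EK.Abs
import Pool.Agent.Helper156_EK.Disc

set_option autoImplicit false

/-!
# The measure of the set where `E` is near a given value
-/

open MeasureTheory Set Filter

namespace Pool.Agent.Helper156_EK

theorem coreB {E z : ℝ → ℝ} {a0 Λ m L C δ : ℝ} {k N N0 : ℕ} (hk : 3 ≤ k)
    (hz : Continuous z) (hz0 : ∀ t, 0 ≤ z t) (hΛ : 0 ≤ Λ) (hδ : 0 < δ)
    (hE : ∀ t ∈ Icc (a0 + N0) (a0 + N - N0), ∃ e, HasDerivAt E e t ∧ z t ^ (2 * k) - Λ ≤ e ∧ e ≤ z t ^ (2 * k) - m)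
    (hL : 1 ≤ L) (hC : 0 < C) (hN : 2 * N0 ≤ N) (hN0 : 2 * L ≤ N0)
    (hloc : ∀ t, a0 + N0 ≤ t → t ≤ a0 + N - N0 →
      z t ^ 4 ≤ C * ((∫ u in (t - 2 * L)..(t + 2 * L), z u ^ 4 * (L / (1 + L * |u - t|) ^ 2)) + 1)) (y : ℝ) :
    m * (∫ t in (a0 + N0)..(a0 + N - N0), chi δ (E t - y)) ≤
      (4 * C * L * (Λ + 4 * δ)) ^ (1 - 2 / (k:ℝ)) * (8 * ((∫ t in a0..(a0 + N), z t ^ 4) + N)) + 4 * δ := by
  have hk3 : (3:ℝ) ≤ k := by exact_mod_cast hk
  have hk0 : (0:ℝ) < k := by linarith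
  obtain ⟨θ, hθ⟩ : ∃ θ : ℝ, θ = 2 / (k:ℝ) := ⟨_, rfl⟩
  have hθ0 : 0 < θ := by rw [hθ]; positivity
  have hθ1 : θ < 1 := by rw [hθ, div_lt_one hk0]; linarith
  rw [← hθ]
  set K : ℕ → ℝ := fun m => ∫ u in (a0 + m)..(a0 + m + 1), z u ^ 4 with hK
  have hf4 : Continuous fun t => z t ^ 4 := hz.pow 4
  have hf : Continuous fun t => z t ^ (2 * k) := hz.pow _
  have hf40 : ∀ t, 0 ≤ z t ^ 4 := fun t => pow_nonneg (hz0 t) _
  have hf0 : ∀ t, 0 ≤ z t ^ (2 * k) := fun t => pow_nonneg (hz0 t) _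
  have hK0 : ∀ m, 0 ≤ K m := fun m => intervalIntegral.integral_nonneg (by linarith) fun u _ => hf40 u
  set A : ℕ → ℝ := fun n => ∑ m ∈ Finset.range N, wt m n * (K m + 1) with hA
  have hA0 : ∀ n, 0 ≤ A n := fun n => Finset.sum_nonneg fun m _ =>
    mul_nonneg (wt_pos m n).le (by linarith [hK0 m])
  have hN0' : (0:ℝ) ≤ N0 := N0.cast_nonneg
  have hNN : (2:ℝ) * N0 ≤ N := by exact_mod_cast hN
  have hab : a0 + (N0:ℝ) ≤ a0 + N - N0 := by linarith
  have hCL : 0 ≤ 4 * C * L := by positivity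
  have hΔ : 0 ≤ Λ + 4 * δ := by positivity
  -- the basic inequality
  have h1 := mass_ge (E := fun t => E t - y) (m := m) hab (fun t ht => by
    obtain ⟨e, h1, -, h2⟩ := hE t ht
    exact ⟨e, h1.sub_const y, h2⟩) hf (chi_cont δ) (chi_nonneg δ) (Xi_deriv δ)
  have h2 := Xi_diff hδ (E (a0 + N - N0) - y) (E (a0 + N0) - y)
  have hEc : ContinuousOn E (Icc (a0 + N0) (a0 + N - N0)) := fun t ht => by
    obtain ⟨e, he, -⟩ := hE t ht
    exact he.continuousAt.continuousWithinAt
  have hcont : ContinuousOn (fun t => chi δ (E t - y) * z t ^ (2 * k)) (Icc (a0 + N0) (a0 + N - N0)) :=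
    ((chi_cont δ).comp_continuousOn (hEc.sub continuousOn_const)).mul hf.continuousOn
  -- splitting into cells
  have h3 : ∫ t in (a0 + N0)..(a0 + N - N0), chi δ (E t - y) * z t ^ (2 * k) =
      ∑ n ∈ Finset.Ico N0 (N - N0), ∫ t in (a0 + n)..(a0 + n + 1), chi δ (E t - y) * z t ^ (2 * k) := by
    have h2 := intervalIntegral.sum_integral_adjacent_intervals_Ico
      (f := fun t => chi δ (E t - y) * z t ^ (2 * k)) (μ := volume)
      (a := fun i : ℕ => a0 + (i : ℝ)) (m := N0) (n := N - N0) (by omega) (fun n hn => by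
        apply ContinuousOn.intervalIntegrable
        rw [mem_Ico] at hn
        have hn1 : (N0:ℝ) ≤ n := by exact_mod_cast hn.1
        have hn2 : ((n + 1 : ℕ) : ℝ) ≤ ((N - N0 : ℕ) : ℝ) := by exact_mod_cast hn.2
        rw [Nat.cast_sub (by omega)] at hn2
        rw [uIcc_of_le (by push_cast; linarith)]
        exact hcont.mono (Icc_subset_Icc (by linarith) (by linarith)))
    rw [Nat.cast_sub (by omega), ← add_sub_assoc] at h2
    rw [← h2]
    refine Finset.sum_congr rfl fun i _ => ?_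
    congr 1
    push_cast
    ring
  -- one cell
  have h4 : ∀ n ∈ Finset.Ico N0 (N - N0), ∫ t in (a0 + n)..(a0 + n + 1), chi δ (E t - y) * z t ^ (2 * k) ≤
      (4 * C * L * (Λ + 4 * δ)) ^ (1 - θ) * A n := by
    intro n hn
    rw [Finset.mem_Ico] at hn
    have hn1 : ((n : ℕ) : ℝ) + 1 ≤ N - N0 := by
      have : n + 1 ≤ N - N0 := by omega
      have h3 : ((n + 1 : ℕ) : ℝ) ≤ ((N - N0 : ℕ) : ℝ) := by exact_mod_cast this
      rw [Nat.cast_sub (by omega)] at h3
      push_cast at h3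
      exact h3
    have hn0 : (N0 : ℝ) ≤ n := by exact_mod_cast hn.1
    have hnN : n < N := by omega
    obtain ⟨I, hI⟩ : ∃ I : ℝ, I = ∫ t in (a0 + n)..(a0 + n + 1), chi δ (E t - y) * z t ^ (2 * k) := ⟨_, rfl⟩
    obtain ⟨Jn, hJn⟩ : ∃ J : ℝ, J = ∫ t in (a0 + n)..(a0 + n + 1), z t ^ (2 * k) := ⟨_, rfl⟩
    have hI1 : I ≤ Λ + 4 * δ := by
      rw [hI]
      refine cell_near (f := fun t => z t ^ (2 * k)) hδ hΛ y (fun t ht => ?_) hf
      obtain ⟨e, h5, h6, -⟩ := hE t ⟨by linarith [ht.1], by linarith [ht.2]⟩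
      exact ⟨e, h5, h6⟩
    have hI0 : 0 ≤ I := by
      rw [hI]
      exact intervalIntegral.integral_nonneg (by linarith) fun t _ => mul_nonneg (chi_nonneg _ _) (hf0 t)
    have hI2 : I ≤ Jn := by
      rw [hI, hJn]
      apply intervalIntegral.integral_mono_on (by linarith)
      · apply ContinuousOn.intervalIntegrable
        rw [uIcc_of_le (by linarith)]
        exact hcont.mono (Icc_subset_Icc (by linarith) (by linarith))
      · exact hf.intervalIntegrable _ _
      · intro t _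
        exact mul_le_of_le_one_left (hf0 t) (chi_le_one _ _)
    have hpt : ∀ t ∈ Icc (a0 + (n:ℝ)) (a0 + n + 1), z t ^ 4 ≤ 4 * C * L * A n := by
      intro t ht
      exact loc_cells hf4 hf40 hL hC.le hnN ht (by linarith [ht.1]) (by linarith [ht.2])
        (hloc t (by linarith [ht.1]) (by linarith [ht.2]))
    have hJ : Jn ≤ (4 * C * L * A n) ^ ((k:ℝ) / 2 - 1) * A n := by
      have h5 : Jn ≤ ∫ t in (a0 + (n:ℝ))..(a0 + n + 1), (4 * C * L * A n) ^ ((k:ℝ) / 2 - 1) * z t ^ 4 := by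
        rw [hJn]
        apply intervalIntegral.integral_mono_on (by linarith) (hf.intervalIntegrable _ _)
          ((continuous_const.mul hf4).intervalIntegrable _ _)
        intro t ht
        change z t ^ (2 * k) ≤ (4 * C * L * A n) ^ ((k:ℝ) / 2 - 1) * z t ^ 4
        rcases (hz0 t).eq_or_lt with h0 | h0
        · rw [← h0, zero_pow (by omega : 2 * k ≠ 0)]
          simp
        · have e1 : z t ^ (2 * k) = (z t ^ 4) ^ ((k:ℝ) / 2 - 1) * z t ^ 4 := by
            rw [← Real.rpow_natCast (z t) 4, ← Real.rpow_mul h0.le, ← Real.rpow_add h0,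
              ← Real.rpow_natCast (z t) (2 * k)]
            congr 1
            push_cast
            ring
          rw [e1]
          apply mul_le_mul_of_nonneg_right _ (hf40 t)
          exact Real.rpow_le_rpow (hf40 t) (hpt t ht) (by linarith)
      refine h5.trans ?_
      rw [intervalIntegral.integral_const_mul]
      apply mul_le_mul_of_nonneg_left _ (Real.rpow_nonneg (mul_nonneg hCL (hA0 n)) _)
      calc K n ≤ wt n n * (K n + 1) := by rw [wt_self]; linarith
        _ ≤ A n := Finset.single_le_sum (f := fun m => wt m n * (K m + 1))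
          (fun m _ => mul_nonneg (wt_pos m n).le (by linarith [hK0 m])) (Finset.mem_range.2 hnN)
    have hJθ : I ^ θ ≤ (4 * C * L) ^ (1 - θ) * A n := by
      have h5 : (4 * C * L * A n) ^ ((k:ℝ) / 2 - 1) * A n = (4 * C * L) ^ ((k:ℝ) / 2 - 1) * A n ^ ((k:ℝ) / 2) := by
        rw [Real.mul_rpow hCL (hA0 n), mul_assoc]
        congr 1
        rcases (hA0 n).eq_or_lt with h0 | h0
        · rw [← h0, mul_zero, Real.zero_rpow (by positivity)]
        · have e1 : (k:ℝ) / 2 = ((k:ℝ) / 2 - 1) + 1 := by ring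
          conv_rhs => rw [e1, Real.rpow_add h0, Real.rpow_one]
      calc I ^ θ ≤ ((4 * C * L) ^ ((k:ℝ) / 2 - 1) * A n ^ ((k:ℝ) / 2)) ^ θ := by
            apply Real.rpow_le_rpow hI0 _ hθ0.le
            rw [← h5]
            exact hI2.trans hJ
        _ = (4 * C * L) ^ (1 - θ) * A n := by
            rw [Real.mul_rpow (Real.rpow_nonneg hCL _) (Real.rpow_nonneg (hA0 n) _), ← Real.rpow_mul hCL,
              ← Real.rpow_mul (hA0 n)]
            have e1 : ((k:ℝ) / 2 - 1) * θ = 1 - θ := by rw [hθ]; field_simp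
            have e2 : (k:ℝ) / 2 * θ = 1 := by rw [hθ]; field_simp
            rw [e1, e2, Real.rpow_one]
    rw [← hI]
    calc I = I ^ θ * I ^ (1 - θ) := by
          rcases hI0.eq_or_lt with h0 | h0
          · rw [← h0, Real.zero_rpow hθ0.ne', zero_mul]
          · rw [← Real.rpow_add h0]; simp
      _ ≤ ((4 * C * L) ^ (1 - θ) * A n) * (Λ + 4 * δ) ^ (1 - θ) := by
          apply mul_le_mul hJθ (Real.rpow_le_rpow hI0 hI1 (by linarith)) (Real.rpow_nonneg hI0 _)
          exact mul_nonneg (Real.rpow_nonneg hCL _) (hA0 n)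
      _ = _ := by
          rw [Real.mul_rpow hCL hΔ]; ring
  have h5 : ∑ n ∈ Finset.Ico N0 (N - N0), A n ≤ 8 * ∑ m ∈ Finset.range N, (K m + 1) := by
    calc ∑ n ∈ Finset.Ico N0 (N - N0), A n ≤ ∑ n ∈ Finset.range N, A n := by
          apply Finset.sum_le_sum_of_subset_of_nonneg
          · intro n hn
            rw [Finset.mem_Ico] at hn
            rw [Finset.mem_range]
            omega
          · intro n _ _
            exact hA0 n
      _ = ∑ m ∈ Finset.range N, (∑ n ∈ Finset.range N, wt m n) * (K m + 1) := by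
          rw [hA, Finset.sum_comm]
          simp_rw [Finset.sum_mul]
      _ ≤ ∑ m ∈ Finset.range N, 8 * (K m + 1) := by
          refine Finset.sum_le_sum fun m _ => mul_le_mul_of_nonneg_right ?_ (by linarith [hK0 m])
          simp_rw [wt_symm m]
          exact wt_sum m N
      _ = _ := by rw [Finset.mul_sum]
  have h6 : ∑ m ∈ Finset.range N, (K m + 1) = (∫ t in a0..(a0 + N), z t ^ 4) + N := by
    have h7 := intervalIntegral.sum_integral_adjacent_intervals (f := fun t => z t ^ 4) (μ := volume)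
      (a := fun i : ℕ => a0 + (i : ℝ)) (n := N) (fun n _ => hf4.intervalIntegrable _ _)
    simp only [Nat.cast_zero, add_zero] at h7
    rw [Finset.sum_add_distrib, Finset.sum_const, Finset.card_range, nsmul_eq_mul, mul_one, ← h7]
    congr 1
    refine Finset.sum_congr rfl fun i _ => ?_
    simp only [hK]
    congr 1
    push_cast
    ring
  have h7 : ∫ t in (a0 + N0)..(a0 + N - N0), chi δ (E t - y) * z t ^ (2 * k) ≤
      (4 * C * L * (Λ + 4 * δ)) ^ (1 - θ) * (8 * ((∫ t in a0..(a0 + N), z t ^ 4) + N)) := by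
    rw [h3]
    calc _ ≤ ∑ n ∈ Finset.Ico N0 (N - N0), (4 * C * L * (Λ + 4 * δ)) ^ (1 - θ) * A n := Finset.sum_le_sum h4
      _ = (4 * C * L * (Λ + 4 * δ)) ^ (1 - θ) * ∑ n ∈ Finset.Ico N0 (N - N0), A n := by rw [Finset.mul_sum]
      _ ≤ _ := by
          apply mul_le_mul_of_nonneg_left _ (Real.rpow_nonneg (mul_nonneg hCL hΔ) _)
          rw [← h6]
          exact h5
  linarith

/-- measure and cut-off function -/
theorem near_measure {E : ℝ → ℝ} {a b δ : ℝ} (hab : a ≤ b) (hδ : 0 < δ) (hE : ContinuousOn E (Icc a b)) (y : ℝ) :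
    volume.real {t ∈ Icc a b | |E t - y| ≤ δ} ≤ ∫ t in a..b, chi δ (E t - y) := by
  have hEm : MeasurableSet {t ∈ Icc a b | |E t - y| ≤ δ} := by
    have : {t ∈ Icc a b | |E t - y| ≤ δ} = Icc a b ∩ (fun t => |E t - y|) ⁻¹' Iic δ := by
      ext t; simp
    rw [this]
    exact ((hE.sub continuousOn_const).abs.preimage_isClosed_of_isClosed isClosed_Icc isClosed_Iic).measurableSet
  rw [intervalIntegral.integral_of_le hab, ← integral_Icc_eq_integral_Ioc]
  have e1 : volume.real {t ∈ Icc a b | |E t - y| ≤ δ} =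
      ∫ t in Icc a b, indicator {t ∈ Icc a b | |E t - y| ≤ δ} (fun _ => (1:ℝ)) t := by
    rw [setIntegral_indicator hEm, setIntegral_const, smul_eq_mul, mul_one]
    congr 1
    ext t; simp only [mem_ofPred_eq, mem_inter_iff]; tauto
  rw [e1]
  have hcc : ContinuousOn (fun t => chi δ (E t - y)) (Icc a b) :=
    (chi_cont δ).comp_continuousOn (hE.sub continuousOn_const)
  apply setIntegral_mono_on
  · apply Integrable.indicator _ hEm
    exact (integrableOn_const (by simp) (by simp))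
  · exact hcc.integrableOn_Icc
  · exact measurableSet_Icc
  · intro t ht
    by_cases h : |E t - y| ≤ δ
    · rw [indicator_of_mem (show t ∈ {t ∈ Icc a b | |E t - y| ≤ δ} from ⟨ht, h⟩), chi_eq_one hδ h]
    · rw [indicator_of_notMem (fun h' => h h'.2)]
      exact chi_nonneg _ _

end Pool.Agent.Helper156_EK
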