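import Pool.Agent.W924.MZ.LocC
import Pool.Agent.W721.MZ.Lip
import Pool.Agent.W32.MZ.Pow
import Pool.Agent.W903.GP.CO
import Pool.Agent.W61.MZ.Ker
import Pool.Agent.W858.MZ.Res2
import Pool.Agent.W32.GP.Tau
import Pool.Agent.W338.QS.Line
import Pool.Agent.W22.QS.Basic

set_option autoImplicit false

/-!
# The value of `|ζ|^p` at a point of the critical line is at most `log T` times a local mean
-/

open MeasureTheory Set Filter

namespace Pool.Agent.Helper156_EK

open Pool.Agent.W188.QS Pool.Agent.W188.GP Pool.Agent.W188.MZ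

theorem t_tau : StTau := Pool.Agent.W32.GPT.gp_tau
theorem t_line : StLine := Pool.Agent.W338.QS.qs_line
theorem t_co : StCo := Pool.Agent.W903.GP.CO.gp_co t_tau
theorem t_locc : StLocC := Pool.Agent.W924.MZ.mz_locc t_tau t_line Pool.Agent.W22.QS.qs_basic
  Pool.Agent.W61.MZ.mz_ker Pool.Agent.W858.MZ.mz_res2
theorem t_spc : StSpc := Pool.Agent.W721.MZ.mz_spc t_tau
theorem t_pow : StPow := Pool.Agent.W32.MZ.mz_pow t_spc t_tau

theorem ZZ_nonneg (t : ℝ) : 0 ≤ ZZ t := norm_nonneg _

theorem ZZ_cont : Continuous ZZ := by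
  unfold ZZ cp
  rw [continuous_iff_continuousAt]
  intro t
  have h1 : (1 / 2 + (t:ℂ) * Complex.I) ≠ 1 := by
    intro h
    have := congrArg Complex.re h
    simp at this
  have h2 := (differentiableAt_riemannZeta h1).continuousAt
  exact (ContinuousAt.comp (f := fun t : ℝ => 1 / 2 + (t:ℂ) * Complex.I) h2
    (by fun_prop : Continuous fun t : ℝ => 1 / 2 + (t:ℂ) * Complex.I).continuousAt).norm

theorem ZZp_cont {p : ℝ} (hp : 0 < p) : Continuous fun t : ℝ => ZZ t ^ p :=
  ZZ_cont.rpow_const fun _ => Or.inr hp.le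

theorem zloc {p : ℝ} (hp : 0 < p) : ∃ C T₀ : ℝ, 0 < C ∧ 1 ≤ T₀ ∧ ∀ T t : ℝ, T₀ ≤ T → T / 4 ≤ t → t ≤ 32 * T →
    ZZ t ^ p ≤ C * ((∫ u in (t - 2 * Real.log T)..(t + 2 * Real.log T),
      ZZ u ^ p * (Real.log T / (1 + Real.log T * |u - t|) ^ 2)) + 1) := by
  obtain ⟨m, hm2, hpm⟩ : ∃ m : ℕ, 2 ≤ m ∧ 2 ≤ p * m := by
    obtain ⟨m, hm⟩ := exists_nat_ge (2 / p)
    refine ⟨max m 2, le_max_right _ _, ?_⟩
    have h1 : 2 / p ≤ ((max m 2 : ℕ) : ℝ) := hm.trans (by exact_mod_cast le_max_left _ _)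
    rw [div_le_iff₀ hp] at h1
    linarith
  obtain ⟨C1, T1, hC1, h1⟩ := t_locc m (by omega)
  obtain ⟨C2, T2, hC2, h2⟩ := t_pow p m hp hm2 hpm
  obtain ⟨-, -, hlc, hl1, -, -, -, -, -, -, -, hlam, -⟩ := t_tau
  have hlog : ∀ᶠ T : ℝ in atTop, 2 * Real.log T + 100 ≤ T / 4 := by
    have h1 := (isLittleO_log_rpow_rpow_atTop 1 (by norm_num : (0 : ℝ) < 1)).bound
      (by norm_num : (0 : ℝ) < 1 / 16)
    filter_upwards [h1, eventually_ge_atTop 800] with T h2 h3
    rw [Real.rpow_one, Real.rpow_one, Real.norm_of_nonneg (Real.log_nonneg (by linarith)),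
      Real.norm_of_nonneg (by linarith)] at h2
    linarith
  obtain ⟨T3, hT3⟩ := eventually_atTop.1 hlog
  set A := 2 ^ p * C1 ^ p * C2 with hA
  have hA0 : 0 < A := by positivity
  refine ⟨max (2 * A) (2 ^ p), max (max T1 T2) (max T3 100), by positivity,
    le_max_of_le_right (le_max_of_le_right (by norm_num)), fun T t hT ht1 ht2 => ?_⟩
  have hTT1 : T1 ≤ T := ((le_max_left _ _).trans (le_max_left _ _)).trans hT
  have hTT2 : T2 ≤ T := ((le_max_right _ _).trans (le_max_left _ _)).trans hT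
  have hTT3 := hT3 T (((le_max_left _ _).trans (le_max_right _ _)).trans hT)
  have hT100 : 100 ≤ T := ((le_max_right _ _).trans (le_max_right _ _)).trans hT
  set L := Real.log T with hL
  have hL0 : 0 < L := Real.log_pos (by linarith)
  set g : ℝ → ℝ := fun u => ZZ u ^ p / (1 + L * |u - t|) ^ 2 with hg
  have hgc : Continuous g := (ZZp_cont hp).div (by fun_prop) (fun u => by positivity)
  have hg0 : ∀ u, 0 ≤ g u := fun u => div_nonneg (Real.rpow_nonneg (ZZ_nonneg u) _) (by positivity)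
  obtain ⟨hi1, hi2⟩ := t_co g (t - 2 * L) (t + 2 * L) hgc (by linarith) (by linarith)
  set G : ℝ → ℝ := fun γ => ∑ n ∈ nd γ (t - 2 * L) (t + 2 * L), g (tau (n + γ)) with hG
  have hWG : ∀ γ, Wg p γ T t t t = G γ := fun γ => rfl
  -- the pointwise inequality
  have key : ∀ γ : ℝ, ZZ t ^ p ≤ A * (G γ + G (γ + 1 / 2)) + 2 ^ p := by
    intro γ
    have h3 := h1 T γ t hTT1 ht1 ht2 (cp t) (by rw [sub_self, norm_zero]; positivity)
    have h4 := h2 T γ t t t hTT2 ht1 le_rfl le_rfl ht2
    have hS0 : 0 ≤ S2 m γ T t := by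
      unfold S2 Sg
      have h5 : ∀ γ' : ℝ, 0 ≤ ∑ n ∈ nd γ' (t - 2 * Real.log T) (t + 2 * Real.log T),
          ZZ (tau (n + γ')) / (1 + Real.log T * |tau (n + γ') - t|) ^ m := fun γ' =>
        Finset.sum_nonneg fun n _ => div_nonneg (ZZ_nonneg _) (by positivity)
      exact add_nonneg (h5 _) (h5 _)
    have hT12 : T ^ (-(1 / 2 : ℝ)) ≤ 1 := Real.rpow_le_one_of_one_le_of_nonpos (by linarith) (by norm_num)
    have h5 : ZZ t ≤ 2 * max (C1 * S2 m γ T t) 1 := by
      have := le_max_left (C1 * S2 m γ T t) 1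
      have := le_max_right (C1 * S2 m γ T t) 1
      unfold ZZ
      linarith
    calc ZZ t ^ p ≤ (2 * max (C1 * S2 m γ T t) 1) ^ p := Real.rpow_le_rpow (ZZ_nonneg t) h5 hp.le
      _ = 2 ^ p * (max (C1 * S2 m γ T t) 1) ^ p := Real.mul_rpow (by norm_num) (by positivity)
      _ ≤ 2 ^ p * ((C1 * S2 m γ T t) ^ p + 1) := by
          apply mul_le_mul_of_nonneg_left _ (by positivity)
          rcases le_total (C1 * S2 m γ T t) 1 with h | h
          · rw [max_eq_right h, Real.one_rpow]
            have : 0 ≤ (C1 * S2 m γ T t) ^ p := by positivity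
            linarith
          · rw [max_eq_left h]
            linarith
      _ = 2 ^ p * C1 ^ p * S2 m γ T t ^ p + 2 ^ p := by
          rw [Real.mul_rpow hC1.le hS0]; ring
      _ ≤ 2 ^ p * C1 ^ p * (C2 * W2 p γ T t t t) + 2 ^ p := by
          have := mul_le_mul_of_nonneg_left h4 (by positivity : 0 ≤ (2:ℝ) ^ p * C1 ^ p)
          linarith
      _ = A * (G γ + G (γ + 1 / 2)) + 2 ^ p := by
          unfold W2
          rw [hWG, hWG, hA]; ring
  -- integration over the phase
  have hi3 : IntervalIntegrable G volume 0 (1 / 2) :=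
    hi1.mono_set (by rw [uIcc_of_le (by norm_num), uIcc_of_le (by norm_num)]; exact Icc_subset_Icc le_rfl (by norm_num))
  have hi4 : IntervalIntegrable G volume (1 / 2) 1 :=
    hi1.mono_set (by rw [uIcc_of_le (by norm_num), uIcc_of_le (by norm_num)]; exact Icc_subset_Icc (by norm_num) le_rfl)
  have hi5 : IntervalIntegrable (fun γ => G (γ + 1 / 2)) volume 0 (1 / 2) := by
    have := hi4.comp_add_right (1 / 2)
    norm_num at this
    exact this
  have h6 : ∫ _γ in (0:ℝ)..(1 / 2), ZZ t ^ p ≤ ∫ γ in (0:ℝ)..(1 / 2), (A * (G γ + G (γ + 1 / 2)) + 2 ^ p) := by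
    apply intervalIntegral.integral_mono_on (by norm_num) (by simp)
    · exact ((hi3.add hi5).const_mul A).add (by simp)
    · intro γ _
      exact key γ
  have h7 : ∫ γ in (0:ℝ)..(1 / 2), (A * (G γ + G (γ + 1 / 2)) + 2 ^ p) =
      A * (∫ γ in (0:ℝ)..1, G γ) + 1 / 2 * 2 ^ p := by
    rw [intervalIntegral.integral_add ((hi3.add hi5).const_mul A) (by simp),
      intervalIntegral.integral_const_mul, intervalIntegral.integral_add hi3 hi5,
      intervalIntegral.integral_comp_add_right (fun γ => G γ) (1 / 2)]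
    norm_num
    left
    exact intervalIntegral.integral_add_adjacent_intervals hi3 hi4
  rw [h7, hi2] at h6
  simp only [intervalIntegral.integral_const, sub_zero, smul_eq_mul] at h6
  -- the weight
  have h8 : ∫ u in (t - 2 * L)..(t + 2 * L), g u * lamE u ≤
      2 * ∫ u in (t - 2 * L)..(t + 2 * L), ZZ u ^ p * (L / (1 + L * |u - t|) ^ 2) := by
    rw [← intervalIntegral.integral_const_mul]
    apply intervalIntegral.integral_mono_on (by linarith) ((hgc.mul hlc).intervalIntegrable _ _)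
    · apply Continuous.intervalIntegrable
      exact continuous_const.mul ((ZZp_cont hp).mul
        (continuous_const.div (by fun_prop) (fun u => by positivity)))
    · intro u hu
      have hu100 : 100 ≤ u := by linarith [hu.1]
      have h9 : lamE u ≤ 2 * L := by
        refine (hlam u hu100).2.trans ?_
        have h10 : u ≤ T * T := by nlinarith [hu.2]
        calc Real.log u ≤ Real.log (T * T) := Real.log_le_log (by linarith) h10
          _ = 2 * L := by rw [Real.log_mul (by linarith) (by linarith)]; ring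
      calc g u * lamE u ≤ g u * (2 * L) := mul_le_mul_of_nonneg_left h9 (hg0 u)
        _ = 2 * (ZZ u ^ p * (L / (1 + L * |u - t|) ^ 2)) := by
            simp only [hg]
            ring
  set W := ∫ u in (t - 2 * L)..(t + 2 * L), ZZ u ^ p * (L / (1 + L * |u - t|) ^ 2) with hW
  have hW0 : 0 ≤ W := by
    apply intervalIntegral.integral_nonneg (by linarith)
    intro u _
    exact mul_nonneg (Real.rpow_nonneg (ZZ_nonneg u) _) (by positivity)
  have hpi : 1 / (2 * Real.pi) ≤ 1 / 2 := by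
    apply one_div_le_one_div_of_le (by norm_num)
    linarith [Real.pi_gt_three]
  have h9 : 1 / (2 * Real.pi) * ∫ u in (t - 2 * L)..(t + 2 * L), g u * lamE u ≤ W := by
    calc 1 / (2 * Real.pi) * ∫ u in (t - 2 * L)..(t + 2 * L), g u * lamE u
        ≤ 1 / (2 * Real.pi) * (2 * W) := mul_le_mul_of_nonneg_left h8 (by positivity)
      _ ≤ 1 / 2 * (2 * W) := mul_le_mul_of_nonneg_right hpi (by positivity)
      _ = W := by ring
  have h10 := mul_le_mul_of_nonneg_left h9 hA0.le
  calc ZZ t ^ p ≤ 2 * A * W + 2 ^ p * 1 := by linarith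
    _ ≤ max (2 * A) (2 ^ p) * W + max (2 * A) (2 ^ p) * 1 := by
        apply add_le_add
        · exact mul_le_mul_of_nonneg_right (le_max_left _ _) hW0
        · exact mul_le_mul_of_nonneg_right (le_max_right _ _) zero_le_one
    _ = _ := by ring

end Pool.Agent.Helper156_EK
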