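import Pool.Agent.Helper156_EK.Core
import Pool.Agent.Helper156_EK.Loc
import Pool.Agent.W181.Mom.App4

set_option autoImplicit false

/-!
# Lower bounds for the mean values of `|I_k - M|^q` in short intervals
-/

open MeasureTheory Set Filter

namespace Pool.Agent.Helper156_EK

open Pool.Agent.W188.QS Pool.Agent.W188.GP

/-- the integrand -/
noncomputable def fk (k : ℕ) (t : ℝ) : ℝ := ‖riemannZeta (1 / 2 + t * Complex.I)‖ ^ (2 * k)

/-- the moment -/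
noncomputable def Ik (k : ℕ) (T : ℝ) : ℝ := ∫ t in (0:ℝ)..T, ‖riemannZeta (1 / 2 + t * Complex.I)‖ ^ (2 * k)

theorem fk_ZZ (k : ℕ) (t : ℝ) : fk k t = ZZ t ^ (2 * k) := rfl

theorem fk_cont (k : ℕ) : Continuous (fk k) := by
  have : fk k = fun t => ZZ t ^ (2 * k) := by funext t; rfl
  rw [this]
  exact ZZ_cont.pow _

theorem fk_nonneg (k : ℕ) (t : ℝ) : 0 ≤ fk k t := by unfold fk; positivity

theorem Ik_deriv (k : ℕ) (t : ℝ) : HasDerivAt (Ik k) (fk k t) t :=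
  intervalIntegral.integral_hasDerivAt_right ((fk_cont k).intervalIntegrable _ _)
    ((fk_cont k).stronglyMeasurableAtFilter _ _) (fk_cont k).continuousAt

theorem floc {k : ℕ} (hk : 1 ≤ k) : ∃ C T₀ : ℝ, 0 < C ∧ 1 ≤ T₀ ∧ ∀ T t : ℝ, T₀ ≤ T → T / 4 ≤ t → t ≤ 32 * T →
    fk k t ≤ C * ((∫ u in (t - 2 * Real.log T)..(t + 2 * Real.log T),
      fk k u * (Real.log T / (1 + Real.log T * |u - t|) ^ 2)) + 1) := by
  have hp : (0:ℝ) < ((2 * k : ℕ) : ℝ) := by
    have : 0 < 2 * k := by omega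
    exact_mod_cast this
  obtain ⟨C, T₀, hC, hT₀, h⟩ := zloc hp
  refine ⟨C, T₀, hC, hT₀, fun T t h1 h2 h3 => ?_⟩
  have h4 := h T t h1 h2 h3
  simp only [Real.rpow_natCast] at h4
  exact h4

/-- growth -/
theorem log_growth (A D : ℝ) : ∃ U₀ : ℝ, ∀ U : ℝ, U₀ ≤ U → D * Real.log U ^ A ≤ U := by
  have h1 := (isLittleO_log_rpow_rpow_atTop A (by norm_num : (0 : ℝ) < 1)).bound
    (by positivity : (0 : ℝ) < 1 / (|D| + 1))
  obtain ⟨U₀, hU₀⟩ := eventually_atTop.1 h1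
  refine ⟨max U₀ 1, fun U hU => ?_⟩
  have h2 := hU₀ U ((le_max_left _ _).trans hU)
  have hU1 : 1 ≤ U := (le_max_right _ _).trans hU
  have hl : 0 ≤ Real.log U ^ A := Real.rpow_nonneg (Real.log_nonneg hU1) _
  rw [Real.rpow_one, Real.norm_of_nonneg hl, Real.norm_of_nonneg (by linarith : 0 ≤ U)] at h2
  have hD : 0 < |D| + 1 := by positivity
  calc D * Real.log U ^ A ≤ (|D| + 1) * Real.log U ^ A :=
        mul_le_mul_of_nonneg_right (by linarith [le_abs_self D]) hl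
    _ ≤ (|D| + 1) * (1 / (|D| + 1) * U) := mul_le_mul_of_nonneg_left h2 hD.le
    _ = U := by field_simp

/-- a point where `|E|^q` is at most the mean value -/
theorem exists_small {g : ℝ → ℝ} {a b Q : ℝ} (hab : a < b) (hg : ContinuousOn g (Icc a b))
    (h : ∫ t in a..b, g t < Q * (b - a)) : ∃ t ∈ Icc a b, g t ≤ Q := by
  by_contra hcon
  push Not at hcon
  have h1 : ∫ _t in a..b, Q ≤ ∫ t in a..b, g t := by
    apply intervalIntegral.integral_mono_on hab.le (by simp)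
    · apply ContinuousOn.intervalIntegrable
      rwa [uIcc_of_le hab.le]
    · intro t ht
      exact (hcon t ht).le
  simp only [intervalIntegral.integral_const, smul_eq_mul] at h1
  linarith

theorem mainC (k : ℕ) (hk : 1 ≤ k) (q C : ℝ) (hq : 0 < q) (hC : 0 < C) :
    ∃ K c : ℝ, 0 < K ∧ 0 < c ∧ ∀ᶠ T : ℝ in atTop, ∀ U : ℝ, 1 ≤ U → U ≤ T →
      K * Real.log T ^ ((k:ℝ) ^ 2 * (q + 1) + q) ≤ Real.log U ^ ((k:ℝ) ^ 2 * (q + 1) ^ 2) →
      ∀ M : ℝ → ℝ, (∀ t ∈ Icc T (T + U), DifferentiableAt ℝ M t ∧ deriv M t ≤ C * Real.log T ^ (k ^ 2)) →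
        c * Real.log U ^ ((k:ℝ) ^ 2 * (q + 1) ^ 2) / Real.log T ^ ((k:ℝ) ^ 2 + q) ≤
          1 / U * ∫ t in T..(T + U), |Ik k t - M t| ^ q := by
  have hk1 : (1:ℝ) ≤ k := by exact_mod_cast hk
  have hk0 : (0:ℝ) < k := by linarith
  obtain ⟨C0, T0, hC0, hT01, hz⟩ := floc hk
  obtain ⟨κ, hκ⟩ : ∃ κ : ℝ, κ = k * (q + 1) := ⟨_, rfl⟩
  have hκ1 : 1 ≤ κ := by rw [hκ]; nlinarith
  have hκ0 : 0 < κ := by linarith
  obtain ⟨c0, K0, hc0, hK01, hu⟩ := Pool.Agent.W181.Mom.uniform_real 1 one_pos (by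
    rw [lt_div_iff₀ (Real.exp_pos 1)]
    have := Real.exp_one_lt_d9
    linarith)
  obtain ⟨B, hB, hwin⟩ := hu κ hκ1 c0 (Or.inl le_rfl)
  obtain ⟨c1, hc1d⟩ : ∃ c1 : ℝ, c1 = Pool.Agent.H306R2.aF κ * (c0 * (1 ^ (κ ^ 2) / Real.Gamma (κ ^ 2 + 1))) :=
    ⟨_, rfl⟩
  have hc1 : 0 < c1 := by
    have h1 := Pool.Agent.H306R2.aF_pos hκ0
    have h2 : 0 < Real.Gamma (κ ^ 2 + 1) := Real.Gamma_pos_of_pos (by positivity)
    rw [hc1d]
    positivity
  rw [← hc1d] at hwin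
  obtain ⟨T1, hT1⟩ := eventually_atTop.1 hwin
  -- exponents
  obtain ⟨e1, he1⟩ : ∃ e1 : ℝ, e1 = (k:ℝ) ^ 2 * (q + 1) + q := ⟨_, rfl⟩
  obtain ⟨e2, he2⟩ : ∃ e2 : ℝ, e2 = (k:ℝ) ^ 2 * (q + 1) ^ 2 := ⟨_, rfl⟩
  have he1p : 0 < e1 := by rw [he1]; positivity
  have he2p : 0 < e2 := by rw [he2]; positivity
  have hκe : κ ^ 2 = e2 := by rw [hκ, he2]; ring
  obtain ⟨ρ, hρ⟩ : ∃ ρ : ℝ, ρ = e2 / e1 := ⟨_, rfl⟩
  have hρ0 : 0 < ρ := by rw [hρ]; positivity
  -- constants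
  obtain ⟨G, hG⟩ : ∃ G : ℝ, G = (4 * C0) ^ q * 8 ^ (q + 1) := ⟨_, rfl⟩
  obtain ⟨H, hH⟩ : ∃ H : ℝ, H = 2 ^ (q + 1) * (4 * 16 ^ q) := ⟨_, rfl⟩
  have hG0 : 0 < G := by rw [hG]; positivity
  have hH0 : 0 < H := by rw [hH]; positivity
  obtain ⟨w, hw⟩ : ∃ w : ℝ, w = c1 * (1 / 2 * (1 / 2) ^ e2) := ⟨_, rfl⟩
  have hw0 : 0 < w := by rw [hw]; positivity
  obtain ⟨K, hK⟩ : ∃ K : ℝ, K = max 1 (8 * G * (3 * C) ^ (q + 1) / w) := ⟨_, rfl⟩
  have hK1 : 1 ≤ K := by rw [hK]; exact le_max_left _ _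
  have hKw : 8 * G * (3 * C) ^ (q + 1) / w ≤ K := by rw [hK]; exact le_max_right _ _
  obtain ⟨c, hc⟩ : ∃ c : ℝ, c = min (1 / 8) (w / (8 * G * H * C)) := ⟨_, rfl⟩
  have hcp : 0 < c := by rw [hc]; positivity
  have hc8 : c ≤ 1 / 8 := by rw [hc]; exact min_le_left _ _
  have hcw : c ≤ w / (8 * G * H * C) := by rw [hc]; exact min_le_right _ _
  -- growth conditions
  obtain ⟨U1, hU1⟩ := log_growth ρ 32
  obtain ⟨U2, hU2⟩ := log_growth (ρ * B) (2 * 2 ^ B)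
  obtain ⟨U3, hU3⟩ := log_growth (ρ * q + e2 * ((q + 1) / q)) (16 * G * H / w)
  obtain ⟨U0, hU0d⟩ : ∃ U0 : ℝ, U0 = max (max U1 U2) (max U3 100) := ⟨_, rfl⟩
  have hU0_1 : U1 ≤ U0 := by rw [hU0d]; exact (le_max_left _ _).trans (le_max_left _ _)
  have hU0_2 : U2 ≤ U0 := by rw [hU0d]; exact (le_max_right _ _).trans (le_max_left _ _)
  have hU0_3 : U3 ≤ U0 := by rw [hU0d]; exact (le_max_left _ _).trans (le_max_right _ _)
  have hU0_4 : 100 ≤ U0 := by rw [hU0d]; exact (le_max_right _ _).trans (le_max_right _ _)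
  -- large T
  have hLarge : ∀ᶠ T : ℝ in atTop, Real.log U0 ^ e2 < Real.log T ^ e1 := by
    have h1 : Tendsto (fun T : ℝ => Real.log T ^ e1) atTop atTop :=
      (tendsto_rpow_atTop he1p).comp Real.tendsto_log_atTop
    exact h1.eventually_gt_atTop _
  have hΛev : ∀ᶠ T : ℝ in atTop, 1 ≤ C * Real.log T ^ (k ^ 2) := by
    have h1 : Tendsto (fun T : ℝ => C * Real.log T ^ (k ^ 2)) atTop atTop :=
      ((tendsto_pow_atTop (by positivity : k ^ 2 ≠ 0)).comp Real.tendsto_log_atTop).const_mul_atTop hC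
    exact h1.eventually_ge_atTop 1
  refine ⟨K, c, by linarith, hcp, ?_⟩
  filter_upwards [hLarge, hΛev, eventually_ge_atTop T0, eventually_ge_atTop T1, eventually_ge_atTop 100]
    with T hLT hΛ1 hTT0 hTT1 hT100 U hU1' hUT hcond M hM
  rw [← he1, ← he2] at hcond
  rw [← he2]
  obtain ⟨L, hL⟩ : ∃ L : ℝ, L = Real.log T := ⟨_, rfl⟩
  rw [← hL] at hLT hΛ1 hcond hM ⊢
  have hL2 : 2 ≤ L := by
    rw [hL, Real.le_log_iff_exp_le (by linarith)]
    have h1 : Real.exp 2 = Real.exp 1 * Real.exp 1 := by rw [← Real.exp_add]; norm_num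
    have := Real.exp_one_lt_d9
    have := Real.exp_pos 1
    rw [h1]; nlinarith
  have hL0 : 0 < L := by linarith
  obtain ⟨X, hX⟩ : ∃ X : ℝ, X = Real.log U := ⟨_, rfl⟩
  rw [← hX] at hcond ⊢
  have hX0 : 0 ≤ X := by rw [hX]; exact Real.log_nonneg hU1'
  have hL1e : L ^ e1 ≤ X ^ e2 := by
    refine le_trans ?_ hcond
    exact le_mul_of_one_le_left (Real.rpow_nonneg hL0.le _) hK1
  -- U is large
  have hUU0 : U0 ≤ U := by
    by_contra hcon
    push Not at hcon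
    have h1 : X ≤ Real.log U0 := by rw [hX]; exact Real.log_le_log (by linarith) hcon.le
    have h2 : X ^ e2 ≤ Real.log U0 ^ e2 := Real.rpow_le_rpow hX0 h1 he2p.le
    linarith
  have hU100 : 100 ≤ U := hU0_4.trans hUU0
  have hX1 : 2 * Real.log 2 ≤ X := by
    rw [hX, ← Real.log_rpow (by norm_num)]
    apply Real.log_le_log (by positivity)
    norm_num
    linarith
  have hlog2 : 0 < Real.log 2 := Real.log_pos (by norm_num)
  have hXpos : 0 < X := by linarith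
  have hX4 : 4 ≤ X := by
    rw [hX, Real.le_log_iff_exp_le (by linarith)]
    have h1 : Real.exp 4 = (Real.exp 1) ^ 4 := by rw [← Real.exp_nat_mul]; norm_num
    have h2 : Real.exp 1 < 3 := by
      have := Real.exp_one_lt_d9
      linarith
    have h3 : (Real.exp 1) ^ 4 ≤ 3 ^ 4 := pow_le_pow_left₀ (Real.exp_pos 1).le h2.le 4
    rw [h1]; norm_num at h3; linarith
  have hLX : L ≤ X ^ ρ := by
    have h1 := Real.rpow_le_rpow (Real.rpow_nonneg hL0.le _) hL1e (by positivity : 0 ≤ 1 / e1)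
    rw [← Real.rpow_mul hL0.le, ← Real.rpow_mul hX0, mul_one_div_cancel he1p.ne', Real.rpow_one,
      mul_one_div, ← hρ] at h1
    exact h1
  have g1 : 32 * L ≤ U := by
    have := hU1 U (hU0_1.trans hUU0)
    rw [← hX] at this
    linarith
  have g2 : 2 * (2 * L) ^ B ≤ U := by
    have := hU2 U (hU0_2.trans hUU0)
    rw [← hX] at this
    calc 2 * (2 * L) ^ B ≤ 2 * (2 * X ^ ρ) ^ B := by
          apply mul_le_mul_of_nonneg_left _ (by norm_num)
          exact Real.rpow_le_rpow (by positivity) (by linarith) hB.le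
      _ = 2 * 2 ^ B * X ^ (ρ * B) := by
          rw [Real.mul_rpow (by norm_num) (Real.rpow_nonneg hX0 _), ← Real.rpow_mul hX0]; ring
      _ ≤ U := this
  have g3 : 16 * G * H / w * X ^ (ρ * q + e2 * ((q + 1) / q)) ≤ U := by
    have := hU3 U (hU0_3.trans hUU0)
    rwa [← hX] at this
  -- contradiction
  by_contra hcon
  push Not at hcon
  obtain ⟨E, hE⟩ : ∃ E : ℝ → ℝ, E = fun t => Ik k t - M t := ⟨_, rfl⟩
  obtain ⟨Q, hQ⟩ : ∃ Q : ℝ, Q = c * X ^ e2 / L ^ ((k:ℝ) ^ 2 + q) := ⟨_, rfl⟩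
  have hQ0 : 0 < Q := by rw [hQ]; positivity
  have hU0' : 0 < U := by linarith
  have hint : ∫ t in T..(T + U), |E t| ^ q < Q * U := by
    rw [← hQ, one_div, inv_mul_lt_iff₀ hU0'] at hcon
    rw [hE]
    linarith
  obtain ⟨Λ, hΛd⟩ : ∃ Λ : ℝ, Λ = C * L ^ (k ^ 2) := ⟨_, rfl⟩
  rw [← hΛd] at hΛ1 hM
  have hEd : ∀ t ∈ Icc T (T + U), ∃ e, HasDerivAt E e t ∧ fk k t - Λ ≤ e := by
    intro t ht
    obtain ⟨h1, h2⟩ := hM t ht
    refine ⟨fk k t - deriv M t, ?_, by linarith⟩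
    rw [hE]
    exact (Ik_deriv k t).sub h1.hasDerivAt
  have hEc : ContinuousOn E (Icc T (T + U)) := fun t ht => by
    obtain ⟨e, he, -⟩ := hEd t ht
    exact he.continuousAt.continuousWithinAt
  have hEq : ContinuousOn (fun t => |E t| ^ q) (Icc T (T + U)) := hEc.abs.rpow_const fun _ _ => Or.inr hq.le
  have hsub : ∀ x y : ℝ, T ≤ x → x ≤ y → y ≤ T + U → ∫ t in x..y, |E t| ^ q ≤ ∫ t in T..(T + U), |E t| ^ q := by
    intro x y h1 h2 h3
    apply intervalIntegral.integral_mono_interval h1 h2 h3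
    · exact Filter.Eventually.of_forall fun t => Real.rpow_nonneg (abs_nonneg _) _
    · apply ContinuousOn.intervalIntegrable
      rwa [uIcc_of_le (by linarith)]
  obtain ⟨a, ha, hEa⟩ : ∃ t ∈ Icc T (T + U / 8), |E t| ^ q ≤ 8 * Q := by
    apply exists_small (by linarith) (hEq.mono (Icc_subset_Icc le_rfl (by linarith)))
    have := hsub T (T + U / 8) le_rfl (by linarith) (by linarith)
    have e : 8 * Q * (T + U / 8 - T) = Q * U := by ring
    rw [e]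
    linarith
  obtain ⟨b, hb, hEb⟩ : ∃ t ∈ Icc (T + 7 * U / 8) (T + U), |E t| ^ q ≤ 8 * Q := by
    apply exists_small (by linarith) (hEq.mono (Icc_subset_Icc (by linarith) le_rfl))
    have := hsub (T + 7 * U / 8) (T + U) (by linarith) (by linarith) le_rfl
    have e : 8 * Q * (T + U - (T + 7 * U / 8)) = Q * U := by ring
    rw [e]
    linarith
  -- the cells
  obtain ⟨a0, ha0⟩ : ∃ a0 : ℝ, a0 = T + U / 8 := ⟨_, rfl⟩
  obtain ⟨N, hN⟩ : ∃ N : ℕ, N = ⌊3 * U / 4⌋₊ := ⟨_, rfl⟩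
  obtain ⟨N0, hN0⟩ : ∃ N0 : ℕ, N0 = ⌈2 * L⌉₊ := ⟨_, rfl⟩
  have hN1 : (N:ℝ) ≤ 3 * U / 4 := by rw [hN]; exact Nat.floor_le (by positivity)
  have hN2 : 3 * U / 4 - 1 ≤ N := by rw [hN]; exact (Nat.sub_one_lt_floor _).le
  have hN01 : 2 * L ≤ N0 := by rw [hN0]; exact Nat.le_ceil _
  have hN02 : (N0:ℝ) ≤ 2 * L + 1 := by rw [hN0]; exact (Nat.ceil_lt_add_one (by positivity)).le
  have hNN : 2 * N0 ≤ N := by
    have : ((2 * N0 : ℕ) : ℝ) ≤ N := by push_cast; linarith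
    exact_mod_cast this
  have hab : a ≤ b := by linarith [ha.2, hb.1]
  have hcore := core (f := fk k) (L := L) (C := C0) (N := N) (N0 := N0) (a0 := a0) (q := q) hab
    (by rw [ha0]; exact ha.2) (by rw [ha0]; linarith [hb.1]) hq hΛ1
    (fun t ht => hEd t ⟨ha.1.trans ht.1, ht.2.trans hb.2⟩) (fk_cont k) (fk_nonneg k) (by linarith) hC0 hNN hN01
    (fun t h1 h2 => by
      have h3 := hz T t hTT0 (by rw [ha0] at h1; have : (0:ℝ) ≤ N0 := N0.cast_nonneg; linarith)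
        (by rw [ha0] at h2; have : (0:ℝ) ≤ N0 := N0.cast_nonneg; linarith)
      rw [← hL] at h3
      exact h3)
  -- the lower bound for the moment
  have hwin1 := hT1 (a0 + N0) (by rw [ha0]; have : (0:ℝ) ≤ N0 := N0.cast_nonneg; linarith) (N - 2 * N0) (by
    have h1 : Real.log (a0 + N0) ≤ 2 * L := by
      have h2 : a0 + N0 ≤ T * T := by rw [ha0]; nlinarith
      calc Real.log (a0 + N0) ≤ Real.log (T * T) := Real.log_le_log (by rw [ha0]; positivity) h2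
        _ = 2 * L := by rw [Real.log_mul (by linarith) (by linarith), hL]; ring
    have h3 : 0 ≤ Real.log (a0 + N0) := Real.log_nonneg (by
      rw [ha0]; have : (0:ℝ) ≤ N0 := N0.cast_nonneg; linarith)
    have h4 := Real.rpow_le_rpow h3 h1 hB.le
    linarith)
  have e3 : (a0 + N0 : ℝ) + (N - 2 * N0) = a0 + N - N0 := by ring
  rw [e3, hκe] at hwin1
  have e4 : ∫ t in (a0 + N0)..(a0 + N - N0), ‖riemannZeta (1 / 2 + t * Complex.I)‖ ^ (2 * κ) =
      ∫ t in (a0 + N0)..(a0 + N - N0), fk k t ^ (q + 1) := by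
    refine intervalIntegral.integral_congr fun t _ => ?_
    simp only [fk]
    rw [← Real.rpow_natCast, ← Real.rpow_mul (norm_nonneg _), hκ]
    congr 1
    push_cast
    ring
  rw [e4] at hwin1
  have hU'1 : U / 2 ≤ N - 2 * N0 := by linarith
  have hlogU' : X / 2 ≤ Real.log (N - 2 * N0) := by
    calc X / 2 ≤ X - Real.log 2 := by linarith
      _ = Real.log (U / 2) := by rw [Real.log_div (by linarith) (by norm_num), hX]
      _ ≤ _ := Real.log_le_log (by linarith) hU'1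
  have hlow : w * (U * X ^ e2) ≤ ∫ t in (a0 + N0)..(a0 + N - N0), fk k t ^ (q + 1) := by
    refine le_trans ?_ hwin1
    have h1 : (1 / 2) ^ e2 * X ^ e2 ≤ Real.log (N - 2 * N0) ^ e2 := by
      rw [← Real.mul_rpow (by norm_num) hX0]
      exact Real.rpow_le_rpow (by positivity) (by linarith) he2p.le
    rw [hw]
    calc c1 * (1 / 2 * (1 / 2) ^ e2) * (U * X ^ e2) = c1 * (U / 2 * ((1 / 2) ^ e2 * X ^ e2)) := by ring
      _ ≤ c1 * ((N - 2 * N0) * Real.log (N - 2 * N0) ^ e2) := by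
          apply mul_le_mul_of_nonneg_left _ hc1.le
          exact mul_le_mul hU'1 h1 (by positivity) (by linarith)
  -- the upper bound
  have hab_int := hsub a b ha.1 hab hb.2
  have hEpow : ∀ x : ℝ, |E x| ^ q ≤ 8 * Q → |E x| ^ (q + 1) ≤ (8 * Q) ^ ((q + 1) / q) := by
    intro x hx
    have h1 := Real.rpow_le_rpow (Real.rpow_nonneg (abs_nonneg _) _) hx (by positivity : 0 ≤ (q + 1) / q)
    rw [← Real.rpow_mul (abs_nonneg _)] at h1
    have e5 : q * ((q + 1) / q) = q + 1 := by field_simp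
    rwa [e5] at h1
  have h8Q : 8 * Q ≤ X ^ e2 := by
    rw [hQ]
    have h1 : (1:ℝ) ≤ L ^ ((k:ℝ) ^ 2 + q) := Real.one_le_rpow (by linarith) (by positivity)
    have hX2 : 0 ≤ X ^ e2 := Real.rpow_nonneg hX0 _
    calc 8 * (c * X ^ e2 / L ^ ((k:ℝ) ^ 2 + q)) ≤ 8 * (c * X ^ e2) := by
          apply mul_le_mul_of_nonneg_left _ (by norm_num)
          exact div_le_self (by positivity) h1
      _ ≤ X ^ e2 := by nlinarith
  have hbd : |E b| ^ (q + 1) + |E a| ^ (q + 1) ≤ 2 * X ^ (e2 * ((q + 1) / q)) := by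
    have h1 : (8 * Q) ^ ((q + 1) / q) ≤ X ^ (e2 * ((q + 1) / q)) := by
      rw [Real.rpow_mul hX0]
      exact Real.rpow_le_rpow (by positivity) h8Q (by positivity)
    have := hEpow a hEa
    have := hEpow b hEb
    linarith
  have hCL : (4 * C0 * L) ^ q = (4 * C0) ^ q * L ^ q := Real.mul_rpow (by positivity) hL0.le
  have hcore2 : ∫ t in (a0 + N0)..(a0 + N - N0), fk k t ^ (q + 1) ≤
      G * H * (L ^ q * (Λ * (Q * U))) + G * H * (L ^ q * (2 * X ^ (e2 * ((q + 1) / q)))) +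
        G * (L ^ q * (U * (3 * Λ) ^ (q + 1))) := by
    refine hcore.trans ?_
    rw [hCL]
    have hLq : 0 ≤ L ^ q := Real.rpow_nonneg hL0.le _
    have hΛ0 : 0 ≤ Λ := by linarith
    have h1 : Λ * (∫ t in a..b, |E t| ^ q) + (|E b| ^ (q + 1) + |E a| ^ (q + 1)) ≤
        Λ * (Q * U) + 2 * X ^ (e2 * ((q + 1) / q)) := by
      have := mul_le_mul_of_nonneg_left (hab_int.trans hint.le) hΛ0
      linarith
    have h2 : (N:ℝ) * (3 * Λ) ^ (q + 1) ≤ U * (3 * Λ) ^ (q + 1) :=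
      mul_le_mul_of_nonneg_right (by linarith) (by positivity)
    calc (4 * C0) ^ q * L ^ q * (8 ^ (q + 1) * (2 ^ (q + 1) * (4 * 16 ^ q) *
          (Λ * (∫ t in a..b, |E t| ^ q) + (|E b| ^ (q + 1) + |E a| ^ (q + 1))) + N * (3 * Λ) ^ (q + 1)))
        ≤ (4 * C0) ^ q * L ^ q * (8 ^ (q + 1) * (2 ^ (q + 1) * (4 * 16 ^ q) *
          (Λ * (Q * U) + 2 * X ^ (e2 * ((q + 1) / q))) + U * (3 * Λ) ^ (q + 1))) := by
          apply mul_le_mul_of_nonneg_left _ (by positivity)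
          apply mul_le_mul_of_nonneg_left _ (by positivity)
          exact add_le_add (mul_le_mul_of_nonneg_left h1 (by positivity)) h2
      _ ≤ 8 ^ (q + 1) * (4 * C0) ^ q * (2 ^ (q + 1) * (4 * 16 ^ q)) * (L ^ q * (Λ * (Q * U))) +
          8 ^ (q + 1) * (4 * C0) ^ q * (2 ^ (q + 1) * (4 * 16 ^ q)) * (L ^ q * (2 * X ^ (e2 * ((q + 1) / q)))) +
          8 ^ (q + 1) * (4 * C0) ^ q * (L ^ q * (U * (3 * Λ) ^ (q + 1))) := by
          apply le_of_eq; ring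
      _ = _ := by rw [hG, hH]; ring
  -- first term
  have hterm1 : G * H * (L ^ q * (Λ * (Q * U))) ≤ 1 / 8 * (w * (U * X ^ e2)) := by
    have hLk : L ^ q * L ^ (k ^ 2) = L ^ ((k:ℝ) ^ 2 + q) := by
      rw [← Real.rpow_natCast L (k ^ 2), ← Real.rpow_add hL0]
      congr 1
      push_cast
      ring
    have hLp : 0 < L ^ ((k:ℝ) ^ 2 + q) := Real.rpow_pos_of_pos hL0 _
    have h1 : G * H * (L ^ q * (Λ * (Q * U))) = G * H * C * c * (U * X ^ e2) := by
      rw [hΛd, hQ]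
      calc G * H * (L ^ q * (C * L ^ (k ^ 2) * (c * X ^ e2 / L ^ ((k:ℝ) ^ 2 + q) * U)))
          = G * H * C * c * (U * X ^ e2) * ((L ^ q * L ^ (k ^ 2)) / L ^ ((k:ℝ) ^ 2 + q)) := by ring
        _ = _ := by rw [hLk, div_self hLp.ne', mul_one]
    rw [h1, ← mul_assoc (1 / 8)]
    apply mul_le_mul_of_nonneg_right _ (by positivity)
    rw [le_div_iff₀ (by positivity)] at hcw
    linarith
  have hterm2 : G * H * (L ^ q * (2 * X ^ (e2 * ((q + 1) / q)))) ≤ 1 / 8 * (w * (U * X ^ e2)) := by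
    have h1 : L ^ q ≤ X ^ (ρ * q) := by
      rw [Real.rpow_mul hX0]
      exact Real.rpow_le_rpow hL0.le hLX hq.le
    have h2 : L ^ q * X ^ (e2 * ((q + 1) / q)) ≤ X ^ (ρ * q + e2 * ((q + 1) / q)) := by
      rw [Real.rpow_add hXpos]
      exact mul_le_mul_of_nonneg_right h1 (Real.rpow_nonneg hX0 _)
    have h3 : (1:ℝ) ≤ X ^ e2 := Real.one_le_rpow (by linarith) he2p.le
    have h4 : 16 * G * H * X ^ (ρ * q + e2 * ((q + 1) / q)) ≤ w * U := by
      have := mul_le_mul_of_nonneg_left g3 hw0.le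
      have e6 : w * (16 * G * H / w * X ^ (ρ * q + e2 * ((q + 1) / q))) =
          16 * G * H * X ^ (ρ * q + e2 * ((q + 1) / q)) := by
        field_simp
      rwa [e6] at this
    have hGH : 0 ≤ G * H := by positivity
    have h5 := mul_le_mul_of_nonneg_left h2 hGH
    have h6 : w * U ≤ w * (U * X ^ e2) := by
      apply mul_le_mul_of_nonneg_left _ hw0.le
      exact le_mul_of_one_le_right hU0'.le h3
    linarith
  have hterm3 : G * (L ^ q * (U * (3 * Λ) ^ (q + 1))) ≤ 1 / 8 * (w * (U * X ^ e2)) := by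
    have h1 : L ^ q * (3 * Λ) ^ (q + 1) = (3 * C) ^ (q + 1) * L ^ e1 := by
      rw [hΛd, ← mul_assoc 3 C, Real.mul_rpow (by positivity) (by positivity), ← Real.rpow_natCast L (k ^ 2),
        ← Real.rpow_mul hL0.le, mul_left_comm, ← Real.rpow_add hL0, he1]
      congr 2
      push_cast
      ring
    have h2 : 8 * G * (3 * C) ^ (q + 1) * L ^ e1 ≤ w * X ^ e2 := by
      have h3 : 8 * G * (3 * C) ^ (q + 1) ≤ K * w := by
        rwa [div_le_iff₀ hw0] at hKw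
      have hLe : 0 ≤ L ^ e1 := Real.rpow_nonneg hL0.le _
      calc 8 * G * (3 * C) ^ (q + 1) * L ^ e1 ≤ K * w * L ^ e1 := mul_le_mul_of_nonneg_right h3 hLe
        _ = w * (K * L ^ e1) := by ring
        _ ≤ w * X ^ e2 := mul_le_mul_of_nonneg_left hcond hw0.le
    calc G * (L ^ q * (U * (3 * Λ) ^ (q + 1))) = 1 / 8 * (U * (8 * G * (L ^ q * (3 * Λ) ^ (q + 1)))) := by ring
      _ = 1 / 8 * (U * (8 * G * (3 * C) ^ (q + 1) * L ^ e1)) := by rw [h1]; ring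
      _ ≤ 1 / 8 * (U * (w * X ^ e2)) := by
          apply mul_le_mul_of_nonneg_left _ (by norm_num)
          exact mul_le_mul_of_nonneg_left h2 hU0'.le
      _ = _ := by ring
  have hWpos : 0 < w * (U * X ^ e2) := by positivity
  linarith

end Pool.Agent.Helper156_EK
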