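import Pool.Agent.Helper156_EK.LawA
import Pool.Agent.Helper156_EK.FinC

set_option autoImplicit false

/-!
# Lower bounds for the measure of the set where `|I_k - M|` is large
-/

open MeasureTheory Set Filter

namespace Pool.Agent.Helper156_EK

open Pool.Agent.W188.QS Pool.Agent.W188.GP

theorem mainA (hlaw : LAW) (k : ℕ) (hk : 2 ≤ k) (B C α : ℝ) (hB : 0 ≤ B) (hC : 0 < C) (hα0 : 0 ≤ α) (hα1 : α < 1) :
    ∃ c : ℝ, 0 < c ∧ ∀ᶠ T : ℝ in atTop, ∀ H : ℝ, T / Real.log T ^ α ≤ H → H ≤ T →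
      ∀ M : ℝ → ℝ, (∀ t ∈ Icc T (T + H), DifferentiableAt ℝ M t ∧ deriv M t ≤ C * Real.log T ^ (k ^ 2)) →
      ∀ x : ℝ, 0 ≤ x → x ≤ B * Real.log (Real.log T) →
        c * (H * (Real.exp (-(x ^ 2 / Real.log (Real.log T))) / (1 + x / Real.sqrt (Real.log (Real.log T))))) ≤
          volume.real {t ∈ Icc T (T + H) |
            c * Real.exp (2 * k * x) * Real.log T ^ (2 * k ^ 2 - 1) < |Ik k t - M t|} := by
  have hk1 : (2:ℝ) ≤ k := by exact_mod_cast hk
  obtain ⟨C0, T0, hC0, hT01, hz⟩ := floc (by omega : 1 ≤ k)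
  obtain ⟨cl, W, S, hcl, hW, hSm, hSf, hS⟩ := law_mass hlaw k B hB
  obtain ⟨α', hα'⟩ : ∃ α' : ℝ, α' = (1 + α) / 2 := ⟨_, rfl⟩
  have hα'0 : 0 ≤ α' := by rw [hα']; linarith
  have hα'1 : α' < 1 := by rw [hα']; linarith
  have hαα' : 0 < α' - α := by rw [hα']; linarith
  have hlawT := hS α' hα'0 hα'1
  obtain ⟨κ, hκ⟩ : ∃ κ : ℝ, κ = Real.exp (-(2 * k * W)) / (36 * C0) := ⟨_, rfl⟩
  have hκ0 : 0 < κ := by rw [hκ]; positivity
  obtain ⟨c, hc⟩ : ∃ c : ℝ, c = min (1 / 8) (min (κ / 16) (cl / (32 * C))) := ⟨_, rfl⟩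
  have hc0 : 0 < c := by rw [hc]; positivity
  have hc1 : c ≤ 1 / 8 := by rw [hc]; exact min_le_left _ _
  have hc2 : c ≤ κ / 16 := by rw [hc]; exact (min_le_right _ _).trans (min_le_left _ _)
  have hc3 : c ≤ cl / (32 * C) := by rw [hc]; exact (min_le_right _ _).trans (min_le_right _ _)
  -- large T
  have hev1 : ∀ᶠ T : ℝ in atTop, 4 * (1 + C * Real.log T ^ (k ^ 2)) ≤ κ * Real.log T ^ (2 * k ^ 2 - 1) := by
    have h1 : Tendsto (fun T : ℝ => Real.log T) atTop atTop := Real.tendsto_log_atTop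
    filter_upwards [h1.eventually_ge_atTop (max 1 ((4 + 4 * C) / κ))] with T hT
    have h2 : 1 ≤ Real.log T := (le_max_left _ _).trans hT
    have h3 : (4 + 4 * C) / κ ≤ Real.log T := (le_max_right _ _).trans hT
    rw [div_le_iff₀ hκ0] at h3
    have h4 : 1 ≤ Real.log T ^ (k ^ 2) := one_le_pow₀ h2
    have h5 : Real.log T * Real.log T ^ (k ^ 2) ≤ Real.log T ^ (2 * k ^ 2 - 1) := by
      rw [← pow_succ']
      apply pow_le_pow_right₀ h2
      have : 4 ≤ k ^ 2 := by nlinarith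
      omega
    calc 4 * (1 + C * Real.log T ^ (k ^ 2)) ≤ (4 + 4 * C) * Real.log T ^ (k ^ 2) := by nlinarith
      _ ≤ Real.log T * κ * Real.log T ^ (k ^ 2) := mul_le_mul_of_nonneg_right h3 (by positivity)
      _ = κ * (Real.log T * Real.log T ^ (k ^ 2)) := by ring
      _ ≤ _ := mul_le_mul_of_nonneg_left h5 hκ0.le
  have hev2 : ∀ᶠ T : ℝ in atTop, 32 * Real.log T ^ (1 + α) ≤ T := by
    obtain ⟨U0, hU0⟩ := log_growth (1 + α) 32
    filter_upwards [eventually_ge_atTop U0] with T hT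
    exact hU0 T hT
  have hev3 : ∀ᶠ T : ℝ in atTop, 4 ≤ Real.log T ^ (α' - α) :=
    ((tendsto_rpow_atTop hαα').comp Real.tendsto_log_atTop).eventually_ge_atTop 4
  refine ⟨c, hc0, ?_⟩
  filter_upwards [hlawT, hev1, hev2, hev3, eventually_ge_atTop T0, eventually_ge_atTop (Real.exp 4)]
    with T hTlaw hT1 hT2 hT3 hTT0 hTe H hH1 hH2 M hM x hx0 hxB
  have hT0 : 0 < T := (Real.exp_pos 4).trans_le hTe
  obtain ⟨L, hL⟩ : ∃ L : ℝ, L = Real.log T := ⟨_, rfl⟩
  obtain ⟨l, hl⟩ : ∃ l : ℝ, l = Real.log L := ⟨_, rfl⟩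
  rw [← hL, ← hl] at hxB hTlaw ⊢
  rw [← hL] at hT1 hT2 hT3 hH1 hM
  have hL4 : 4 ≤ L := by rw [hL]; rwa [Real.le_log_iff_exp_le hT0]
  have hL0 : 0 < L := by linarith
  have hl0 : 0 < l := by rw [hl]; exact Real.log_pos (by linarith)
  have hexpl : Real.exp l = L := by rw [hl]; exact Real.exp_log hL0
  have hs0 : 0 < Real.sqrt l := Real.sqrt_pos.2 hl0
  have hxs : 1 ≤ 1 + x / Real.sqrt l := by
    have : 0 ≤ x / Real.sqrt l := by positivity
    linarith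
  obtain ⟨G, hG⟩ : ∃ G : ℝ, G = Real.exp (-(x ^ 2 / l)) / (1 + x / Real.sqrt l) := ⟨_, rfl⟩
  have hG0 : 0 < G := by rw [hG]; positivity
  have hG1 : G ≤ 1 := by
    rw [hG, div_le_one (by linarith)]
    have : Real.exp (-(x ^ 2 / l)) ≤ 1 := by
      apply Real.exp_le_one_iff.2
      have : 0 ≤ x ^ 2 / l := by positivity
      linarith
    linarith
  rw [← hG]
  -- H is large
  have hLα : 0 < L ^ α := Real.rpow_pos_of_pos hL0 _
  have hHL : 32 * L ≤ H := by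
    refine le_trans ?_ hH1
    rw [le_div_iff₀ hLα]
    calc 32 * L * L ^ α = 32 * L ^ (1 + α) := by rw [Real.rpow_add hL0, Real.rpow_one]; ring
      _ ≤ T := hT2
  have hH0 : 0 < H := by linarith
  have hLT : 32 * L ≤ T := hHL.trans hH2
  obtain ⟨E, hE⟩ : ∃ E : ℝ → ℝ, E = fun t => Ik k t - M t := ⟨_, rfl⟩
  have hEt : ∀ t, |Ik k t - M t| = |E t| := fun t => by rw [hE]
  simp only [hEt]
  obtain ⟨Λ, hΛ⟩ : ∃ Λ : ℝ, Λ = C * L ^ (k ^ 2) := ⟨_, rfl⟩
  rw [← hΛ] at hT1 hM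
  have hΛ0 : 0 < Λ := by rw [hΛ]; positivity
  have hEd : ∀ t ∈ Icc T (T + H), ∃ e, HasDerivAt E e t ∧ fk k t - Λ ≤ e := by
    intro t ht
    obtain ⟨h1, h2⟩ := hM t ht
    refine ⟨fk k t - deriv M t, ?_, by linarith⟩
    rw [hE]
    exact (Ik_deriv k t).sub h1.hasDerivAt
  -- the level
  obtain ⟨K, hK⟩ : ∃ K : ℝ, K = κ * Real.exp (2 * k * x) * L ^ (2 * k ^ 2 - 1) := ⟨_, rfl⟩
  have hexpx : 1 ≤ Real.exp (2 * k * x) := Real.one_le_exp (by positivity)
  have hKΛ : 4 * (1 + Λ) ≤ K := by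
    refine hT1.trans ?_
    rw [hK]
    apply mul_le_mul_of_nonneg_right _ (by positivity)
    exact le_mul_of_one_le_right hκ0.le hexpx
  have hKS : 36 * C0 * L * K = Real.exp (2 * k * (k * l + x - W)) := by
    have h1 : L * L ^ (2 * k ^ 2 - 1) = L ^ (2 * k ^ 2) := by
      rw [← pow_succ']
      congr 1
      have : 1 ≤ k ^ 2 := Nat.one_le_pow _ _ (by omega)
      omega
    have h2 : Real.exp (2 * k * (k * l + x - W)) =
        Real.exp (-(2 * k * W)) * Real.exp (2 * k * x) * L ^ (2 * k ^ 2) := by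
      rw [← hexpl, ← Real.exp_nat_mul, ← Real.exp_add, ← Real.exp_add]
      congr 1
      push_cast
      ring
    rw [h2, ← h1, hK, hκ]
    field_simp
  have hmono : ∀ s : Set ℝ, s ⊆ {t ∈ Icc T (T + H) |
        c * Real.exp (2 * k * x) * L ^ (2 * k ^ 2 - 1) < |E t|} →
      volume.real s ≤ volume.real {t ∈ Icc T (T + H) |
        c * Real.exp (2 * k * x) * L ^ (2 * k ^ 2 - 1) < |E t|} := by
    intro s hs
    refine measureReal_mono hs ?_
    exact ne_top_of_le_ne_top (by rw [Real.volume_Icc]; exact ENNReal.ofReal_ne_top)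
      (measure_mono (sep_subset _ _))
  have hcK : c * Real.exp (2 * k * x) * L ^ (2 * k ^ 2 - 1) ≤ K / 16 := by
    rw [hK]
    have h1 : 0 ≤ Real.exp (2 * k * x) * L ^ (2 * k ^ 2 - 1) := by positivity
    calc c * Real.exp (2 * k * x) * L ^ (2 * k ^ 2 - 1)
        = c * (Real.exp (2 * k * x) * L ^ (2 * k ^ 2 - 1)) := by ring
      _ ≤ κ / 16 * (Real.exp (2 * k * x) * L ^ (2 * k ^ 2 - 1)) := mul_le_mul_of_nonneg_right hc2 h1
      _ = _ := by ring
  -- endpoints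
  have hend : ∀ u v : ℝ, T ≤ u → v ≤ T + H → H / 8 ≤ v - u →
      (∀ t ∈ Icc u v, K / 16 < |E t|) → c * (H * G) ≤ volume.real {t ∈ Icc T (T + H) |
        c * Real.exp (2 * k * x) * L ^ (2 * k ^ 2 - 1) < |E t|} := by
    intro u v hu hv huv hall
    refine le_trans ?_ (hmono (Icc u v) fun t ht => ⟨⟨hu.trans ht.1, ht.2.trans hv⟩, hcK.trans_lt (hall t ht)⟩)
    rw [Real.volume_real_Icc_of_le (by linarith)]
    calc c * (H * G) ≤ 1 / 8 * (H * 1) := by
          apply mul_le_mul hc1 _ (by positivity) (by norm_num)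
          exact mul_le_mul_of_nonneg_left hG1 hH0.le
      _ ≤ v - u := by linarith
  by_cases hA1 : ∀ t ∈ Icc T (T + H / 8), K / 16 < |E t|
  · exact hend T (T + H / 8) le_rfl (by linarith) (by linarith) hA1
  by_cases hA2 : ∀ t ∈ Icc (T + 7 * H / 8) (T + H), K / 16 < |E t|
  · exact hend (T + 7 * H / 8) (T + H) (by linarith) le_rfl (by linarith) hA2
  push Not at hA1 hA2
  obtain ⟨a, ha, hEa⟩ := hA1
  obtain ⟨b, hb, hEb⟩ := hA2
  -- the cells
  obtain ⟨a0, ha0⟩ : ∃ a0 : ℝ, a0 = T + H / 8 := ⟨_, rfl⟩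
  obtain ⟨N, hN⟩ : ∃ N : ℕ, N = ⌊3 * H / 4⌋₊ := ⟨_, rfl⟩
  obtain ⟨N0, hN0⟩ : ∃ N0 : ℕ, N0 = ⌈2 * L⌉₊ := ⟨_, rfl⟩
  have hN1 : (N:ℝ) ≤ 3 * H / 4 := by rw [hN]; exact Nat.floor_le (by positivity)
  have hN2 : 3 * H / 4 - 1 ≤ N := by rw [hN]; exact (Nat.sub_one_lt_floor _).le
  have hN01 : 2 * L ≤ N0 := by rw [hN0]; exact Nat.le_ceil _
  have hN02 : (N0:ℝ) ≤ 2 * L + 1 := by rw [hN0]; exact (Nat.ceil_lt_add_one (by positivity)).le
  have hN03 : (0:ℝ) ≤ N0 := N0.cast_nonneg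
  have hNN : 2 * N0 ≤ N := by
    have : ((2 * N0 : ℕ) : ℝ) ≤ N := by push_cast; linarith
    exact_mod_cast this
  have hab : a ≤ b := by linarith [ha.2, hb.1]
  have hcore := coreA (f := fk k) (L := L) (C := C0) (N := N) (N0 := N0) (a0 := a0) (K := K) (hSm l x) hab
    (by rw [ha0]; exact ha.2) (by rw [ha0]; linarith [hb.1]) hΛ0.le
    (fun t ht => hEd t ⟨ha.1.trans ht.1, ht.2.trans hb.2⟩) (fk_cont k) (fk_nonneg k) (by linarith) hC0 hNN hN01
    (fun t h1 h2 => by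
      have h3 := hz T t hTT0 (by rw [ha0] at h1; linarith) (by rw [ha0] at h2; linarith)
      rw [← hL] at h3
      exact h3)
    (fun t ht => by
      rw [hKS]
      exact hSf l x t ht) hKΛ hEa hEb
  have hU'1 : H / 2 ≤ N - 2 * N0 := by linarith
  have hlow := hTlaw (a0 + N0) (N - 2 * N0) (by rw [ha0]; linarith) (by rw [ha0]; linarith) (by
    have h1 : L ≤ Real.log (a0 + N0) := by
      rw [hL]
      exact Real.log_le_log hT0 (by rw [ha0]; linarith)
    have h2 : L ^ α' ≤ Real.log (a0 + N0) ^ α' := Real.rpow_le_rpow hL0.le h1 hα'0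
    have hLα' : 0 < L ^ α' := Real.rpow_pos_of_pos hL0 _
    calc (a0 + N0) / Real.log (a0 + N0) ^ α' ≤ (2 * T) / L ^ α' := by
          apply div_le_div₀ (by linarith) (by rw [ha0]; linarith) hLα' h2
      _ ≤ T / L ^ α / 2 := by
          rw [div_div, div_le_div_iff₀ hLα' (by positivity)]
          have h3 : 4 * L ^ α ≤ L ^ α' := by
            have e : L ^ α' = L ^ (α' - α) * L ^ α := by
              rw [← Real.rpow_add hL0]
              congr 1
              ring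
            rw [e]
            exact mul_le_mul_of_nonneg_right hT3 hLα.le
          nlinarith
      _ ≤ H / 2 := by linarith
      _ ≤ _ := hU'1) (by rw [ha0]; linarith) x hx0 hxB
  have e3 : (a0 + N0 : ℝ) + (N - 2 * N0) = a0 + N - N0 := by ring
  rw [e3] at hlow
  have e4 : (fun t => za t ^ (2 * k)) = fk k := by funext t; rfl
  rw [e4] at hlow
  have e5 : Real.exp (k ^ 2 * l - x ^ 2 / l) / (1 + x / Real.sqrt l) = L ^ (k ^ 2) * G := by
    have h1 : Real.exp (k ^ 2 * l - x ^ 2 / l) = L ^ (k ^ 2) * Real.exp (-(x ^ 2 / l)) := by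
      rw [← hexpl, ← Real.exp_nat_mul, ← Real.exp_add]
      congr 1
      push_cast
      ring
    rw [h1, hG]
    ring
  rw [e5] at hlow
  have hsubset := hmono {t ∈ Icc a b | K / 16 < |E t|} (fun t ht =>
    ⟨⟨ha.1.trans ht.1.1, ht.1.2.trans hb.2⟩, hcK.trans_lt ht.2⟩)
  have h1 : cl * (H / 2 * (L ^ (k ^ 2) * G)) ≤ 16 * Λ * volume.real {t ∈ Icc T (T + H) |
      c * Real.exp (2 * k * x) * L ^ (2 * k ^ 2 - 1) < |E t|} := by
    calc cl * (H / 2 * (L ^ (k ^ 2) * G)) ≤ cl * ((N - 2 * N0) * (L ^ (k ^ 2) * G)) := by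
          apply mul_le_mul_of_nonneg_left _ hcl.le
          exact mul_le_mul_of_nonneg_right hU'1 (by positivity)
      _ ≤ _ := hlow
      _ ≤ _ := hcore
      _ ≤ _ := mul_le_mul_of_nonneg_left hsubset (by positivity)
  have hLk : 0 < L ^ (k ^ 2) := by positivity
  have h2 : L ^ (k ^ 2) * (cl / 2 * (H * G)) ≤ L ^ (k ^ 2) * (16 * C * volume.real {t ∈ Icc T (T + H) |
      c * Real.exp (2 * k * x) * L ^ (2 * k ^ 2 - 1) < |E t|}) := by
    rw [hΛ] at h1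
    calc L ^ (k ^ 2) * (cl / 2 * (H * G)) = cl * (H / 2 * (L ^ (k ^ 2) * G)) := by ring
      _ ≤ _ := h1
      _ = _ := by ring
  have h3 := le_of_mul_le_mul_left h2 hLk
  have hHG : 0 ≤ H * G := by positivity
  calc c * (H * G) ≤ cl / (32 * C) * (H * G) := mul_le_mul_of_nonneg_right hc3 hHG
    _ = (cl / 2 * (H * G)) / (16 * C) := by field_simp; norm_num
    _ ≤ _ := by
        rw [div_le_iff₀ (by positivity)]
        linarith

end Pool.Agent.Helper156_EK
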