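import Mathlib

set_option autoImplicit false

/-!
# The main terms `t P(log t) + y`
-/

open MeasureTheory Set Filter

namespace Pool.Agent.Helper156_EK

theorem poly_bound (P : Polynomial ℝ) {D : ℕ} (hD : P.natDegree ≤ D) {x : ℝ} (hx : 1 ≤ x) :
    |P.eval x| ≤ (∑ i ∈ Finset.range (D + 1), |P.coeff i|) * x ^ D := by
  rw [Polynomial.eval_eq_sum_range' (by omega : P.natDegree < D + 1), Finset.sum_mul]
  refine (Finset.abs_sum_le_sum_abs _ _).trans (Finset.sum_le_sum fun i hi => ?_)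
  rw [Finset.mem_range] at hi
  rw [abs_mul, abs_pow, abs_of_nonneg (by linarith : 0 ≤ x)]
  exact mul_le_mul_of_nonneg_left (pow_le_pow_right₀ hx (by omega)) (abs_nonneg _)

theorem main_deriv (P : Polynomial ℝ) (y : ℝ) {t : ℝ} (ht : 0 < t) :
    HasDerivAt (fun t : ℝ => t * P.eval (Real.log t) + y)
      (P.eval (Real.log t) + P.derivative.eval (Real.log t)) t := by
  have h1 : HasDerivAt (fun t : ℝ => P.eval (Real.log t)) (P.derivative.eval (Real.log t) * t⁻¹) t :=
    (P.hasDerivAt (Real.log t)).comp t (Real.hasDerivAt_log ht.ne')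
  have h2 := ((hasDerivAt_id t).mul h1).add_const y
  have e : 1 * P.eval (Real.log t) + id t * (P.derivative.eval (Real.log t) * t⁻¹) =
      P.eval (Real.log t) + P.derivative.eval (Real.log t) := by
    simp only [id]
    field_simp
  rw [e] at h2
  exact h2

/-- the slope of a main term of degree at most `D` is at most `C (log T)^D` in absolute value -/
theorem main_slope (P : Polynomial ℝ) {D : ℕ} (hD : P.natDegree ≤ D) :
    ∃ C : ℝ, 0 < C ∧ ∀ T : ℝ, Real.exp 1 ≤ T → ∀ t ∈ Icc T (2 * T),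
      |P.eval (Real.log t) + P.derivative.eval (Real.log t)| ≤ C * Real.log T ^ D := by
  have hD' : P.derivative.natDegree ≤ D := (P.natDegree_derivative_le.trans (Nat.sub_le _ _)).trans hD
  obtain ⟨S1, hS1⟩ : ∃ S : ℝ, S = ∑ i ∈ Finset.range (D + 1), |P.coeff i| := ⟨_, rfl⟩
  obtain ⟨S2, hS2⟩ : ∃ S : ℝ, S = ∑ i ∈ Finset.range (D + 1), |P.derivative.coeff i| := ⟨_, rfl⟩
  have h1 : 0 ≤ S1 := by rw [hS1]; exact Finset.sum_nonneg fun i _ => abs_nonneg _
  have h2 : 0 ≤ S2 := by rw [hS2]; exact Finset.sum_nonneg fun i _ => abs_nonneg _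
  refine ⟨(S1 + S2 + 1) * 2 ^ D, by positivity, fun T hT t ht => ?_⟩
  have hT0 : 0 < T := (Real.exp_pos 1).trans_le hT
  have hL1 : 1 ≤ Real.log T := by rwa [Real.le_log_iff_exp_le hT0]
  have ht0 : 0 < t := hT0.trans_le ht.1
  have hl1 : 1 ≤ Real.log t := hL1.trans (Real.log_le_log hT0 ht.1)
  have hT2 : 2 ≤ T := by
    have := Real.exp_one_gt_d9
    linarith
  have hl2 : Real.log t ≤ 2 * Real.log T := by
    calc Real.log t ≤ Real.log (T * T) := Real.log_le_log ht0 (by nlinarith [ht.2])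
      _ = 2 * Real.log T := by rw [Real.log_mul hT0.ne' hT0.ne']; ring
  have h3 := poly_bound P hD hl1
  have h4 := poly_bound P.derivative hD' hl1
  rw [← hS1] at h3
  rw [← hS2] at h4
  have h5 : Real.log t ^ D ≤ (2 * Real.log T) ^ D := pow_le_pow_left₀ (by linarith) hl2 D
  have h6 : 0 ≤ (2 * Real.log T) ^ D := by positivity
  calc |P.eval (Real.log t) + P.derivative.eval (Real.log t)|
      ≤ |P.eval (Real.log t)| + |P.derivative.eval (Real.log t)| := abs_add_le _ _
    _ ≤ S1 * Real.log t ^ D + S2 * Real.log t ^ D := add_le_add h3 h4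
    _ = (S1 + S2) * Real.log t ^ D := by ring
    _ ≤ (S1 + S2) * (2 * Real.log T) ^ D := mul_le_mul_of_nonneg_left h5 (by linarith)
    _ ≤ (S1 + S2 + 1) * (2 * Real.log T) ^ D := mul_le_mul_of_nonneg_right (by linarith) h6
    _ = (S1 + S2 + 1) * 2 ^ D * Real.log T ^ D := by rw [mul_pow]; ring

end Pool.Agent.Helper156_EK
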