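import Pool.Agent.Helper156_EK.CoreB
import Pool.Agent.Helper156_EK.FinC
import Pool.Agent.Helper156_EK.Poly
import Pool.Agent.TH158.FM.Main

set_option autoImplicit false

/-!
# The measure of the set where `I_k(t) - t P(log t)` is near a given value
-/

open MeasureTheory Set Filter Topology

namespace Pool.Agent.Helper156_EK

open Pool.Agent.W188.QS Pool.Agent.W188.GP

theorem fourth_mean {T : ℝ} (hT : 1000 ≤ T) : ∫ t in (0:ℝ)..T, ZZ t ^ 4 ≤ T * Real.log T ^ 4 := by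
  have h := Pool.Agent.TH158.FM.fourth_all T hT
  have e : ∀ t : ℝ, Pool.Agent.TH158.FM.pt (1 / 2) t = cp t := by
    intro t
    unfold Pool.Agent.TH158.FM.pt cp
    push_cast
    ring
  simp only [e] at h
  have h0 : 0 ≤ T * Real.log T ^ 4 := by positivity
  refine h.trans ?_
  linarith

theorem main_slope2 (P : Polynomial ℝ) {D : ℕ} (hD : P.natDegree ≤ D) :
    ∃ C : ℝ, 0 < C ∧ ∀ T : ℝ, Real.exp 1 ≤ T → ∀ t ∈ Icc T (T * T),
      |P.eval (Real.log t) + P.derivative.eval (Real.log t)| ≤ C * Real.log T ^ D := by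
  have hD' : P.derivative.natDegree ≤ D := (P.natDegree_derivative_le.trans (Nat.sub_le _ _)).trans hD
  obtain ⟨S1, hS1⟩ : ∃ S : ℝ, S = ∑ i ∈ Finset.range (D + 1), |P.coeff i| := ⟨_, rfl⟩
  obtain ⟨S2, hS2⟩ : ∃ S : ℝ, S = ∑ i ∈ Finset.range (D + 1), |P.derivative.coeff i| := ⟨_, rfl⟩
  have h1 : 0 ≤ S1 := by rw [hS1]; exact Finset.sum_nonneg fun i _ => abs_nonneg _
  have h2 : 0 ≤ S2 := by rw [hS2]; exact Finset.sum_nonneg fun i _ => abs_nonneg _
  refine ⟨(S1 + S2 + 1) * 2 ^ D, by positivity, fun T hT t ht => ?_⟩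
  have hT0 : 0 < T := (Real.exp_pos 1).trans_le hT
  have hL1 : 1 ≤ Real.log T := by rwa [Real.le_log_iff_exp_le hT0]
  have ht0 : 0 < t := hT0.trans_le ht.1
  have hl1 : 1 ≤ Real.log t := hL1.trans (Real.log_le_log hT0 ht.1)
  have hl2 : Real.log t ≤ 2 * Real.log T := by
    calc Real.log t ≤ Real.log (T * T) := Real.log_le_log ht0 ht.2
      _ = 2 * Real.log T := by rw [Real.log_mul hT0.ne' hT0.ne']; ring
  have h3 := poly_bound P hD hl1
  have h4 := poly_bound P.derivative hD' hl1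
  rw [← hS1] at h3
  rw [← hS2] at h4
  have h5 : Real.log t ^ D ≤ (2 * Real.log T) ^ D := pow_le_pow_left₀ (by linarith) hl2 D
  have h6 : 0 ≤ (2 * Real.log T) ^ D := by positivity
  calc |P.eval (Real.log t) + P.derivative.eval (Real.log t)|
      ≤ |P.eval (Real.log t)| + |P.derivative.eval (Real.log t)| := abs_add_le _ _
    _ ≤ S1 * Real.log t ^ D + S2 * Real.log t ^ D := add_le_add h3 h4
    _ = (S1 + S2) * Real.log t ^ D := by ring
    _ ≤ (S1 + S2) * (2 * Real.log T) ^ D := mul_le_mul_of_nonneg_left h5 (by linarith)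
    _ ≤ (S1 + S2 + 1) * (2 * Real.log T) ^ D := mul_le_mul_of_nonneg_right (by linarith) h6
    _ = (S1 + S2 + 1) * 2 ^ D * Real.log T ^ D := by rw [mul_pow]; ring

theorem slope_lower (P : Polynomial ℝ) (hD : 0 < P.natDegree) (hl : 0 < P.leadingCoeff) :
    ∃ c X₀ : ℝ, 0 < c ∧ ∀ x : ℝ, X₀ ≤ x → c * x ^ P.natDegree ≤ P.eval x + P.derivative.eval x := by
  have hP0 : P ≠ 0 := by
    intro h
    rw [h] at hl
    simp at hl
  have hdd : P.derivative.degree < P.degree := Polynomial.degree_derivative_lt hP0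
  have hdeg : (P + P.derivative).degree = ((Polynomial.X : Polynomial ℝ) ^ P.natDegree).degree := by
    rw [Polynomial.degree_add_eq_left_of_degree_lt hdd, Polynomial.degree_X_pow,
      Polynomial.degree_eq_natDegree hP0]
  have hlc : (P + P.derivative).leadingCoeff = P.leadingCoeff := Polynomial.leadingCoeff_add_of_degree_lt' hdd
  have h := Polynomial.div_tendsto_leadingCoeff_div_of_degree_eq (P + P.derivative)
    ((Polynomial.X : Polynomial ℝ) ^ P.natDegree) hdeg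
  rw [hlc, Polynomial.leadingCoeff_X_pow, div_one] at h
  have h1 : ∀ᶠ x : ℝ in atTop, P.leadingCoeff / 2 <
      Polynomial.eval x (P + P.derivative) / Polynomial.eval x (Polynomial.X ^ P.natDegree) :=
    h.eventually_const_lt (by linarith)
  obtain ⟨X₀, hX₀⟩ := eventually_atTop.1 h1
  refine ⟨P.leadingCoeff / 2, max X₀ 1, by linarith, fun x hx => ?_⟩
  have h2 := hX₀ x ((le_max_left _ _).trans hx)
  have hx1 : 1 ≤ x := (le_max_right _ _).trans hx
  rw [Polynomial.eval_pow, Polynomial.eval_X, Polynomial.eval_add, lt_div_iff₀ (by positivity)] at h2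
  exact h2.le

/-- the main inequality, in the case of a polynomial of degree at least `k²` with positive leading coefficient -/
theorem caseOne (k : ℕ) (hk : 3 ≤ k) (P : Polynomial ℝ) (hD : k ^ 2 ≤ P.natDegree) (hl : 0 < P.leadingCoeff) :
    ∃ C : ℝ, 0 < C ∧ ∀ᶠ T : ℝ in atTop, ∀ δ : ℝ, Real.log T ^ (k ^ 2) ≤ δ →
      δ ≤ Real.log T ^ (k ^ 2 + 2 * k - 1) → ∀ y : ℝ,
      volume.real {t ∈ Icc T (2 * T) | |Ik k t - (t * P.eval (Real.log t)) - y| ≤ δ} ≤
        C * T * (δ / Real.log T ^ (k ^ 2 + 2 * k - 1)) ^ (1 - 2 / (k:ℝ)) := by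
  have hk3 : (3:ℝ) ≤ k := by exact_mod_cast hk
  have hk0 : (0:ℝ) < k := by linarith
  obtain ⟨D, hDd⟩ : ∃ D : ℕ, D = P.natDegree := ⟨_, rfl⟩
  have hDpos : 0 < P.natDegree := lt_of_lt_of_le (by positivity) hD
  obtain ⟨c0, X0, hc0, hlow⟩ := slope_lower P hDpos hl
  obtain ⟨C1, hC1, hup⟩ := main_slope2 P (le_refl P.natDegree)
  rw [← hDd] at hlow hup hD
  obtain ⟨C0, T0, hC0, hT01, hz⟩ := zloc (p := ((4:ℕ):ℝ)) (by norm_num)
  simp only [Real.rpow_natCast] at hz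
  obtain ⟨θ, hθ⟩ : ∃ θ : ℝ, θ = 2 / (k:ℝ) := ⟨_, rfl⟩
  have hθ0 : 0 < θ := by rw [hθ]; positivity
  have hθ1 : θ < 1 := by rw [hθ, div_lt_one hk0]; linarith
  rw [← hθ]
  obtain ⟨A, hA⟩ : ∃ A : ℕ, A = k ^ 2 + 2 * k - 1 := ⟨_, rfl⟩
  rw [← hA]
  obtain ⟨S, hS⟩ : ∃ S : ℝ, S = (4 * C0 * (C1 + 4)) ^ (1 - θ) := ⟨_, rfl⟩
  have hS0 : 0 < S := by rw [hS]; positivity
  obtain ⟨U1, hU1⟩ := log_growth ((2 * A : ℕ) : ℝ) 1
  obtain ⟨U2, hU2⟩ := log_growth 1 32
  refine ⟨(600 * S + 4) / c0, by positivity, ?_⟩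
  filter_upwards [eventually_ge_atTop T0, eventually_ge_atTop 1000, eventually_ge_atTop U1,
    eventually_ge_atTop U2, Real.tendsto_log_atTop.eventually_ge_atTop X0] with T hTT0 hT1000 hTU1 hTU2 hTX0 δ hδ1 hδ2 y
  have hT0 : 0 < T := by linarith
  obtain ⟨L, hL⟩ : ∃ L : ℝ, L = Real.log T := ⟨_, rfl⟩
  rw [← hL] at hTX0 hδ1 hδ2 ⊢
  have he : Real.exp 1 ≤ T := by
    have := Real.exp_one_lt_d9
    linarith
  have hL4 : 4 ≤ L := by
    rw [hL, Real.le_log_iff_exp_le hT0]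
    have h1 : Real.exp 4 = (Real.exp 1) ^ 4 := by rw [← Real.exp_nat_mul]; norm_num
    have h2 : Real.exp 1 < 3 := by
      have := Real.exp_one_lt_d9
      linarith
    have h3 : (Real.exp 1) ^ 4 ≤ 3 ^ 4 := pow_le_pow_left₀ (Real.exp_pos 1).le h2.le 4
    rw [h1]; norm_num at h3; linarith
  have hL0 : 0 < L := by linarith
  have hL1 : 1 ≤ L := by linarith
  have g1 : L ^ (2 * A) ≤ T := by
    have := hU1 T hTU1
    rw [← hL, Real.rpow_natCast, one_mul] at this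
    exact this
  have g2 : 32 * L ≤ T := by
    have := hU2 T hTU2
    rwa [← hL, Real.rpow_one] at this
  have hδone : 1 ≤ δ := (one_le_pow₀ hL1).trans hδ1
  have hδ0 : 0 < δ := by linarith
  -- the cells
  obtain ⟨N0, hN0⟩ : ∃ N0 : ℕ, N0 = ⌈2 * L⌉₊ := ⟨_, rfl⟩
  obtain ⟨N, hN⟩ : ∃ N : ℕ, N = ⌈T⌉₊ + 2 * N0 := ⟨_, rfl⟩
  obtain ⟨a0, ha0⟩ : ∃ a0 : ℝ, a0 = T - N0 := ⟨_, rfl⟩
  have hN01 : 2 * L ≤ N0 := by rw [hN0]; exact Nat.le_ceil _
  have hN02 : (N0:ℝ) ≤ 2 * L + 1 := by rw [hN0]; exact (Nat.ceil_lt_add_one (by positivity)).le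
  have hTc1 : T ≤ (⌈T⌉₊ : ℝ) := Nat.le_ceil _
  have hTc2 : (⌈T⌉₊ : ℝ) ≤ T + 1 := (Nat.ceil_lt_add_one hT0.le).le
  have hNr : (N:ℝ) = ⌈T⌉₊ + 2 * N0 := by rw [hN]; push_cast; ring
  have hNN : 2 * N0 ≤ N := by omega
  have ea : a0 + (N0:ℝ) = T := by rw [ha0]; ring
  have eb : a0 + (N:ℝ) - N0 = T + ⌈T⌉₊ := by rw [ha0, hNr]; ring
  obtain ⟨E, hE⟩ : ∃ E : ℝ → ℝ, E = fun t => Ik k t - (t * P.eval (Real.log t)) := ⟨_, rfl⟩
  have hEt : ∀ t, Ik k t - (t * P.eval (Real.log t)) = E t := fun t => by rw [hE]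
  simp only [hEt]
  have hEd : ∀ t ∈ Icc (a0 + (N0:ℝ)) (a0 + N - N0), ∃ e, HasDerivAt E e t ∧
      ZZ t ^ (2 * k) - C1 * L ^ D ≤ e ∧ e ≤ ZZ t ^ (2 * k) - c0 * L ^ D := by
    intro t ht
    rw [ea, eb] at ht
    have ht0 : 0 < t := hT0.trans_le ht.1
    have h1 := main_deriv P 0 ht0
    simp only [add_zero] at h1
    have h2 := (Ik_deriv k t).sub h1
    refine ⟨fk k t - (P.eval (Real.log t) + P.derivative.eval (Real.log t)), ?_, ?_, ?_⟩
    · rw [hE]; exact h2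
    · have h3 := hup T he t ⟨ht.1, by nlinarith [ht.2]⟩
      rw [← hL] at h3
      have h4 := (le_abs_self _).trans h3
      rw [fk_ZZ]
      linarith
    · have hlt : L ≤ Real.log t := by rw [hL]; exact Real.log_le_log hT0 ht.1
      have h3 := hlow (Real.log t) (hTX0.trans hlt)
      have h4 : c0 * L ^ D ≤ c0 * Real.log t ^ D :=
        mul_le_mul_of_nonneg_left (pow_le_pow_left₀ hL0.le hlt D) hc0.le
      rw [fk_ZZ]
      linarith
  have hcore := coreB (E := E) (z := ZZ) (a0 := a0) (Λ := C1 * L ^ D) (m := c0 * L ^ D) (L := L) (C := C0) (δ := δ)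
    (N := N) (N0 := N0) hk ZZ_cont ZZ_nonneg (by positivity) hδ0 hEd hL1 hC0 hNN hN01 (fun t h1 h2 => by
      rw [ea] at h1
      rw [eb] at h2
      have h3 := hz T t hTT0 (by linarith) (by linarith)
      rw [← hL] at h3
      exact h3) y
  rw [← hθ, ea, eb] at hcore
  -- the measure
  have hEc : ContinuousOn E (Icc T (T + ⌈T⌉₊)) := fun t ht => by
    obtain ⟨e, he, -⟩ := hEd t (by rwa [ea, eb])
    exact he.continuousAt.continuousWithinAt
  have hmeas := near_measure (by linarith : T ≤ T + (⌈T⌉₊ : ℝ)) hδ0 hEc y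
  have hV : volume.real {t ∈ Icc T (2 * T) | |E t - y| ≤ δ} ≤
      volume.real {t ∈ Icc T (T + ⌈T⌉₊) | |E t - y| ≤ δ} := by
    refine measureReal_mono (fun t ht => ⟨⟨ht.1.1, by linarith [ht.1.2]⟩, ht.2⟩) ?_
    exact ne_top_of_le_ne_top (by rw [Real.volume_Icc]; exact ENNReal.ofReal_ne_top)
      (measure_mono (sep_subset _ _))
  set V := volume.real {t ∈ Icc T (2 * T) | |E t - y| ≤ δ} with hVd
  -- the fourth moment
  have h4m : (∫ t in a0..(a0 + N), ZZ t ^ 4) + N ≤ 66 * (T * L ^ 4) := by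
    have h1 : ∫ t in a0..(a0 + N), ZZ t ^ 4 ≤ ∫ t in (0:ℝ)..(4 * T), ZZ t ^ 4 := by
      apply intervalIntegral.integral_mono_interval
      · rw [ha0]; linarith
      · have : (0:ℝ) ≤ N := N.cast_nonneg
        linarith
      · rw [ha0, hNr]; linarith
      · exact Filter.Eventually.of_forall fun t => pow_nonneg (ZZ_nonneg t) _
      · exact (ZZ_cont.pow 4).intervalIntegrable _ _
    have h2 := fourth_mean (by linarith : 1000 ≤ 4 * T)
    have h3 : Real.log (4 * T) ≤ 2 * L := by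
      calc Real.log (4 * T) ≤ Real.log (T * T) := Real.log_le_log (by positivity) (by nlinarith)
        _ = 2 * L := by rw [Real.log_mul hT0.ne' hT0.ne', hL]; ring
    have h4 : Real.log (4 * T) ^ 4 ≤ (2 * L) ^ 4 :=
      pow_le_pow_left₀ (Real.log_nonneg (by linarith)) h3 4
    have h5 : 4 * T * Real.log (4 * T) ^ 4 ≤ 64 * (T * L ^ 4) := by
      calc 4 * T * Real.log (4 * T) ^ 4 ≤ 4 * T * (2 * L) ^ 4 := mul_le_mul_of_nonneg_left h4 (by positivity)
        _ = 64 * (T * L ^ 4) := by ring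
    have h6 : (N:ℝ) ≤ 2 * (T * L ^ 4) := by
      have h7 : (1:ℝ) ≤ L ^ 4 := one_le_pow₀ hL1
      have h8 : T * 1 ≤ T * L ^ 4 := mul_le_mul_of_nonneg_left h7 hT0.le
      rw [hNr]
      linarith
    linarith
  have h8m : 8 * ((∫ t in a0..(a0 + N), ZZ t ^ 4) + N) ≤ 600 * (T * L ^ 4) := by
    have : 0 ≤ T * L ^ 4 := by positivity
    linarith
  -- the power
  have hLD : 0 < L ^ D := by positivity
  have hpow : (4 * C0 * L * (C1 * L ^ D + 4 * δ)) ^ (1 - θ) ≤ S * (L ^ ((1 + D - (k:ℝ) ^ 2) * (1 - θ)) * δ ^ (1 - θ)) := by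
    have h1 : L ^ D ≤ L ^ ((D:ℝ) - (k:ℝ) ^ 2) * δ := by
      have e1 : L ^ D = L ^ ((D:ℝ) - (k:ℝ) ^ 2) * L ^ (k ^ 2) := by
        rw [← Real.rpow_natCast L D, ← Real.rpow_natCast L (k ^ 2), ← Real.rpow_add hL0]
        congr 1
        push_cast
        ring
      rw [e1]
      exact mul_le_mul_of_nonneg_left hδ1 (Real.rpow_nonneg hL0.le _)
    have hDk : (0:ℝ) ≤ (D:ℝ) - (k:ℝ) ^ 2 := by
      have : ((k ^ 2 : ℕ) : ℝ) ≤ D := by exact_mod_cast hD
      push_cast at this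
      linarith
    have h2 : δ ≤ L ^ ((D:ℝ) - (k:ℝ) ^ 2) * δ :=
      le_mul_of_one_le_left hδ0.le (Real.one_le_rpow hL1 hDk)
    have h3 : 4 * C0 * L * (C1 * L ^ D + 4 * δ) ≤ 4 * C0 * (C1 + 4) * (L ^ (1 + D - (k:ℝ) ^ 2) * δ) := by
      have e2 : L ^ (1 + D - (k:ℝ) ^ 2) = L * L ^ ((D:ℝ) - (k:ℝ) ^ 2) := by
        have : (1 + D - (k:ℝ) ^ 2) = 1 + ((D:ℝ) - (k:ℝ) ^ 2) := by ring
        rw [this, Real.rpow_add hL0, Real.rpow_one]
      rw [e2]
      have h4 : C1 * L ^ D + 4 * δ ≤ (C1 + 4) * (L ^ ((D:ℝ) - (k:ℝ) ^ 2) * δ) := by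
        have := mul_le_mul_of_nonneg_left h1 hC1.le
        linarith
      have h5 := mul_le_mul_of_nonneg_left h4 (by positivity : 0 ≤ 4 * C0 * L)
      linarith
    calc (4 * C0 * L * (C1 * L ^ D + 4 * δ)) ^ (1 - θ)
        ≤ (4 * C0 * (C1 + 4) * (L ^ (1 + D - (k:ℝ) ^ 2) * δ)) ^ (1 - θ) :=
          Real.rpow_le_rpow (by positivity) h3 (by linarith)
      _ = _ := by
          rw [Real.mul_rpow (by positivity) (by positivity), Real.mul_rpow (by positivity) hδ0.le,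
            ← Real.rpow_mul hL0.le, hS]
  -- final exponents
  have hR : (δ / L ^ A) ^ (1 - θ) = δ ^ (1 - θ) * L ^ (-(A * (1 - θ))) := by
    rw [Real.div_rpow hδ0.le (by positivity), ← Real.rpow_natCast L A, ← Real.rpow_mul hL0.le,
      Real.rpow_neg hL0.le, div_eq_mul_inv]
  have hAr : (A:ℝ) = (k:ℝ) ^ 2 + 2 * k - 1 := by
    rw [hA, Nat.cast_sub (by nlinarith)]
    push_cast
    ring
  have hexp : L ^ 4 * L ^ ((1 + D - (k:ℝ) ^ 2) * (1 - θ)) ≤ L ^ D * L ^ (-(A * (1 - θ))) := by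
    rw [← Real.rpow_natCast L 4, ← Real.rpow_natCast L D, ← Real.rpow_add hL0, ← Real.rpow_add hL0]
    apply Real.rpow_le_rpow_of_exponent_le hL1
    have hDk : (k:ℝ) ^ 2 ≤ D := by
      have : ((k ^ 2 : ℕ) : ℝ) ≤ D := by exact_mod_cast hD
      push_cast at this
      exact this
    have h1 : θ * k = 2 := by rw [hθ]; field_simp
    have h2 : 2 * (k:ℝ) ≤ θ * D := by
      have : θ * (k:ℝ) ^ 2 ≤ θ * D := mul_le_mul_of_nonneg_left hDk hθ0.le
      have e : θ * (k:ℝ) ^ 2 = 2 * k := by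
        rw [sq, ← mul_assoc, h1]
      linarith
    rw [hAr]
    push_cast
    nlinarith
  have hR0 : 0 < (δ / L ^ A) ^ (1 - θ) := Real.rpow_pos_of_pos (by positivity) _
  set R := (δ / L ^ A) ^ (1 - θ) with hRd
  have hterm1 : (4 * C0 * L * (C1 * L ^ D + 4 * δ)) ^ (1 - θ) * (8 * ((∫ t in a0..(a0 + N), ZZ t ^ 4) + N)) ≤
      L ^ D * (600 * S * (T * R)) := by
    calc (4 * C0 * L * (C1 * L ^ D + 4 * δ)) ^ (1 - θ) * (8 * ((∫ t in a0..(a0 + N), ZZ t ^ 4) + N))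
        ≤ (S * (L ^ ((1 + D - (k:ℝ) ^ 2) * (1 - θ)) * δ ^ (1 - θ))) * (600 * (T * L ^ 4)) := by
          apply mul_le_mul hpow h8m _ (by positivity)
          have h1 : 0 ≤ ∫ t in a0..(a0 + N), ZZ t ^ 4 :=
            intervalIntegral.integral_nonneg (by have : (0:ℝ) ≤ N := N.cast_nonneg
                                                 linarith) fun t _ => pow_nonneg (ZZ_nonneg t) _
          have : (0:ℝ) ≤ N := N.cast_nonneg
          linarith
      _ = 600 * S * T * δ ^ (1 - θ) * (L ^ 4 * L ^ ((1 + D - (k:ℝ) ^ 2) * (1 - θ))) := by ring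
      _ ≤ 600 * S * T * δ ^ (1 - θ) * (L ^ D * L ^ (-(A * (1 - θ)))) :=
          mul_le_mul_of_nonneg_left hexp (by positivity)
      _ = L ^ D * (600 * S * (T * R)) := by rw [hR]; ring
  have hterm2 : 4 * δ ≤ L ^ D * (4 * (T * R)) := by
    have h1 : L ^ (-(A:ℝ)) ≤ R := by
      rw [hR]
      have h2 : 1 ≤ δ ^ (1 - θ) := Real.one_le_rpow hδone (by linarith)
      have h3 : L ^ (-(A:ℝ)) ≤ L ^ (-(A * (1 - θ))) := by
        apply Real.rpow_le_rpow_of_exponent_le hL1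
        have : (0:ℝ) ≤ A := A.cast_nonneg
        nlinarith
      calc L ^ (-(A:ℝ)) ≤ 1 * L ^ (-(A * (1 - θ))) := by rw [one_mul]; exact h3
        _ ≤ _ := mul_le_mul_of_nonneg_right h2 (Real.rpow_nonneg hL0.le _)
    have h2 : L ^ A ≤ T * R := by
      calc L ^ A = L ^ (2 * A) * L ^ (-(A:ℝ)) := by
            rw [← Real.rpow_natCast L A, ← Real.rpow_natCast L (2 * A), ← Real.rpow_add hL0]
            congr 1
            push_cast
            ring
        _ ≤ T * R := mul_le_mul g1 h1 (Real.rpow_nonneg hL0.le _) hT0.le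
    have h3 : (1:ℝ) ≤ L ^ D := one_le_pow₀ hL1
    have h4 : 0 ≤ T * R := by positivity
    calc 4 * δ ≤ 1 * (4 * (T * R)) := by linarith
      _ ≤ L ^ D * (4 * (T * R)) := mul_le_mul_of_nonneg_right h3 (by positivity)
  have hfin : L ^ D * (c0 * V) ≤ L ^ D * ((600 * S + 4) * (T * R)) := by
    have h1 : c0 * L ^ D * V ≤ c0 * L ^ D * ∫ t in T..(T + ⌈T⌉₊), chi δ (E t - y) :=
      mul_le_mul_of_nonneg_left (hV.trans hmeas) (by positivity)
    linarith
  have hfin2 := le_of_mul_le_mul_left hfin hLD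
  rw [div_mul_eq_mul_div, div_mul_eq_mul_div, le_div_iff₀ hc0]
  linarith

end Pool.Agent.Helper156_EK
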