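import Pool.Agent.Helper156_EK.FinB

set_option autoImplicit false

/-!
# The case of a main term that is too small, and the final inequality
-/

open MeasureTheory Set Filter Topology

namespace Pool.Agent.Helper156_EK

open Pool.Agent.W188.QS Pool.Agent.W188.GP

/-- the moment over intervals of length at least `√T` -/
theorem window_low (k : ℕ) (hk : 1 ≤ k) : ∃ c : ℝ, 0 < c ∧ ∀ᶠ T : ℝ in atTop, ∀ s t : ℝ, T ≤ s → t ≤ 2 * T →
    T ^ (1 / 2 : ℝ) ≤ t - s → c * Real.log T ^ (k ^ 2) * (t - s) ≤ Ik k t - Ik k s := by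
  have hk1 : (1:ℝ) ≤ k := by exact_mod_cast hk
  obtain ⟨c0, K0, hc0, hK01, hu⟩ := Pool.Agent.W181.Mom.uniform_real 1 one_pos (by
    rw [lt_div_iff₀ (Real.exp_pos 1)]
    have := Real.exp_one_lt_d9
    linarith)
  obtain ⟨B, hB, hwin⟩ := hu k hk1 c0 (Or.inl le_rfl)
  obtain ⟨c1, hc1d⟩ : ∃ c1 : ℝ, c1 = Pool.Agent.H306R2.aF (k:ℝ) *
      (c0 * (1 ^ ((k:ℝ) ^ 2) / Real.Gamma ((k:ℝ) ^ 2 + 1))) := ⟨_, rfl⟩
  have hc1 : 0 < c1 := by
    have h1 := Pool.Agent.H306R2.aF_pos (by linarith : (0:ℝ) < k)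
    have h2 : 0 < Real.Gamma ((k:ℝ) ^ 2 + 1) := Real.Gamma_pos_of_pos (by positivity)
    rw [hc1d]
    positivity
  rw [← hc1d] at hwin
  obtain ⟨T1, hT1⟩ := eventually_atTop.1 hwin
  obtain ⟨U1, hU1⟩ := log_growth (2 * B) (2 ^ (2 * B))
  refine ⟨c1 * (1 / 2) ^ (k ^ 2), by positivity, ?_⟩
  filter_upwards [eventually_ge_atTop T1, eventually_ge_atTop U1, eventually_ge_atTop 100] with T hTT1 hTU1 hT100 s t
    hs ht hst
  have hT0 : 0 < T := by linarith
  obtain ⟨L, hL⟩ : ∃ L : ℝ, L = Real.log T := ⟨_, rfl⟩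
  rw [← hL]
  have hL1 : 1 ≤ L := by
    rw [hL, Real.le_log_iff_exp_le hT0]
    have := Real.exp_one_lt_d9
    linarith
  have hL0 : 0 < L := by linarith
  have hs0 : 0 < s := by linarith
  have hlogs0 : 0 ≤ Real.log s := Real.log_nonneg (by linarith)
  have hTsq : 0 < T ^ (1 / 2 : ℝ) := Real.rpow_pos_of_pos hT0 _
  have h1 := hT1 s (hTT1.trans hs) (t - s) (by
    refine le_trans ?_ hst
    have h2 : Real.log s ≤ 2 * L := by
      have h3 : s ≤ T * T := by nlinarith
      calc Real.log s ≤ Real.log (T * T) := Real.log_le_log hs0 h3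
        _ = 2 * L := by rw [Real.log_mul hT0.ne' hT0.ne', hL]; ring
    have h3 := hU1 T hTU1
    rw [← hL] at h3
    have h4 : (2 * L) ^ B ≤ T ^ (1 / 2 : ℝ) := by
      have h5 := Real.rpow_le_rpow (by positivity) h3 (by norm_num : (0:ℝ) ≤ 1 / 2)
      have e : (2 ^ (2 * B) * L ^ (2 * B)) ^ (1 / 2 : ℝ) = (2 * L) ^ B := by
        rw [← Real.mul_rpow (by norm_num) hL0.le, ← Real.rpow_mul (by positivity)]
        congr 1
        ring
      rwa [e] at h5
    exact (Real.rpow_le_rpow hlogs0 h2 hB.le).trans h4)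
  have e1 : s + (t - s) = t := by ring
  rw [e1] at h1
  have e2 : ∫ x in s..t, ‖riemannZeta (1 / 2 + x * Complex.I)‖ ^ (2 * (k:ℝ)) = Ik k t - Ik k s := by
    have h2 : Ik k t - Ik k s = ∫ x in s..t, fk k x :=
      intervalIntegral.integral_interval_sub_left (f := fk k) ((fk_cont k).intervalIntegrable _ _)
        ((fk_cont k).intervalIntegrable _ _)
    rw [h2]
    refine intervalIntegral.integral_congr fun x _ => ?_
    simp only [fk]
    rw [← Real.rpow_natCast]
    push_cast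
    rfl
  rw [e2] at h1
  refine le_trans ?_ h1
  have h2 : L / 2 ≤ Real.log (t - s) := by
    calc L / 2 = Real.log (T ^ (1 / 2 : ℝ)) := by rw [Real.log_rpow hT0, hL]; ring
      _ ≤ _ := Real.log_le_log hTsq hst
  have h3 : (L / 2) ^ (k ^ 2) ≤ Real.log (t - s) ^ ((k:ℝ) ^ 2) := by
    have e : ((k:ℝ) ^ 2) = ((k ^ 2 : ℕ) : ℝ) := by push_cast; ring
    rw [e, Real.rpow_natCast]
    exact pow_le_pow_left₀ (by positivity) h2 _
  have hts : 0 ≤ t - s := hTsq.le.trans hst
  calc c1 * (1 / 2) ^ (k ^ 2) * L ^ (k ^ 2) * (t - s) = c1 * ((t - s) * (L / 2) ^ (k ^ 2)) := by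
        rw [div_eq_mul_one_div, mul_pow]; ring
    _ ≤ c1 * ((t - s) * Real.log (t - s) ^ ((k:ℝ) ^ 2)) := by
        apply mul_le_mul_of_nonneg_left _ hc1.le
        exact mul_le_mul_of_nonneg_left h3 hts

/-- small slopes -/
theorem slope_small (k : ℕ) (hk : 1 ≤ k) (P : Polynomial ℝ) (hP : ¬ (k ^ 2 ≤ P.natDegree ∧ 0 < P.leadingCoeff))
    (c : ℝ) (hc : 0 < c) : ∀ᶠ T : ℝ in atTop, ∀ t ∈ Icc T (2 * T),
      P.eval (Real.log t) + P.derivative.eval (Real.log t) ≤ c * Real.log T ^ (k ^ 2) := by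
  by_cases hD : k ^ 2 ≤ P.natDegree
  · have hl : P.leadingCoeff ≤ 0 := by
      by_contra h
      exact hP ⟨hD, not_le.1 h⟩
    have hDpos : 0 < P.natDegree := lt_of_lt_of_le (by positivity) hD
    have hP0 : P ≠ 0 := by
      intro h
      rw [h] at hDpos
      simp at hDpos
    have hdd : P.derivative.degree < P.degree := Polynomial.degree_derivative_lt hP0
    have hdeg : 0 < (P + P.derivative).degree := by
      rw [Polynomial.degree_add_eq_left_of_degree_lt hdd]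
      exact Polynomial.natDegree_pos_iff_degree_pos.1 hDpos
    have hlc : (P + P.derivative).leadingCoeff ≤ 0 := by
      rw [Polynomial.leadingCoeff_add_of_degree_lt' hdd]
      exact hl
    have h := Polynomial.tendsto_atBot_of_leadingCoeff_nonpos _ hdeg hlc
    obtain ⟨X0, hX0⟩ := eventually_atTop.1 (h.eventually_le_atBot 0)
    filter_upwards [Real.tendsto_log_atTop.eventually_ge_atTop X0, eventually_ge_atTop 1] with T h1 h2 t ht
    have h3 := hX0 (Real.log t) (h1.trans (Real.log_le_log (by linarith) ht.1))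
    rw [Polynomial.eval_add] at h3
    have h4 : 0 ≤ c * Real.log T ^ (k ^ 2) := by
      have : 0 ≤ Real.log T := Real.log_nonneg h2
      positivity
    linarith
  · have hD' : P.natDegree ≤ k ^ 2 - 1 := by omega
    obtain ⟨C, hC, h⟩ := main_slope P hD'
    filter_upwards [Real.tendsto_log_atTop.eventually_ge_atTop (C / c), eventually_ge_atTop (Real.exp 1)]
      with T h1 h2 t ht
    have h3 := (le_abs_self _).trans (h T h2 t ht)
    refine h3.trans ?_
    have hT0 : 0 < T := (Real.exp_pos 1).trans_le h2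
    have hL1 : 1 ≤ Real.log T := by rwa [Real.le_log_iff_exp_le hT0]
    rw [div_le_iff₀ hc] at h1
    have e : Real.log T ^ (k ^ 2) = Real.log T ^ (k ^ 2 - 1) * Real.log T := by
      rw [← pow_succ]
      congr 1
      have : 1 ≤ k ^ 2 := Nat.one_le_pow _ _ (by omega)
      omega
    rw [e]
    have h4 : 0 ≤ Real.log T ^ (k ^ 2 - 1) := by positivity
    have := mul_le_mul_of_nonneg_left h1 h4
    linarith

theorem caseTwo (k : ℕ) (hk : 3 ≤ k) (P : Polynomial ℝ) (hP : ¬ (k ^ 2 ≤ P.natDegree ∧ 0 < P.leadingCoeff)) :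
    ∀ᶠ T : ℝ in atTop, ∀ δ : ℝ, Real.log T ^ (k ^ 2) ≤ δ →
      δ ≤ Real.log T ^ (k ^ 2 + 2 * k - 1) → ∀ y : ℝ,
      volume.real {t ∈ Icc T (2 * T) | |Ik k t - (t * P.eval (Real.log t)) - y| ≤ δ} ≤
        T * (δ / Real.log T ^ (k ^ 2 + 2 * k - 1)) ^ (1 - 2 / (k:ℝ)) := by
  have hk3 : (3:ℝ) ≤ k := by exact_mod_cast hk
  have hk0 : (0:ℝ) < k := by linarith
  obtain ⟨θ, hθ⟩ : ∃ θ : ℝ, θ = 2 / (k:ℝ) := ⟨_, rfl⟩
  have hθ0 : 0 < θ := by rw [hθ]; positivity
  have hθ1 : θ < 1 := by rw [hθ, div_lt_one hk0]; linarith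
  rw [← hθ]
  obtain ⟨A, hA⟩ : ∃ A : ℕ, A = k ^ 2 + 2 * k - 1 := ⟨_, rfl⟩
  rw [← hA]
  obtain ⟨c, hc, hwin⟩ := window_low k (by omega)
  have hslope := slope_small k (by omega) P hP (c / 2) (by positivity)
  obtain ⟨U1, hU1⟩ := log_growth ((2 * A : ℕ) : ℝ) (max 4 (4 / c) ^ 2)
  filter_upwards [hwin, hslope, eventually_ge_atTop U1, eventually_ge_atTop 100] with T hw hsl hTU1 hT100 δ hδ1 hδ2 y
  have hT0 : 0 < T := by linarith
  obtain ⟨L, hL⟩ : ∃ L : ℝ, L = Real.log T := ⟨_, rfl⟩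
  rw [← hL] at hw hsl hδ1 hδ2 ⊢
  have hL1 : 1 ≤ L := by
    rw [hL, Real.le_log_iff_exp_le hT0]
    have := Real.exp_one_lt_d9
    linarith
  have hL0 : 0 < L := by linarith
  obtain ⟨W, hW⟩ : ∃ W : ℝ, W = T ^ (1 / 2 : ℝ) := ⟨_, rfl⟩
  have hW0 : 0 < W := by rw [hW]; exact Real.rpow_pos_of_pos hT0 _
  have hWW : W * W = T := by
    rw [hW, ← Real.rpow_add hT0]
    norm_num
  have g1 : max 4 (4 / c) * L ^ A ≤ W := by
    have h1 := hU1 T hTU1
    rw [← hL, Real.rpow_natCast] at h1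
    have h2 : (max 4 (4 / c) * L ^ A) ^ 2 ≤ W ^ 2 := by
      rw [sq W, hWW, mul_pow, ← pow_mul, mul_comm A 2]
      exact h1
    exact le_of_sq_le_sq h2 hW0.le
  have hLA : 0 < L ^ A := by positivity
  have g2 : 4 * L ^ A ≤ W := le_trans (mul_le_mul_of_nonneg_right (le_max_left _ _) hLA.le) g1
  have g3 : 4 / c * L ^ A ≤ W := le_trans (mul_le_mul_of_nonneg_right (le_max_right _ _) hLA.le) g1
  have hδone : 1 ≤ δ := (one_le_pow₀ hL1).trans hδ1
  -- two points of the set are close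
  have hclose : ∀ s t : ℝ, s ∈ {t ∈ Icc T (2 * T) | |Ik k t - (t * P.eval (Real.log t)) - y| ≤ δ} →
      t ∈ {t ∈ Icc T (2 * T) | |Ik k t - (t * P.eval (Real.log t)) - y| ≤ δ} → s ≤ t → t - s ≤ W := by
    intro s t hs ht hst
    by_contra hcon
    push Not at hcon
    obtain ⟨hs1, hs2⟩ := hs
    obtain ⟨ht1, ht2⟩ := ht
    have h1 := hw s t hs1.1 ht1.2 (by rw [← hW]; exact hcon.le)
    have h2 : t * P.eval (Real.log t) - s * P.eval (Real.log s) ≤ c / 2 * L ^ (k ^ 2) * (t - s) := by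
      have hder : ∀ x : ℝ, 0 < x → HasDerivAt (fun x : ℝ => x * P.eval (Real.log x))
          (P.eval (Real.log x) + P.derivative.eval (Real.log x)) x := by
        intro x hx
        have := main_deriv P 0 hx
        simpa only [add_zero] using this
      have h3 := Convex.image_sub_le_mul_sub_of_deriv_le (convex_Icc s t)
        (f := fun x : ℝ => x * P.eval (Real.log x)) (C := c / 2 * L ^ (k ^ 2))
        (fun x hx => (hder x (by linarith [hx.1, hs1.1])).continuousAt.continuousWithinAt)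
        (fun x hx => by
          rw [interior_Icc] at hx
          exact (hder x (by linarith [hx.1, hs1.1])).differentiableAt.differentiableWithinAt)
        (fun x hx => by
          rw [interior_Icc] at hx
          rw [(hder x (by linarith [hx.1, hs1.1])).deriv]
          exact hsl x ⟨by linarith [hx.1, hs1.1], by linarith [hx.2, ht1.2]⟩)
        s (left_mem_Icc.2 hst) t (right_mem_Icc.2 hst) hst
      exact h3
    have h4 : (Ik k t - (t * P.eval (Real.log t)) - y) - (Ik k s - (s * P.eval (Real.log s)) - y) ≤ 2 * δ := by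
      linarith [(abs_le.1 ht2).2, (abs_le.1 hs2).1]
    have h5 : c / 2 * L ^ (k ^ 2) * (t - s) ≤ 2 * δ := by linarith
    have h6 : (1:ℝ) ≤ L ^ (k ^ 2) := one_le_pow₀ hL1
    have h7 : c / 2 * (t - s) ≤ c / 2 * L ^ (k ^ 2) * (t - s) := by
      have : 0 ≤ c / 2 * (t - s) := mul_nonneg (by positivity) (by linarith)
      nlinarith
    have h8 : 2 * L ^ A ≤ c / 2 * W := by
      have := mul_le_mul_of_nonneg_left g3 hc.le
      have e : c * (4 / c * L ^ A) = 4 * L ^ A := by field_simp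
      rw [e] at this
      linarith
    have h9 : c / 2 * W < c / 2 * (t - s) := mul_lt_mul_of_pos_left hcon (by positivity)
    linarith
  -- the measure
  have hmeas : volume.real {t ∈ Icc T (2 * T) | |Ik k t - (t * P.eval (Real.log t)) - y| ≤ δ} ≤ 2 * W := by
    rcases Set.eq_empty_or_nonempty {t ∈ Icc T (2 * T) | |Ik k t - (t * P.eval (Real.log t)) - y| ≤ δ} with h | h
    · rw [h]
      simp only [measureReal_empty]
      positivity
    · obtain ⟨s0, hs0⟩ := h
      have hsub : {t ∈ Icc T (2 * T) | |Ik k t - (t * P.eval (Real.log t)) - y| ≤ δ} ⊆ Icc (s0 - W) (s0 + W) := by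
        intro t ht
        rcases le_total s0 t with h1 | h1
        · have := hclose s0 t hs0 ht h1
          exact ⟨by linarith, by linarith⟩
        · have := hclose t s0 ht hs0 h1
          exact ⟨by linarith, by linarith⟩
      calc _ ≤ volume.real (Icc (s0 - W) (s0 + W)) :=
            measureReal_mono hsub (by rw [Real.volume_Icc]; exact ENNReal.ofReal_ne_top)
        _ = 2 * W := by rw [Real.volume_real_Icc_of_le (by linarith)]; ring
  refine hmeas.trans ?_
  -- the right-hand side is large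
  have hR : L ^ (-(A:ℝ)) ≤ (δ / L ^ A) ^ (1 - θ) := by
    have h1 : 1 / L ^ A ≤ δ / L ^ A := by
      apply div_le_div_of_nonneg_right hδone hLA.le
    have h2 : 1 / L ^ A ≤ 1 := by
      rw [div_le_one hLA]
      exact one_le_pow₀ hL1
    have h3 : L ^ (-(A:ℝ)) = 1 / L ^ A := by
      rw [Real.rpow_neg hL0.le, Real.rpow_natCast, one_div]
    rw [h3]
    calc 1 / L ^ A = (1 / L ^ A) ^ (1:ℝ) := (Real.rpow_one _).symm
      _ ≤ (1 / L ^ A) ^ (1 - θ) := Real.rpow_le_rpow_of_exponent_ge (by positivity) h2 (by linarith)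
      _ ≤ (δ / L ^ A) ^ (1 - θ) := Real.rpow_le_rpow (by positivity) h1 (by linarith)
  calc 2 * W ≤ W * W * L ^ (-(A:ℝ)) := by
        rw [Real.rpow_neg hL0.le, Real.rpow_natCast, ← div_eq_mul_inv, le_div_iff₀ hLA]
        nlinarith
    _ = T * L ^ (-(A:ℝ)) := by rw [hWW]
    _ ≤ _ := mul_le_mul_of_nonneg_left hR hT0.le

theorem mainB (k : ℕ) (hk : 3 ≤ k) (P : Polynomial ℝ) :
    ∃ C : ℝ, 0 < C ∧ ∀ᶠ T : ℝ in atTop, ∀ δ : ℝ, Real.log T ^ (k ^ 2) ≤ δ → ∀ y : ℝ,
      volume.real {t ∈ Icc T (2 * T) | |Ik k t - (t * P.eval (Real.log t)) - y| ≤ δ} ≤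
        C * T * (δ / Real.log T ^ (k ^ 2 + 2 * k - 1)) ^ (1 - 2 / (k:ℝ)) := by
  have hk3 : (3:ℝ) ≤ k := by exact_mod_cast hk
  have hk0 : (0:ℝ) < k := by linarith
  have hθ1 : 0 ≤ 1 - 2 / (k:ℝ) := by
    have : 2 / (k:ℝ) ≤ 1 := by rw [div_le_one hk0]; linarith
    linarith
  -- small `δ`
  obtain ⟨C, hC1, h⟩ : ∃ C : ℝ, 1 ≤ C ∧ ∀ᶠ T : ℝ in atTop, ∀ δ : ℝ, Real.log T ^ (k ^ 2) ≤ δ →
      δ ≤ Real.log T ^ (k ^ 2 + 2 * k - 1) → ∀ y : ℝ,
      volume.real {t ∈ Icc T (2 * T) | |Ik k t - (t * P.eval (Real.log t)) - y| ≤ δ} ≤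
        C * T * (δ / Real.log T ^ (k ^ 2 + 2 * k - 1)) ^ (1 - 2 / (k:ℝ)) := by
    by_cases hP : k ^ 2 ≤ P.natDegree ∧ 0 < P.leadingCoeff
    · obtain ⟨C, hC, h⟩ := caseOne k hk P hP.1 hP.2
      refine ⟨max C 1, le_max_right _ _, ?_⟩
      filter_upwards [h, eventually_gt_atTop 1] with T hT hT1 δ h1 h2 y
      refine (hT δ h1 h2 y).trans ?_
      have hL : 0 < Real.log T := Real.log_pos hT1
      have hδ : 0 ≤ δ := le_trans (by positivity) h1
      apply mul_le_mul_of_nonneg_right _ (Real.rpow_nonneg (by positivity) _)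
      exact mul_le_mul_of_nonneg_right (le_max_left _ _) (by linarith)
    · refine ⟨1, le_rfl, ?_⟩
      filter_upwards [caseTwo k hk P hP] with T hT δ h1 h2 y
      rw [one_mul]
      exact hT δ h1 h2 y
  refine ⟨C, by linarith, ?_⟩
  filter_upwards [h, eventually_gt_atTop 1] with T hT hT1 δ h1 y
  rcases le_total δ (Real.log T ^ (k ^ 2 + 2 * k - 1)) with h2 | h2
  · exact hT δ h1 h2 y
  · have hL : 0 < Real.log T := Real.log_pos hT1
    have h3 : volume.real {t ∈ Icc T (2 * T) | |Ik k t - (t * P.eval (Real.log t)) - y| ≤ δ} ≤ T := by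
      calc _ ≤ volume.real (Icc T (2 * T)) :=
            measureReal_mono (sep_subset _ _) (by rw [Real.volume_Icc]; exact ENNReal.ofReal_ne_top)
        _ = T := by rw [Real.volume_real_Icc_of_le (by linarith)]; ring
    refine h3.trans ?_
    have h4 : 1 ≤ δ / Real.log T ^ (k ^ 2 + 2 * k - 1) := by
      rw [one_le_div (by positivity)]
      exact h2
    have h5 := Real.one_le_rpow h4 hθ1
    calc T = 1 * T * 1 := by ring
      _ ≤ C * T * (δ / Real.log T ^ (k ^ 2 + 2 * k - 1)) ^ (1 - 2 / (k:ℝ)) := by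
          apply mul_le_mul _ h5 zero_le_one (by positivity)
          exact mul_le_mul_of_nonneg_right hC1 (by linarith)

end Pool.Agent.Helper156_EK
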