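import Pool.Agent.Helper156_EK.CoreA

set_option autoImplicit false

/-!
# The mass of the large values
-/

open MeasureTheory Set Filter

namespace Pool.Agent.Helper156_EK

/-- the modulus -/
noncomputable def za (t : ℝ) : ℝ := ‖riemannZeta (1 / 2 + t * Complex.I)‖

/-- the level sets -/
def Lv (V W : ℝ) : Set ℝ := {t | Real.exp (V - W) ≤ za t ∧ za t ≤ Real.exp (V + W)}

/-- the lower half of the local law -/
def LAW : Prop := ∀ B : ℝ, 0 ≤ B → ∃ (E : Set ℝ) (c W : ℝ), MeasurableSet E ∧ 0 < c ∧ 0 < W ∧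
  ∀ α : ℝ, 0 ≤ α → α < 1 → ∀ᶠ T : ℝ in atTop, ∀ H : ℝ, T / Real.log T ^ α ≤ H → H ≤ T →
    ∀ V : ℝ, |V| ≤ B * Real.log (Real.log T) →
      c * (H * (Real.exp (-(V ^ 2 / Real.log (Real.log T))) / Real.sqrt (Real.log (Real.log T)))) ≤
        volume.real (Icc T (T + H) ∩ (E ∩ Lv V W))

theorem za_cont : Continuous za := by
  unfold za
  rw [continuous_iff_continuousAt]
  intro t
  have h1 : (1 / 2 + (t:ℂ) * Complex.I) ≠ 1 := by
    intro h
    have := congrArg Complex.re h
    simp at this
  have h2 := (differentiableAt_riemannZeta h1).continuousAt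
  exact (ContinuousAt.comp (f := fun t : ℝ => 1 / 2 + (t:ℂ) * Complex.I) h2
    (by fun_prop : Continuous fun t : ℝ => 1 / 2 + (t:ℂ) * Complex.I).continuousAt).norm

theorem Lv_meas (V W : ℝ) : MeasurableSet (Lv V W) :=
  (measurableSet_le measurable_const za_cont.measurable).inter
    (measurableSet_le za_cont.measurable measurable_const)

theorem law_mass (hlaw : LAW) (k : ℕ) (B : ℝ) (hB : 0 ≤ B) :
    ∃ (c W : ℝ) (S : ℝ → ℝ → Set ℝ), 0 < c ∧ 0 < W ∧ (∀ l x, MeasurableSet (S l x)) ∧
      (∀ l x, ∀ t ∈ S l x, Real.exp (2 * k * (k * l + x - W)) ≤ za t ^ (2 * k)) ∧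
      ∀ α : ℝ, 0 ≤ α → α < 1 → ∀ᶠ T : ℝ in atTop, ∀ T' H' : ℝ, T ≤ T' → T' ≤ 2 * T →
        T' / Real.log T' ^ α ≤ H' → H' ≤ T' → ∀ x : ℝ, 0 ≤ x → x ≤ B * Real.log (Real.log T) →
        c * (H' * (Real.exp (k ^ 2 * Real.log (Real.log T) - x ^ 2 / Real.log (Real.log T)) /
          (1 + x / Real.sqrt (Real.log (Real.log T))))) ≤
          ∫ t in T'..(T' + H'), (S (Real.log (Real.log T)) x).indicator (fun t => za t ^ (2 * k)) t := by
  obtain ⟨E, c, W, hE, hc, hW, h⟩ := hlaw (k + B + 1) (by positivity)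
  -- the centres
  obtain ⟨V, hVd⟩ : ∃ V : ℝ → ℝ → ℕ → ℝ, V = fun l x (j : ℕ) => k * l + x + 3 * W * (j : ℝ) := ⟨_, rfl⟩
  obtain ⟨J, hJd⟩ : ∃ J : ℝ → ℝ → ℕ, J = fun l x => ⌊Real.sqrt l / (1 + x / Real.sqrt l)⌋₊ := ⟨_, rfl⟩
  refine ⟨c / 2 * Real.exp (-(2 * k * W + 6 * W + 9 * W ^ 2)), W,
    fun l x => ⋃ j ∈ Finset.range (J l x + 1), (E ∩ Lv (V l x j) W), by positivity, hW, ?_, ?_, ?_⟩
  · intro l x
    exact Finset.measurableSet_biUnion _ fun j _ => hE.inter (Lv_meas _ _)
  · intro l x t ht
    rw [mem_iUnion₂] at ht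
    obtain ⟨j, -, -, ht1, -⟩ := ht
    have h1 : Real.exp (k * l + x - W) ≤ za t := by
      refine le_trans (Real.exp_le_exp.2 ?_) ht1
      rw [hVd]
      have : 0 ≤ 3 * W * (j:ℝ) := by positivity
      simp only
      linarith
    calc Real.exp (2 * k * (k * l + x - W)) = Real.exp (k * l + x - W) ^ (2 * k) := by
          rw [← Real.exp_nat_mul]
          congr 1
          push_cast
          ring
      _ ≤ za t ^ (2 * k) := pow_le_pow_left₀ (Real.exp_pos _).le h1 _
  · intro α hα0 hα1
    have hlaw1 := h α hα0 hα1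
    obtain ⟨T1, hT1⟩ := eventually_atTop.1 hlaw1
    have hll : Tendsto (fun T : ℝ => Real.log (Real.log T)) atTop atTop :=
      Real.tendsto_log_atTop.comp Real.tendsto_log_atTop
    filter_upwards [eventually_ge_atTop T1, hll.eventually_ge_atTop (max 1 (9 * W ^ 2)),
      eventually_ge_atTop (Real.exp 2)] with T hTT1 hl hT2 T' H' hT' hT'2 hH' hH'2 x hx0 hxB
    obtain ⟨l, hld⟩ : ∃ l : ℝ, l = Real.log (Real.log T) := ⟨_, rfl⟩
    rw [← hld] at hl hxB ⊢
    have hl1 : 1 ≤ l := (le_max_left _ _).trans hl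
    have hl9 : 9 * W ^ 2 ≤ l := (le_max_right _ _).trans hl
    have hl0 : 0 < l := by linarith
    have hT0 : 0 < T := (Real.exp_pos 2).trans_le hT2
    have hT'0 : 0 < T' := hT0.trans_le hT'
    have hL2 : 2 ≤ Real.log T := by rwa [Real.le_log_iff_exp_le hT0]
    obtain ⟨l', hl'd⟩ : ∃ l' : ℝ, l' = Real.log (Real.log T') := ⟨_, rfl⟩
    have hLL' : Real.log T ≤ Real.log T' := Real.log_le_log hT0 hT'
    have hll' : l ≤ l' := by
      rw [hld, hl'd]
      exact Real.log_le_log (by linarith) hLL'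
    have he2 : (2:ℝ) ≤ T := by
      have h1 : (2:ℝ) + 1 ≤ Real.exp 2 := Real.add_one_le_exp 2
      linarith
    have hL'2 : Real.log T' ≤ 2 * Real.log T := by
      calc Real.log T' ≤ Real.log (T * T) := Real.log_le_log hT'0 (by nlinarith)
        _ = 2 * Real.log T := by rw [Real.log_mul hT0.ne' hT0.ne']; ring
    have hl'4 : l' ≤ 4 * l := by
      rw [hl'd]
      calc Real.log (Real.log T') ≤ Real.log (Real.log T * Real.log T) :=
            Real.log_le_log (by linarith) (by nlinarith)
        _ = 2 * l := by rw [Real.log_mul (by linarith) (by linarith), hld]; ring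
        _ ≤ 4 * l := by linarith
    have hl'0 : 0 < l' := hl0.trans_le hll'
    have hH'0 : 0 ≤ H' := le_trans (by
      have : 0 ≤ Real.log T' ^ α := Real.rpow_nonneg (by linarith) _
      positivity) hH'
    set s := Real.sqrt l with hs
    have hs0 : 0 < s := Real.sqrt_pos.2 hl0
    have hs1 : 1 ≤ s := by rw [hs, Real.one_le_sqrt]; exact hl1
    have hss : s * s = l := Real.mul_self_sqrt hl0.le
    have hs' : Real.sqrt l' ≤ 2 * s := by
      rw [hs, Real.sqrt_le_left (by positivity)]
      rw [mul_pow, Real.sq_sqrt hl0.le]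
      linarith
    have hs'0 : 0 < Real.sqrt l' := Real.sqrt_pos.2 hl'0
    set y := s / (1 + x / s) with hy
    have h1x : 0 < 1 + x / s := by positivity
    have hy0 : 0 < y := by positivity
    have hys : y ≤ s := by
      rw [hy]
      apply div_le_self hs0.le
      have : 0 ≤ x / s := by positivity
      linarith
    have hJ1 : ((J l x : ℕ) : ℝ) ≤ y := by rw [hJd]; exact Nat.floor_le hy0.le
    have hJ2 : y ≤ (J l x : ℕ) + 1 := by rw [hJd]; exact (Nat.lt_floor_add_one _).le
    -- the integral over the union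
    have hf : Continuous fun t => za t ^ (2 * k) := za_cont.pow _
    have hf0 : ∀ t, 0 ≤ za t ^ (2 * k) := fun t => pow_nonneg (norm_nonneg _) _
    have hab : T' ≤ T' + H' := by linarith
    have hdisj : (↑(Finset.range (J l x + 1)) : Set ℕ).PairwiseDisjoint
        (fun j => E ∩ Lv (V l x j) W) := by
      intro i _ j _ hij
      rw [Function.onFun, Set.disjoint_left]
      rintro t ⟨-, h1, h2⟩ ⟨-, h3, h4⟩
      have h5 : V l x i - W ≤ V l x j + W := Real.exp_le_exp.1 (h1.trans h4)
      have h6 : V l x j - W ≤ V l x i + W := Real.exp_le_exp.1 (h3.trans h2)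
      rw [hVd] at h5 h6
      simp only at h5 h6
      rcases lt_or_gt_of_ne hij with h7 | h7
      · have h8 : (i:ℝ) + 1 ≤ j := by exact_mod_cast h7
        nlinarith
      · have h8 : (j:ℝ) + 1 ≤ i := by exact_mod_cast h7
        nlinarith
    have e1 : ∫ t in T'..(T' + H'), (⋃ j ∈ Finset.range (J l x + 1), (E ∩ Lv (V l x j) W)).indicator
        (fun t => za t ^ (2 * k)) t =
        ∑ j ∈ Finset.range (J l x + 1), ∫ t in Icc T' (T' + H') ∩ (E ∩ Lv (V l x j) W), za t ^ (2 * k) := by
      rw [intervalIntegral.integral_of_le hab, ← integral_Icc_eq_integral_Ioc,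
        setIntegral_indicator (Finset.measurableSet_biUnion _ fun j _ => hE.inter (Lv_meas _ _)),
        inter_iUnion₂]
      apply integral_biUnion_finset
      · intro j _
        exact measurableSet_Icc.inter (hE.inter (Lv_meas _ _))
      · intro i hi j hj hij
        exact (hdisj hi hj hij).mono inter_subset_right inter_subset_right
      · intro j _
        exact (hf.continuousOn.integrableOn_Icc).mono_set inter_subset_left
    rw [e1]
    -- one level set
    have h2 : ∀ j ∈ Finset.range (J l x + 1),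
        c / 2 * Real.exp (-(2 * k * W + 6 * W + 9 * W ^ 2)) * (H' * (Real.exp (k ^ 2 * l - x ^ 2 / l) / s)) ≤
          ∫ t in Icc T' (T' + H') ∩ (E ∩ Lv (V l x j) W), za t ^ (2 * k) := by
      intro j hj
      rw [Finset.mem_range] at hj
      have hjy : (j:ℝ) ≤ y := by
        have : (j:ℝ) ≤ (J l x : ℕ) := by exact_mod_cast (by omega : j ≤ J l x)
        linarith
      have hjs : (j:ℝ) ≤ s := hjy.trans hys
      have hj0 : (0:ℝ) ≤ j := j.cast_nonneg
      have hVj : V l x j = k * l + x + 3 * W * j := by rw [hVd]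
      have hW3 : 3 * W * j ≤ l := by
        have h3 : 3 * W ≤ s := by
          rw [hs]
          apply Real.le_sqrt_of_sq_le
          calc (3 * W) ^ 2 = 9 * W ^ 2 := by ring
            _ ≤ l := hl9
        calc 3 * W * j ≤ s * s := mul_le_mul h3 hjs hj0 hs0.le
          _ = l := hss
      have hV0 : 0 ≤ V l x j := by rw [hVj]; positivity
      have hVle : V l x j ≤ (k + B + 1) * l := by rw [hVj]; linarith
      have hVabs : |V l x j| ≤ (k + B + 1) * Real.log (Real.log T') := by
        rw [abs_of_nonneg hV0, ← hl'd]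
        exact hVle.trans (mul_le_mul_of_nonneg_left hll' (by positivity))
      have h3 := hT1 T' (hTT1.trans hT') H' hH' hH'2 (V l x j) hVabs
      rw [← hl'd] at h3
      -- comparison of the weights
      have h4 : Real.exp (-(V l x j ^ 2 / l)) / (2 * s) ≤ Real.exp (-(V l x j ^ 2 / l')) / Real.sqrt l' := by
        apply div_le_div₀ (Real.exp_pos _).le _ hs'0 hs'
        apply Real.exp_le_exp.2
        rw [neg_le_neg_iff]
        exact div_le_div_of_nonneg_left (sq_nonneg _) hl0 hll'
      have h5 : Real.exp (2 * k * (V l x j - W)) * volume.real (Icc T' (T' + H') ∩ (E ∩ Lv (V l x j) W)) ≤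
          ∫ t in Icc T' (T' + H') ∩ (E ∩ Lv (V l x j) W), za t ^ (2 * k) := by
        have hmeas : MeasurableSet (Icc T' (T' + H') ∩ (E ∩ Lv (V l x j) W)) :=
          measurableSet_Icc.inter (hE.inter (Lv_meas _ _))
        have hfin : volume (Icc T' (T' + H') ∩ (E ∩ Lv (V l x j) W)) ≠ ⊤ :=
          ne_top_of_le_ne_top (by rw [Real.volume_Icc]; exact ENNReal.ofReal_ne_top)
            (measure_mono inter_subset_left)
        have e2 : ∫ _t in Icc T' (T' + H') ∩ (E ∩ Lv (V l x j) W), Real.exp (2 * k * (V l x j - W)) =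
            Real.exp (2 * k * (V l x j - W)) * volume.real (Icc T' (T' + H') ∩ (E ∩ Lv (V l x j) W)) := by
          rw [setIntegral_const, smul_eq_mul, mul_comm]
        rw [← e2]
        apply setIntegral_mono_on (integrableOn_const hfin)
          ((hf.continuousOn.integrableOn_Icc).mono_set inter_subset_left) hmeas
        intro t ht
        calc Real.exp (2 * k * (V l x j - W)) = Real.exp (V l x j - W) ^ (2 * k) := by
              rw [← Real.exp_nat_mul]
              congr 1
              push_cast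
              ring
          _ ≤ za t ^ (2 * k) := pow_le_pow_left₀ (Real.exp_pos _).le ht.2.2.1 _
      refine le_trans ?_ h5
      -- the exponents
      have h6 : -(2 * k * W + 6 * W + 9 * W ^ 2) + (k ^ 2 * l - x ^ 2 / l) ≤
          2 * k * (V l x j - W) + -(V l x j ^ 2 / l) := by
        have h7 : V l x j ^ 2 / l = k ^ 2 * l + 2 * k * (x + 3 * W * j) + (x + 3 * W * j) ^ 2 / l := by
          rw [hVj]
          field_simp
          ring
        have h8 : (x + 3 * W * j) ^ 2 / l ≤ x ^ 2 / l + 6 * W + 9 * W ^ 2 := by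
          have e3 : (x + 3 * W * j) ^ 2 / l = x ^ 2 / l + 6 * W * (x * j / l) + 9 * W ^ 2 * (j ^ 2 / l) := by
            field_simp
            ring
          have h9 : x * j / l ≤ 1 := by
            rw [div_le_one hl0]
            have h10 : x * y ≤ l := by
              rw [hy, ← mul_div_assoc, div_le_iff₀ h1x, ← hss]
              have e4 : s * s * (1 + x / s) = s * s + x * s := by field_simp
              rw [e4]
              nlinarith
            exact (mul_le_mul_of_nonneg_left hjy hx0).trans h10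
          have h10 : (j:ℝ) ^ 2 / l ≤ 1 := by
            rw [div_le_one hl0, ← hss]
            nlinarith
          have h11 : 6 * W * (x * j / l) ≤ 6 * W * 1 := mul_le_mul_of_nonneg_left h9 (by positivity)
          have h12 : 9 * W ^ 2 * ((j:ℝ) ^ 2 / l) ≤ 9 * W ^ 2 * 1 := mul_le_mul_of_nonneg_left h10 (by positivity)
          rw [e3]
          linarith
        have e5 : 2 * (k:ℝ) * (V l x j - W) = 2 * k * (k * l) + 2 * k * (x + 3 * W * j) - 2 * k * W := by
          rw [hVj]; ring
        rw [h7, e5]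
        nlinarith
      have h7 := Real.exp_le_exp.2 h6
      rw [Real.exp_add, Real.exp_add] at h7
      have h8 : c * (H' * (Real.exp (-(V l x j ^ 2 / l)) / (2 * s))) ≤
          volume.real (Icc T' (T' + H') ∩ (E ∩ Lv (V l x j) W)) :=
        le_trans (mul_le_mul_of_nonneg_left (mul_le_mul_of_nonneg_left h4 hH'0) hc.le) h3
      calc c / 2 * Real.exp (-(2 * k * W + 6 * W + 9 * W ^ 2)) * (H' * (Real.exp (k ^ 2 * l - x ^ 2 / l) / s))
          = c / 2 * (H' / s) * (Real.exp (-(2 * k * W + 6 * W + 9 * W ^ 2)) * Real.exp (k ^ 2 * l - x ^ 2 / l)) := by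
            ring
        _ ≤ c / 2 * (H' / s) * (Real.exp (2 * k * (V l x j - W)) * Real.exp (-(V l x j ^ 2 / l))) :=
            mul_le_mul_of_nonneg_left h7 (by positivity)
        _ = Real.exp (2 * k * (V l x j - W)) * (c * (H' * (Real.exp (-(V l x j ^ 2 / l)) / (2 * s)))) := by
            field_simp
        _ ≤ _ := mul_le_mul_of_nonneg_left h8 (Real.exp_pos _).le
    calc c / 2 * Real.exp (-(2 * k * W + 6 * W + 9 * W ^ 2)) *
          (H' * (Real.exp (k ^ 2 * l - x ^ 2 / l) / (1 + x / s)))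
        = y * (c / 2 * Real.exp (-(2 * k * W + 6 * W + 9 * W ^ 2)) *
          (H' * (Real.exp (k ^ 2 * l - x ^ 2 / l) / s))) := by
          rw [hy]
          field_simp
      _ ≤ ((J l x : ℕ) + 1) * (c / 2 * Real.exp (-(2 * k * W + 6 * W + 9 * W ^ 2)) *
          (H' * (Real.exp (k ^ 2 * l - x ^ 2 / l) / s))) :=
          mul_le_mul_of_nonneg_right hJ2 (by positivity)
      _ = ∑ _j ∈ Finset.range (J l x + 1), c / 2 * Real.exp (-(2 * k * W + 6 * W + 9 * W ^ 2)) *
          (H' * (Real.exp (k ^ 2 * l - x ^ 2 / l) / s)) := by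
          rw [Finset.sum_const, Finset.card_range, nsmul_eq_mul]
          push_cast
          ring
      _ ≤ _ := Finset.sum_le_sum h2

end Pool.Agent.Helper156_EK
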