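import Pool.Agent.Helper156_EK.LawA
import Pool.Agent.TH806.LM.Fin

set_option autoImplicit false

/-!
# The local law, from the library
-/

open MeasureTheory Set Filter

namespace Pool.Agent.Helper156_EK

theorem law : LAW := by
  intro B hB
  obtain ⟨E, c, C, W, δ, hE, hc, -, hW, -, -, -, h⟩ := Pool.Agent.TH806.LM.a_FIN B 1 1 hB one_pos one_pos
  refine ⟨E, c, W, hE, hc, hW, fun α hα0 hα1 => ?_⟩
  filter_upwards [h α hα0 hα1] with T hT H hH1 hH2 V hV
  exact ((hT H hH1 hH2).2.1 V hV).1

end Pool.Agent.Helper156_EK
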